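import Pool.Agent.AET.Cob

/-!
# Countable dense classes
-/

set_option autoImplicit false

open MeasureTheory Set Filter Topology Finset

namespace Pool.AET

variable {Ω : Type*} [MeasurableSpace Ω] {μ : Measure Ω} {φ : ℝ → Ω → Ω}

/-- A countable algebra of sets which generates. -/
private theorem dens_alg (Ω : Type*) [m : MeasurableSpace Ω] [MeasurableSpace.CountablyGenerated Ω] :
    ∃ A : Set (Set Ω), A.Countable ∧ IsSetAlgebra A ∧ m = MeasurableSpace.generateFrom A := by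
  obtain ⟨b, hb, hm⟩ := MeasurableSpace.CountablyGenerated.isCountablyGenerated (α := Ω)
  refine ⟨generateSetAlgebra b, countable_generateSetAlgebra hb, isSetAlgebra_generateSetAlgebra, ?_⟩
  rw [generateFrom_generateSetAlgebra_eq, hm]

omit [MeasurableSpace Ω] in
/-- An integrable function whose integral over the sets of a generating algebra is zero. -/
private theorem dens_zero {m : MeasurableSpace Ω} {μ : Measure Ω} [IsFiniteMeasure μ]
    {A : Set (Set Ω)} (hA : IsSetAlgebra A)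
    (hm : m = MeasurableSpace.generateFrom A) {w : Ω → ℝ} (hw : Integrable w μ)
    (h0 : ∀ s ∈ A, ∫ x in s, w x ∂μ = 0) : w =ᵐ[μ] 0 := by
  have hall : ∀ s, MeasurableSet s → ∫ x in s, w x ∂μ = 0 := by
    refine MeasurableSpace.induction_on_inter hm ?_ ?_ ?_ ?_ ?_
    · intro s hs t ht _
      exact hA.inter_mem hs ht
    · simp
    · intro t ht
      exact h0 t ht
    · intro t htm ht
      have h1 := integral_add_compl htm hw
      have h2 := h0 univ hA.univ_mem
      rw [setIntegral_univ] at h2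
      linarith
    · intro f hd hf h1
      rw [integral_iUnion hf hd hw.integrableOn]
      simp [h1]
  exact Integrable.ae_eq_zero_of_forall_setIntegral_eq_zero hw (fun s hs _ => hall s hs)

private theorem dens_memLp_bd [IsFiniteMeasure μ] {c : Ω → ℝ} (hc : Measurable c) (C : ℝ)
    (hb : ∀ x, |c x| ≤ C) : MemLp c 2 μ :=
  MemLp.of_bound hc.aestronglyMeasurable C (Eventually.of_forall fun x => by simpa using hb x)

/-- Orthogonal decomposition along the closed span of a set of bounded functions. -/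
private theorem dens_orth [IsProbabilityMeasure μ] (H : Set (Ω → ℝ))
    (hH : ∀ c ∈ H, Measurable c ∧ ∀ x, |c x| ≤ 1) (f : Ω → ℝ) (hf : MemLp f 2 μ) (ε : ℝ)
    (hε : 0 < ε) :
    ∃ (n : ℕ) (r : Fin n → ℝ) (c : Fin n → Ω → ℝ) (g : Ω → ℝ),
      (∀ i, c i ∈ H) ∧ Measurable g ∧ MemLp g 2 μ ∧ (∀ c ∈ H, ∫ x, g x * c x ∂μ = 0) ∧
      ∫ x, (f x - ∑ i, r i * c i x - g x) ^ 2 ∂μ ≤ ε := by
  set S : Set (Lp ℝ 2 μ) := {F | ∃ c ∈ H, F =ᵐ[μ] c} with hS
  set V : Submodule ℝ (Lp ℝ 2 μ) := Submodule.span ℝ S with hV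
  set W : Submodule ℝ (Lp ℝ 2 μ) := V.topologicalClosure with hW
  have : CompleteSpace W := (Submodule.isClosed_topologicalClosure V).completeSpace_coe
  set F : Lp ℝ 2 μ := hf.toLp f with hF
  obtain ⟨P, hP, G, hG, hPG⟩ := Submodule.exists_add_mem_mem_orthogonal (K := W) F
  have hP' : P ∈ closure (V : Set (Lp ℝ 2 μ)) := hP
  obtain ⟨Q, hQ, hPQ⟩ := Metric.mem_closure_iff.1 hP' (Real.sqrt ε) (Real.sqrt_pos.2 hε)
  obtain ⟨n, r, s, hs⟩ := (Submodule.mem_span_set' (R := ℝ)).1 hQ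
  choose c hcH hc using fun i => (s i).2
  refine ⟨n, r, c, G, hcH, (Lp.stronglyMeasurable G).measurable, Lp.memLp G, ?_, ?_⟩
  · intro k hk
    have hkm : MemLp k 2 μ := dens_memLp_bd (hH k hk).1 1 (hH k hk).2
    have h1 : hkm.toLp k ∈ W := by
      refine V.le_topologicalClosure (Submodule.subset_span ?_)
      exact ⟨k, hk, hkm.coeFn_toLp⟩
    have h2 := (Submodule.mem_orthogonal' W G).1 hG _ h1
    rw [L2.inner_def] at h2
    rw [← h2]
    refine integral_congr_ae ?_
    filter_upwards [hkm.coeFn_toLp] with x hx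
    rw [hx]
    simp [mul_comm]
  · have h1 : ‖P - Q‖ ^ 2 = ∫ x, (f x - ∑ i, r i * c i x - G x) ^ 2 ∂μ := by
      rw [← real_inner_self_eq_norm_sq, L2.inner_def]
      refine integral_congr_ae ?_
      have e1 : P - Q = F - Q - G := by rw [hPG]; abel
      have e2 : (Q : Ω → ℝ) =ᵐ[μ] fun x => ∑ i, r i * c i x := by
        rw [← hs]
        have a1 : ((∑ i, r i • (s i : Lp ℝ 2 μ) : Lp ℝ 2 μ) : Ω → ℝ) =ᵐ[μ]
            fun x => ∑ i, (r i • (s i : Lp ℝ 2 μ) : Lp ℝ 2 μ) x := by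
          have := Lp.coeFn_finsetSum (p := (2 : ENNReal)) (μ := μ) Finset.univ
            (fun i => (r i • (s i : Lp ℝ 2 μ) : Lp ℝ 2 μ))
          filter_upwards [this] with x hx
          rw [hx]
          simp
        have a2 : ∀ i, ((r i • (s i : Lp ℝ 2 μ) : Lp ℝ 2 μ) : Ω → ℝ) =ᵐ[μ]
            fun x => r i * c i x := by
          intro i
          filter_upwards [Lp.coeFn_smul (r i) (s i : Lp ℝ 2 μ), hc i] with x hx hx2
          rw [hx, Pi.smul_apply, hx2, smul_eq_mul]
        filter_upwards [a1, ae_all_iff.2 a2] with x hx hx2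
        rw [hx]
        exact Finset.sum_congr rfl fun i _ => hx2 i
      rw [e1]
      filter_upwards [Lp.coeFn_sub (F - Q) G, Lp.coeFn_sub F Q, hf.coeFn_toLp, e2] with x h1 h2 h3 h4
      rw [h1, Pi.sub_apply, h2, Pi.sub_apply, h4, hF, h3]
      simp [pow_two]
    rw [← h1]
    have h2 : ‖P - Q‖ < Real.sqrt ε := by rwa [dist_eq_norm] at hPQ
    calc ‖P - Q‖ ^ 2 ≤ (Real.sqrt ε) ^ 2 := by
          exact pow_le_pow_left₀ (norm_nonneg _) h2.le 2
      _ = ε := Real.sq_sqrt hε.le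

omit [MeasurableSpace Ω] in
private theorem dens_ind_zero {m : MeasurableSpace Ω} {μ : Measure Ω} [IsFiniteMeasure μ]
    {A : Set (Set Ω)} (hA : IsSetAlgebra A)
    (hm : m = MeasurableSpace.generateFrom A) {w : Ω → ℝ} (hw : Integrable w μ)
    (h0 : ∀ s ∈ A, ∫ x, w x * (s.indicator (fun _ => (1 : ℝ)) x) ∂μ = 0) : w =ᵐ[μ] 0 := by
  refine dens_zero hA hm hw fun s hs => ?_
  rw [← h0 s hs, ← integral_indicator (by rw [hm]; exact MeasurableSpace.measurableSet_generateFrom hs)]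
  refine integral_congr_ae (Eventually.of_forall fun x => ?_)
  by_cases hx : x ∈ s <;> simp [hx]

/-- A countable class of bounded functions whose span is dense in `L²`. -/
theorem dens0 [MeasurableSpace.CountablyGenerated Ω] (μ : Measure Ω) [IsProbabilityMeasure μ] :
    ∃ H : Set (Ω → ℝ), H.Countable ∧ (∀ h ∈ H, Measurable h ∧ ∀ x, |h x| ≤ 1) ∧
      ∀ f : Ω → ℝ, MemLp f 2 μ → ∀ ε : ℝ, 0 < ε → ∃ (n : ℕ) (r : Fin n → ℝ) (h : Fin n → Ω → ℝ),
        (∀ i, h i ∈ H) ∧ ∫ x, (f x - ∑ i, r i * h i x) ^ 2 ∂μ ≤ ε := by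
  obtain ⟨A, hAc, hA, hm⟩ := dens_alg Ω
  have hAm : ∀ s ∈ A, MeasurableSet s := by
    intro s hs
    rw [hm]
    exact MeasurableSpace.measurableSet_generateFrom hs
  set H : Set (Ω → ℝ) := (fun s : Set Ω => s.indicator (fun _ => (1 : ℝ))) '' A with hH
  have hH1 : ∀ h ∈ H, Measurable h ∧ ∀ x, |h x| ≤ 1 := by
    rintro h ⟨s, hs, rfl⟩
    refine ⟨measurable_const.indicator (hAm s hs), fun x => ?_⟩
    by_cases hx : x ∈ s <;> simp [hx]
  refine ⟨H, hAc.image _, hH1, fun f hf ε hε => ?_⟩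
  obtain ⟨n, r, c, g, h1, h2, h3, h4, h5⟩ := dens_orth H hH1 f hf ε hε
  refine ⟨n, r, c, h1, ?_⟩
  have h6 : g =ᵐ[μ] 0 := by
    refine dens_ind_zero hA hm (h3.integrable (by norm_num)) fun s hs => ?_
    exact h4 _ ⟨s, hs, rfl⟩
  refine le_trans (le_of_eq (integral_congr_ae ?_)) h5
  filter_upwards [h6] with x hx
  rw [hx]
  simp

/-- The average of `k` along the flow over `[0,δ]`, multiplied by `1/2`. -/
private noncomputable def dens_h (φ : ℝ → Ω → Ω) (k : Ω → ℝ) (δ : ℝ) (x : Ω) : ℝ :=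
  (2 * δ)⁻¹ * ∫ r in (0 : ℝ)..δ, k (φ r x)

private theorem dens_int (hφ : IsFlow μ φ) {k : Ω → ℝ} (hk : Measurable k)
    (hb : ∀ x, |k x| ≤ 1) (x : Ω) (a b : ℝ) :
    IntervalIntegrable (fun r => k (φ r x)) volume a b := by
  have hm : Measurable (fun r => k (φ r x)) := hφ.meas_comp hk measurable_id measurable_const
  refine (intervalIntegrable_const (c := (1 : ℝ))).mono_fun hm.aestronglyMeasurable ?_
  filter_upwards with y
  simpa using hb _

omit [MeasurableSpace Ω] in
private theorem dens_bd {k : Ω → ℝ}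
    (hb : ∀ x, |k x| ≤ 1) (x : Ω) (a b : ℝ) :
    |∫ r in a..b, k (φ r x)| ≤ |b - a| := by
  have := intervalIntegral.norm_integral_le_of_norm_le_const (a := a) (b := b) (C := 1)
    (f := fun r => k (φ r x)) (fun r _ => by simpa using hb _)
  simpa using this

private theorem dens_h_meas (hφ : IsFlow μ φ) {k : Ω → ℝ} (hk : Measurable k) {δ : ℝ}
    (hδ : 0 < δ) : Measurable (dens_h φ k δ) := by
  unfold dens_h
  refine Measurable.const_mul ?_ _
  simp only [intervalIntegral.integral_of_le hδ.le]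
  have hm : Measurable (fun z : Ω × ℝ => k (φ z.2 z.1)) :=
    hφ.meas_comp hk measurable_snd measurable_fst
  exact (hm.stronglyMeasurable.integral_prod_right').measurable

private theorem dens_h_bd (_hφ : IsFlow μ φ) {k : Ω → ℝ} (_hk : Measurable k)
    (hb : ∀ x, |k x| ≤ 1) {δ : ℝ} (hδ : 0 < δ) (x : Ω) : |dens_h φ k δ x| ≤ 1 / 2 := by
  unfold dens_h
  rw [abs_mul, abs_of_pos (by positivity : (0 : ℝ) < (2 * δ)⁻¹)]
  have h1 := dens_bd (φ := φ) hb x 0 δ
  rw [sub_zero, abs_of_pos hδ] at h1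
  calc (2 * δ)⁻¹ * |∫ r in (0 : ℝ)..δ, k (φ r x)| ≤ (2 * δ)⁻¹ * δ :=
        mul_le_mul_of_nonneg_left h1 (by positivity)
    _ = 1 / 2 := by field_simp

private theorem dens_h_comp (hφ : IsFlow μ φ) (k : Ω → ℝ) (δ t : ℝ) (x : Ω) :
    dens_h φ k δ (φ t x) = (2 * δ)⁻¹ * ∫ r in t..(δ + t), k (φ r x) := by
  unfold dens_h
  congr 1
  have h1 : ∀ r, k (φ r (φ t x)) = k (φ (r + t) x) := fun r => by rw [hφ.add]
  simp_rw [h1]
  rw [intervalIntegral.integral_comp_add_right (fun r => k (φ r x)) t, zero_add]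

private theorem dens_h_lip (hφ : IsFlow μ φ) {k : Ω → ℝ} (hk : Measurable k)
    (hb : ∀ x, |k x| ≤ 1) {δ : ℝ} (hδ : 0 < δ) : LipT φ (dens_h φ k δ) δ⁻¹ := by
  intro t x
  rw [dens_h_comp hφ]
  unfold dens_h
  rw [← mul_sub, intervalIntegral.integral_interval_sub_interval_comm (dens_int hφ hk hb x _ _)
      (dens_int hφ hk hb x _ _) (dens_int hφ hk hb x _ _), abs_mul,
      abs_of_pos (by positivity : (0 : ℝ) < (2 * δ)⁻¹)]
  have h1 := dens_bd (φ := φ) hb x t 0
  have h2 := dens_bd (φ := φ) hb x (δ + t) δ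
  have r1 : |0 - t| = |t| := by rw [zero_sub, abs_neg]
  have r2 : |δ - (δ + t)| = |t| := by rw [sub_add_cancel_left, abs_neg]
  rw [r1] at h1
  rw [r2] at h2
  calc (2 * δ)⁻¹ * |(∫ r in t..0, k (φ r x)) - ∫ r in (δ + t)..δ, k (φ r x)|
      ≤ (2 * δ)⁻¹ * (|t| + |t|) := by
        refine mul_le_mul_of_nonneg_left ?_ (by positivity)
        exact (abs_sub _ _).trans (by linarith)
    _ = δ⁻¹ * |t| := by field_simp; ring

/-- The correlation of `g` with `k` along the flow. -/
private noncomputable def dens_E (μ : Measure Ω) (φ : ℝ → Ω → Ω) (g k : Ω → ℝ) (r : ℝ) : ℝ :=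
  ∫ x, g x * k (φ r x) ∂μ

private theorem dens_E_meas [IsProbabilityMeasure μ] (hφ : IsFlow μ φ) {g k : Ω → ℝ}
    (hg : Measurable g) (hk : Measurable k) : Measurable (dens_E μ φ g k) := by
  have hm : Measurable (fun z : ℝ × Ω => g z.2 * k (φ z.1 z.2)) :=
    (hg.comp measurable_snd).mul (hφ.meas_comp hk measurable_fst measurable_snd)
  exact (hm.stronglyMeasurable.integral_prod_right').measurable

private theorem dens_E_bd {g k : Ω → ℝ}
    (hgi : Integrable g μ) (hb : ∀ x, |k x| ≤ 1) (r : ℝ) :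
    |dens_E μ φ g k r| ≤ ∫ x, |g x| ∂μ := by
  unfold dens_E
  refine (abs_integral_le_integral_abs).trans ?_
  refine integral_mono_of_nonneg (Eventually.of_forall fun x => abs_nonneg _) hgi.abs
    (Eventually.of_forall fun x => ?_)
  simp only [abs_mul]
  exact mul_le_of_le_one_right (abs_nonneg _) (hb _)

private theorem dens_E_int [IsProbabilityMeasure μ] (hφ : IsFlow μ φ) {g k : Ω → ℝ}
    (hg : Measurable g) (hgi : Integrable g μ) (hk : Measurable k) (hb : ∀ x, |k x| ≤ 1)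
    (a b : ℝ) : IntervalIntegrable (dens_E μ φ g k) volume a b := by
  refine (intervalIntegrable_const (c := ∫ x, |g x| ∂μ)).mono_fun
    (dens_E_meas hφ hg hk).aestronglyMeasurable ?_
  filter_upwards with y
  rw [Real.norm_eq_abs, Real.norm_eq_abs]
  exact (dens_E_bd hgi hb y).trans (le_abs_self _)

private theorem dens_fub [IsProbabilityMeasure μ] (hφ : IsFlow μ φ) {g k : Ω → ℝ}
    (hg : Measurable g) (hgi : Integrable g μ) (hk : Measurable k) (hb : ∀ x, |k x| ≤ 1)
    (a b : ℝ) (hab : a ≤ b) :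
    ∫ x, g x * (∫ r in a..b, k (φ r x)) ∂μ = ∫ r in a..b, dens_E μ φ g k r := by
  unfold dens_E
  simp only [intervalIntegral.integral_of_le hab, ← integral_const_mul]
  refine integral_integral_swap ?_
  have hm : Measurable (fun z : Ω × ℝ => g z.1 * k (φ z.2 z.1)) :=
    (hg.comp measurable_fst).mul (hφ.meas_comp hk measurable_snd measurable_fst)
  refine Integrable.mono (g := fun z : Ω × ℝ => g z.1) ?_ hm.aestronglyMeasurable ?_
  · exact hgi.comp_fst _
  · filter_upwards with z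
    simp only [Function.uncurry, norm_mul]
    exact mul_le_of_le_one_right (norm_nonneg _) (by simpa using hb _)

/-- The orthogonality to the coboundaries makes the primitive of the correlation additive. -/
private theorem dens_add [IsProbabilityMeasure μ] (hφ : IsFlow μ φ) {g k : Ω → ℝ}
    (hg : Measurable g) (hgi : Integrable g μ) (hk : Measurable k) (hb : ∀ x, |k x| ≤ 1)
    (δ s : ℝ) (hδ : 0 < δ)
    (h0 : ∫ x, g x * (dens_h φ k δ x - dens_h φ k δ (φ s x)) ∂μ = 0) :
    (∫ r in (0 : ℝ)..(δ + s), dens_E μ φ g k r)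
      = (∫ r in (0 : ℝ)..δ, dens_E μ φ g k r) + ∫ r in (0 : ℝ)..s, dens_E μ φ g k r := by
  have hi : ∀ a b, IntervalIntegrable (dens_E μ φ g k) volume a b :=
    fun a b => dens_E_int hφ hg hgi hk hb a b
  have hhm : Measurable (dens_h φ k δ) := dens_h_meas hφ hk hδ
  have hint : ∀ t : ℝ, Integrable (fun x => g x * dens_h φ k δ (φ t x)) μ := by
    intro t
    have hm : Measurable (fun x => g x * dens_h φ k δ (φ t x)) :=
      hg.mul (hφ.meas_comp hhm measurable_const measurable_id)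
    refine Integrable.mono hgi hm.aestronglyMeasurable ?_
    filter_upwards with x
    rw [norm_mul]
    refine mul_le_of_le_one_right (norm_nonneg _) ?_
    rw [Real.norm_eq_abs]
    linarith [dens_h_bd hφ hk hb hδ (φ t x)]
  have h1 : ∀ t : ℝ, ∫ x, g x * dens_h φ k δ (φ t x) ∂μ
      = (2 * δ)⁻¹ * ∫ r in t..(δ + t), dens_E μ φ g k r := by
    intro t
    rw [← dens_fub hφ hg hgi hk hb t (δ + t) (by linarith), ← integral_const_mul]
    refine integral_congr_ae (Eventually.of_forall fun x => ?_)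
    simp only [dens_h_comp hφ]
    ring
  have h2 : (2 * δ)⁻¹ * (∫ r in (0 : ℝ)..δ, dens_E μ φ g k r)
      - (2 * δ)⁻¹ * (∫ r in s..(δ + s), dens_E μ φ g k r) = 0 := by
    rw [← h1 s]
    have h3 := h1 0
    rw [add_zero] at h3
    rw [← h3, ← integral_sub (hint 0) (hint s)]
    refine Eq.trans (integral_congr_ae (Eventually.of_forall fun x => ?_)) h0
    simp only [hφ.zero]
    ring
  have h4 : (∫ r in (0 : ℝ)..δ, dens_E μ φ g k r) = ∫ r in s..(δ + s), dens_E μ φ g k r := by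
    have : (2 * δ)⁻¹ ≠ 0 := by positivity
    rw [← mul_sub] at h2
    rcases mul_eq_zero.1 h2 with h | h
    · exact absurd h this
    · linarith
  rw [h4, add_comm (∫ r in s..(δ + s), dens_E μ φ g k r),
    intervalIntegral.integral_add_adjacent_intervals (hi _ _) (hi _ _)]

/-- The correlation is almost everywhere constant. -/
private theorem dens_const [IsProbabilityMeasure μ] (hφ : IsFlow μ φ) {g k : Ω → ℝ}
    (hg : Measurable g) (hgi : Integrable g μ) (hk : Measurable k) (hb : ∀ x, |k x| ≤ 1)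
    (h0 : ∀ δ s : ℚ, 0 < δ →
      ∫ x, g x * (dens_h φ k δ x - dens_h φ k δ (φ s x)) ∂μ = 0) :
    ∃ C : ℝ, ∀ᵐ r ∂(volume : Measure ℝ), dens_E μ φ g k r = C := by
  have hi : ∀ a b, IntervalIntegrable (dens_E μ φ g k) volume a b :=
    fun a b => dens_E_int hφ hg hgi hk hb a b
  set P : ℝ → ℝ := fun a => ∫ r in (0 : ℝ)..a, dens_E μ φ g k r with hP
  have hPc : Continuous P := intervalIntegral.continuous_primitive hi 0
  have hadd : ∀ δ : ℚ, 0 < δ → ∀ s : ℝ, P (δ + s) = P δ + P s := by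
    intro δ hδ
    have hcl : IsClosed {s : ℝ | P (δ + s) = P δ + P s} :=
      isClosed_eq (by fun_prop) (by fun_prop)
    have hd : DenseRange ((↑) : ℚ → ℝ) := Rat.denseRange_cast
    have hsub : Set.range ((↑) : ℚ → ℝ) ⊆ {s : ℝ | P (δ + s) = P δ + P s} := by
      rintro _ ⟨s, rfl⟩
      exact dens_add hφ hg hgi hk hb δ s (by exact_mod_cast hδ) (h0 δ s hδ)
    intro s
    have := hcl.closure_subset_iff.2 hsub (hd s)
    exact this
  have hadd2 : ∀ s : ℝ, ∀ δ : ℝ, P (δ + s) = P δ + P s := by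
    intro s
    have hP0 : P 0 = 0 := by simp [hP]
    have hq : ∀ δ : ℚ, P (δ + s) = P δ + P s := by
      intro δ
      rcases lt_trichotomy δ 0 with h | h | h
      · have h1 := hadd (-δ) (by linarith) (δ + s)
        have h2 := hadd (-δ) (by linarith) δ
        push_cast at h1 h2
        rw [neg_add_cancel_left] at h1
        rw [neg_add_cancel, hP0] at h2
        linarith
      · subst h
        simp [hP0]
      · exact hadd δ h s
    have hcl : IsClosed {δ : ℝ | P (δ + s) = P δ + P s} :=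
      isClosed_eq (by fun_prop) (by fun_prop)
    have hd : DenseRange ((↑) : ℚ → ℝ) := Rat.denseRange_cast
    have hsub : Set.range ((↑) : ℚ → ℝ) ⊆ {δ : ℝ | P (δ + s) = P δ + P s} := by
      rintro _ ⟨δ, rfl⟩
      exact hq δ
    intro δ
    exact hcl.closure_subset_iff.2 hsub (hd δ)
  set L : ℝ →+ ℝ := ⟨⟨P, by simp [hP]⟩, fun a b => hadd2 b a⟩ with hL
  have hlin : ∀ a, P a = a * P 1 := by
    intro a
    have := map_real_smul L hPc a 1
    simpa [hL] using this
  refine ⟨P 1, ?_⟩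
  have hloc : LocallyIntegrable (dens_E μ φ g k) volume := by
    rw [locallyIntegrable_iff]
    intro K hK
    obtain ⟨a, b, hab⟩ : ∃ a b : ℝ, K ⊆ Icc a b := by
      obtain ⟨R, hR⟩ := hK.isBounded.subset_closedBall 0
      exact ⟨-R, R, by simpa [Real.closedBall_eq_Icc] using hR⟩
    refine IntegrableOn.mono_set ?_ hab
    rcases le_or_gt a b with h | h
    · rw [integrableOn_Icc_iff_integrableOn_Ioc]
      exact (intervalIntegrable_iff_integrableOn_Ioc_of_le h).1 (hi a b)
    · rw [Icc_eq_empty (not_le.2 h)]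
      exact integrableOn_empty
  have hder := _root_.LocallyIntegrable.ae_hasDerivAt_integral hloc
  filter_upwards [hder] with r hr
  have h1 := hr 0
  have h2 : HasDerivAt P (P 1) r := by
    have : P = fun a => a * P 1 := funext hlin
    rw [this]
    simpa using (hasDerivAt_id r).mul_const (P 1)
  exact h1.unique h2

/-- Orthogonal decomposition of `L²` into the invariant functions and the closed span of a
countable class of coboundaries `h - h ∘ φ s`, `h = ∫_0^δ k ∘ φ r dr` with `k` in a countable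
class, `δ`, `s` rational.
Sketch: let `g` be orthogonal to all of them. (1) For all `s` rational, all `δ` rational and all
`k ∈ H`, `∫_0^δ ⟪g - g ∘ φ (-s), k ∘ φ r⟫ dr = 0`, so (continuity of the primitive) for almost all
`r > 0` simultaneously for `k ∈ H` the inner product vanishes, hence `g = g ∘ φ (-s)` a.e.
(2) `h` is Lipschitz along the flow, so (1) holds for all real `s`. -/
theorem dens [MeasurableSpace.CountablyGenerated Ω] [IsProbabilityMeasure μ] (hφ : IsFlow μ φ) :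
    ∃ H : Set (Ω → ℝ), H.Countable ∧ (∀ c ∈ H, Cls μ φ c) ∧
      ∀ f : Ω → ℝ, MemLp f 2 μ → ∀ ε : ℝ, 0 < ε →
        ∃ (n : ℕ) (r : Fin n → ℝ) (c : Fin n → Ω → ℝ) (g : Ω → ℝ),
          (∀ i, c i ∈ H) ∧ Measurable g ∧ MemLp g 2 μ ∧ (∀ t, (fun x => g (φ t x)) =ᵐ[μ] g) ∧
          ∫ x, (f x - ∑ i, r i * c i x - g x) ^ 2 ∂μ ≤ ε := by
  obtain ⟨A, hAc, hA, hm⟩ := dens_alg Ω
  have hAm : ∀ s ∈ A, MeasurableSet s := by
    intro s hs
    rw [hm]
    exact MeasurableSpace.measurableSet_generateFrom hs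
  have hk1 : ∀ s ∈ A, Measurable (s.indicator (fun _ => (1 : ℝ))) :=
    fun s hs => measurable_const.indicator (hAm s hs)
  have hk2 : ∀ (s : Set Ω) (x : Ω), |s.indicator (fun _ => (1 : ℝ)) x| ≤ 1 := by
    intro s x
    by_cases hx : x ∈ s <;> simp [hx]
  set J : Set (Set Ω × ℚ × ℚ) := {z | z.1 ∈ A ∧ 0 < z.2.1} with hJ
  have hJc : J.Countable := by
    have : J ⊆ A ×ˢ (Set.univ : Set (ℚ × ℚ)) := fun z hz => ⟨hz.1, mem_univ _⟩
    exact (hAc.prod (Set.to_countable _)).mono this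
  set co : Set Ω × ℚ × ℚ → Ω → ℝ := fun z x =>
    dens_h φ (z.1.indicator (fun _ => (1 : ℝ))) (z.2.1 : ℝ) x
      - dens_h φ (z.1.indicator (fun _ => (1 : ℝ))) (z.2.1 : ℝ) (φ (z.2.2 : ℝ) x) with hco
  have hcls : ∀ c ∈ co '' J, Cls μ φ c := by
    rintro c ⟨z, hz, rfl⟩
    have hδ : (0 : ℝ) < (z.2.1 : ℝ) := by exact_mod_cast hz.2
    exact cob_cls hφ (dens_h_meas hφ (hk1 _ hz.1) hδ)
      (dens_h_bd hφ (hk1 _ hz.1) (hk2 _) hδ) (dens_h_lip hφ (hk1 _ hz.1) (hk2 _) hδ) _
  refine ⟨co '' J, hJc.image _, hcls, fun f hf ε hε => ?_⟩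
  obtain ⟨n, r, c, g, h1, h2, h3, h4, h5⟩ := dens_orth (co '' J)
    (fun c hc => ⟨(hcls c hc).meas, (hcls c hc).bd⟩) f hf ε hε
  refine ⟨n, r, c, g, h1, h2, h3, ?_, h5⟩
  have hgi : Integrable g μ := h3.integrable (by norm_num)
  -- the correlations are constant almost everywhere
  have h6 : ∀ s ∈ A, ∃ C : ℝ, ∀ᵐ r ∂(volume : Measure ℝ),
      dens_E μ φ g (s.indicator (fun _ => (1 : ℝ))) r = C := by
    intro s hs
    refine dens_const hφ h2 hgi (hk1 s hs) (hk2 s) fun δ s' hδ => ?_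
    exact h4 _ ⟨(s, δ, s'), ⟨hs, hδ⟩, rfl⟩
  have h7 : ∀ s : Set Ω, ∃ C : ℝ, s ∈ A → ∀ᵐ r ∂(volume : Measure ℝ),
      dens_E μ φ g (s.indicator (fun _ => (1 : ℝ))) r = C := by
    intro s
    by_cases hs : s ∈ A
    · obtain ⟨C, hC⟩ := h6 s hs
      exact ⟨C, fun _ => hC⟩
    · exact ⟨0, fun h => absurd h hs⟩
  choose C hC using h7
  have h8 : ∀ᵐ r ∂(volume : Measure ℝ), ∀ s ∈ A,
      dens_E μ φ g (s.indicator (fun _ => (1 : ℝ))) r = C s :=
    (ae_ball_iff hAc).2 fun s hs => hC s hs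
  have hcomp : ∀ t : ℝ, Integrable (fun x => g (φ t x)) μ := fun t =>
    (hφ.mp t).integrable_comp_of_integrable hgi
  have hE : ∀ (k : Ω → ℝ) (r : ℝ), Measurable k →
      dens_E μ φ g k r = ∫ x, g (φ (-r) x) * k x ∂μ := by
    intro k r hk
    unfold dens_E
    have h9 := (hφ.mp (-r)).integral_comp' (f := ⟨hφ.perm (-r), ?_, ?_⟩)
      (fun x => g x * k (φ r x))
    · rw [← h9]
      refine integral_congr_ae (Eventually.of_forall fun x => ?_)
      change g (φ (-r) x) * k (φ r (φ (-r) x)) = _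
      rw [hφ.neg_right]
    · exact (hφ.mp (-r)).measurable
    · exact (hφ.mp (- -r)).measurable
  intro t
  -- choose `r` with `r` and `r - t` outside the exceptional set
  have h10 : ∀ᵐ r ∂(volume : Measure ℝ), ∀ s ∈ A,
      dens_E μ φ g (s.indicator (fun _ => (1 : ℝ))) (r + t) = C s := by
    have := (measurePreserving_add_right (volume : Measure ℝ) t).quasiMeasurePreserving.ae h8
    exact this
  obtain ⟨r', hr1, hr2⟩ := (h8.and h10).exists
  have h11 : (fun x => g (φ (-r') x) - g (φ (-(r' + t)) x)) =ᵐ[μ] 0 := by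
    refine dens_ind_zero hA hm ((hcomp _).sub (hcomp _)) fun s hs => ?_
    have e1 := hr1 s hs
    have e2 := hr2 s hs
    rw [hE _ _ (hk1 s hs)] at e1 e2
    have hI : ∀ t : ℝ, Integrable (fun x => g (φ t x) * s.indicator (fun _ => (1 : ℝ)) x) μ := by
      intro t
      refine Integrable.mono (hcomp t) ((hcomp t).aestronglyMeasurable.mul
        (hk1 s hs).aestronglyMeasurable) ?_
      filter_upwards with x
      rw [norm_mul]
      exact mul_le_of_le_one_right (norm_nonneg _) (by simpa using hk2 s x)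
    have e3 : ∫ x, (g (φ (-r') x) - g (φ (-(r' + t)) x)) * s.indicator (fun _ => (1 : ℝ)) x ∂μ
        = (∫ x, g (φ (-r') x) * s.indicator (fun _ => (1 : ℝ)) x ∂μ)
          - ∫ x, g (φ (-(r' + t)) x) * s.indicator (fun _ => (1 : ℝ)) x ∂μ := by
      rw [← integral_sub (hI _) (hI _)]
      refine integral_congr_ae (Eventually.of_forall fun x => ?_)
      simp only
      ring
    rw [e3, e1, e2, sub_self]
  have h12 := (hφ.mp (r' + t)).quasiMeasurePreserving.ae h11
  filter_upwards [h12] with x hx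
  simp only [Pi.zero_apply] at hx
  rw [← hφ.add, ← hφ.add] at hx
  have r1 : -r' + (r' + t) = t := by ring
  have r2 : -(r' + t) + (r' + t) = 0 := by ring
  rw [r1, r2, hφ.zero] at hx
  linarith

end Pool.AET
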