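import Mathlib

/-!
# The dimension of an exceptional set, from Lipschitz functions of small integral
-/

set_option autoImplicit false

open MeasureTheory Set Filter Topology

namespace Pool.AET

/-- The cells of side `1/n` of the unit box with corner `k`. -/
private def Dim_cell {D : ℕ} (k : Fin D → ℤ) (n : ℕ) (c : Fin D → Fin n) : Set (Fin D → ℝ) :=
  Set.pi univ (fun j => Ico ((k j : ℝ) + ((c j : ℕ) : ℝ) / (n : ℝ))
    ((k j : ℝ) + (((c j : ℕ) : ℝ) + 1) / (n : ℝ)))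

private theorem Dim_mem {D : ℕ} {k : Fin D → ℤ} {n : ℕ} {c : Fin D → Fin n} {t : Fin D → ℝ} :
    t ∈ Dim_cell k n c ↔ ∀ j, (k j : ℝ) + ((c j : ℕ) : ℝ) / (n : ℝ) ≤ t j ∧
      t j < (k j : ℝ) + (((c j : ℕ) : ℝ) + 1) / (n : ℝ) := by
  unfold Dim_cell
  simp [Set.mem_pi]

private theorem Dim_meas {D : ℕ} (k : Fin D → ℤ) (n : ℕ) (c : Fin D → Fin n) :
    MeasurableSet (Dim_cell k n c) :=
  MeasurableSet.pi countable_univ (fun _ _ => measurableSet_Ico)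

private theorem Dim_vol {D : ℕ} (k : Fin D → ℤ) (n : ℕ) (hn : 1 ≤ n) (c : Fin D → Fin n) :
    volume.real (Dim_cell k n c) = (1 / (n : ℝ)) ^ D := by
  have hn' : (0 : ℝ) < n := by exact_mod_cast hn
  unfold Dim_cell Measure.real
  rw [Real.volume_pi_Ico_toReal]
  · have : ∀ j : Fin D, ((k j : ℝ) + (((c j : ℕ) : ℝ) + 1) / (n : ℝ)) -
        ((k j : ℝ) + ((c j : ℕ) : ℝ) / (n : ℝ)) = 1 / (n : ℝ) := by
      intro j
      field_simp
      ring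
    rw [Finset.prod_congr rfl (fun j _ => this j)]
    simp
  · intro j
    have : ((c j : ℕ) : ℝ) / (n : ℝ) ≤ (((c j : ℕ) : ℝ) + 1) / (n : ℝ) := by
      apply div_le_div_of_nonneg_right _ hn'.le
      linarith
    simpa using this

private theorem Dim_ne_top {D : ℕ} (k : Fin D → ℤ) (n : ℕ) (c : Fin D → Fin n) :
    volume (Dim_cell k n c) ≠ ⊤ := by
  unfold Dim_cell
  rw [Real.volume_pi_Ico]
  exact ENNReal.prod_ne_top (fun _ _ => ENNReal.ofReal_ne_top)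

private theorem Dim_sub {D : ℕ} (k : Fin D → ℤ) (n : ℕ) (hn : 1 ≤ n) (c : Fin D → Fin n) :
    Dim_cell k n c ⊆ Icc (fun j => (k j : ℝ)) (fun j => (k j : ℝ) + 1) := by
  have hn' : (0 : ℝ) < n := by exact_mod_cast hn
  intro t ht
  rw [Dim_mem] at ht
  constructor
  · intro j
    have h0 : (0 : ℝ) ≤ ((c j : ℕ) : ℝ) / (n : ℝ) := by positivity
    have := (ht j).1
    show (k j : ℝ) ≤ t j
    linarith
  · intro j
    have h1 : (((c j : ℕ) : ℝ) + 1) / (n : ℝ) ≤ 1 := by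
      rw [div_le_one hn']
      have := (c j).isLt
      exact_mod_cast this
    have := (ht j).2
    show t j ≤ (k j : ℝ) + 1
    linarith

private theorem Dim_disj {D : ℕ} (k : Fin D → ℤ) (n : ℕ) (hn : 1 ≤ n) :
    Pairwise (fun c c' : Fin D → Fin n => Disjoint (Dim_cell k n c) (Dim_cell k n c')) := by
  have hn' : (0 : ℝ) < n := by exact_mod_cast hn
  intro c c' hcc
  rw [Set.disjoint_left]
  intro t ht ht'
  rw [Dim_mem] at ht ht'
  apply hcc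
  funext j
  apply Fin.ext
  have key : ∀ a b : ℕ, (k j : ℝ) + (a : ℝ) / (n : ℝ) ≤ t j →
      t j < (k j : ℝ) + ((b : ℝ) + 1) / (n : ℝ) → a ≤ b := by
    intro a b h1 h2
    have h3 : (a : ℝ) / (n : ℝ) < ((b : ℝ) + 1) / (n : ℝ) := by linarith
    rw [div_lt_div_iff_of_pos_right hn'] at h3
    have : a < b + 1 := by exact_mod_cast h3
    omega
  exact le_antisymm (key _ _ (ht j).1 (ht' j).2) (key _ _ (ht' j).1 (ht j).2)

private theorem Dim_diam {D : ℕ} (k : Fin D → ℤ) (n : ℕ) (hn : 1 ≤ n) (c : Fin D → Fin n) :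
    Metric.ediam (Dim_cell k n c) ≤ ENNReal.ofReal (1 / (n : ℝ)) := by
  have hn' : (0 : ℝ) < n := by exact_mod_cast hn
  unfold Dim_cell
  apply Metric.ediam_pi_le_of_le
  intro j
  rw [Real.ediam_Ico]
  apply ENNReal.ofReal_le_ofReal
  apply le_of_eq
  field_simp
  ring

private theorem Dim_norm {D : ℕ} (k : Fin D → ℤ) (n : ℕ) (hn : 1 ≤ n) (c : Fin D → Fin n)
    {t t' : Fin D → ℝ} (ht : t ∈ Dim_cell k n c) (ht' : t' ∈ Dim_cell k n c) :
    ‖t - t'‖ ≤ 1 / (n : ℝ) := by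
  have hn' : (0 : ℝ) < n := by exact_mod_cast hn
  rw [Dim_mem] at ht ht'
  rw [pi_norm_le_iff_of_nonneg (by positivity)]
  intro j
  have h1 := ht j
  have h2 := ht' j
  have h3 : (((c j : ℕ) : ℝ) + 1) / (n : ℝ) = ((c j : ℕ) : ℝ) / (n : ℝ) + 1 / (n : ℝ) := by
    field_simp
  rw [h3] at h1 h2
  rw [Real.norm_eq_abs, abs_le, Pi.sub_apply]
  constructor <;> linarith [h1.1, h1.2, h2.1, h2.2]

private theorem Dim_cover {D : ℕ} (k : Fin D → ℤ) (n : ℕ) (hn : 1 ≤ n) (t : Fin D → ℝ)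
    (ht : ∀ j, (k j : ℝ) ≤ t j ∧ t j < (k j : ℝ) + 1) : ∃ c, t ∈ Dim_cell k n c := by
  have hn' : (0 : ℝ) < n := by exact_mod_cast hn
  have hlt : ∀ j, ⌊(t j - k j) * n⌋₊ < n := by
    intro j
    rw [Nat.floor_lt (mul_nonneg (by linarith [(ht j).1]) hn'.le)]
    nlinarith [(ht j).2]
  refine ⟨fun j => ⟨⌊(t j - k j) * n⌋₊, hlt j⟩, ?_⟩
  rw [Dim_mem]
  intro j
  have h0 : 0 ≤ (t j - k j) * n := mul_nonneg (by linarith [(ht j).1]) hn'.le
  have h1 := Nat.floor_le h0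
  have h2 := Nat.lt_floor_add_one ((t j - k j) * n)
  constructor
  · have : ((⌊(t j - k j) * n⌋₊ : ℕ) : ℝ) / (n : ℝ) ≤ t j - k j := by
      rw [div_le_iff₀ hn']
      exact h1
    show (k j : ℝ) + ((⌊(t j - k j) * n⌋₊ : ℕ) : ℝ) / (n : ℝ) ≤ t j
    linarith
  · have : t j - k j < (((⌊(t j - k j) * n⌋₊ : ℕ) : ℝ) + 1) / (n : ℝ) := by
      rw [lt_div_iff₀ hn']
      exact h2
    show t j < (k j : ℝ) + (((⌊(t j - k j) * n⌋₊ : ℕ) : ℝ) + 1) / (n : ℝ)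
    linarith

private theorem Dim_count {D : ℕ} (k : Fin D → ℤ) (n : ℕ) (hn : 1 ≤ n) (g : (Fin D → ℝ) → ℝ)
    (hg : Continuous g) (hg0 : ∀ t, 0 ≤ g t) (δ : ℝ) (bad : Finset (Fin D → Fin n))
    (hbad : ∀ c ∈ bad, ∀ t ∈ Dim_cell k n c, δ ≤ g t) :
    (bad.card : ℝ) * (δ * (1 / (n : ℝ)) ^ D)
      ≤ ∫ t in Icc (fun j => (k j : ℝ)) (fun j => (k j : ℝ) + 1), g t := by
  have hint : IntegrableOn g (Icc (fun j => (k j : ℝ)) (fun j => (k j : ℝ) + 1)) :=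
    hg.continuousOn.integrableOn_compact isCompact_Icc
  have h1 : ∫ t in ⋃ c ∈ bad, Dim_cell k n c, g t
      ≤ ∫ t in Icc (fun j => (k j : ℝ)) (fun j => (k j : ℝ) + 1), g t := by
    apply setIntegral_mono_set hint
    · exact Eventually.of_forall (fun t => hg0 t)
    · exact Eventually.of_forall
        (fun x hx => Set.iUnion₂_subset (fun c _ => Dim_sub k n hn c) hx)
  refine le_trans ?_ h1
  rw [integral_biUnion_finset bad (fun c _ => Dim_meas k n c)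
    (fun c _ c' _ hcc => Dim_disj k n hn hcc)
    (fun c _ => hint.mono_set (Dim_sub k n hn c))]
  rw [← nsmul_eq_mul]
  apply Finset.card_nsmul_le_sum
  intro c hc
  rw [← Dim_vol k n hn c]
  exact setIntegral_ge_of_const_le_real (Dim_meas k n c) (Dim_ne_top k n c) (hbad c hc)
    (hint.mono_set (Dim_sub k n hn c))

private theorem Dim_summable (K : ℝ) (hK : 0 ≤ K) :
    ∑' r : ℕ, ENNReal.ofReal (K * ((r : ℝ) + 1) ^ (-(3 / 2) : ℝ)) ≠ ⊤ := by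
  have h : Summable (fun r : ℕ => K * ((r : ℝ) + 1) ^ (-(3 / 2) : ℝ)) := by
    apply Summable.mul_left
    have := (summable_nat_add_iff 1).mpr
      ((Real.summable_nat_rpow (p := -(3 / 2))).mpr (by norm_num))
    simpa using this
  rw [← ENNReal.ofReal_tsum_of_nonneg (fun r => by positivity) h]
  exact ENNReal.ofReal_ne_top

private theorem Dim_real (d A : ℕ) (C' B : ℝ) (hC' : 1 ≤ C') (hB : 0 ≤ B) (r n : ℕ) (hn : 1 ≤ n)
    (hn2 : (n : ℝ) ≤ 3 * C' * ((r : ℝ) + 1) ^ (A + 2)) (m : ℝ)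
    (hm : m ≤ 2 * B * (n : ℝ) ^ (d + 1) / ((r : ℝ) + 1) ^ 2) :
    m * (1 / (n : ℝ)) ^ ((d : ℝ) + 1 - 1 / (2 * A + 4)) ≤
      2 * B * (3 * C') ^ ((1 : ℝ) / (2 * A + 4)) * ((r : ℝ) + 1) ^ (-(3 / 2) : ℝ) := by
  have hn' : (0 : ℝ) < n := by exact_mod_cast hn
  have hr : (0 : ℝ) < (r : ℝ) + 1 := by positivity
  have hA : (0 : ℝ) < 2 * (A : ℝ) + 4 := by positivity
  have h1 : (1 / (n : ℝ)) ^ ((d : ℝ) + 1 - 1 / (2 * A + 4))
      = (n : ℝ) ^ ((1 : ℝ) / (2 * A + 4)) / (n : ℝ) ^ (d + 1) := by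
    rw [one_div, Real.inv_rpow hn'.le, ← Real.rpow_neg hn'.le,
      show -((d : ℝ) + 1 - 1 / (2 * A + 4)) = 1 / (2 * A + 4) - ((d : ℝ) + 1) by ring,
      Real.rpow_sub hn']
    congr 1
    have : ((d : ℝ) + 1) = ((d + 1 : ℕ) : ℝ) := by push_cast; ring
    rw [this, Real.rpow_natCast]
  have h2 : (n : ℝ) ^ ((1 : ℝ) / (2 * A + 4)) ≤
      (3 * C') ^ ((1 : ℝ) / (2 * A + 4)) * ((r : ℝ) + 1) ^ ((1 : ℝ) / 2) := by
    calc (n : ℝ) ^ ((1 : ℝ) / (2 * A + 4))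
        ≤ (3 * C' * ((r : ℝ) + 1) ^ (A + 2)) ^ ((1 : ℝ) / (2 * A + 4)) :=
          Real.rpow_le_rpow hn'.le hn2 (by positivity)
      _ = (3 * C') ^ ((1 : ℝ) / (2 * A + 4)) * ((r : ℝ) + 1) ^ ((1 : ℝ) / 2) := by
          rw [Real.mul_rpow (by positivity) (by positivity), ← Real.rpow_natCast,
            ← Real.rpow_mul hr.le]
          congr 2
          push_cast
          field_simp
          ring
  rw [h1]
  have h3 : 0 ≤ (n : ℝ) ^ ((1 : ℝ) / (2 * A + 4)) / (n : ℝ) ^ (d + 1) := by positivity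
  calc m * ((n : ℝ) ^ ((1 : ℝ) / (2 * A + 4)) / (n : ℝ) ^ (d + 1))
      ≤ (2 * B * (n : ℝ) ^ (d + 1) / ((r : ℝ) + 1) ^ 2) *
          ((n : ℝ) ^ ((1 : ℝ) / (2 * A + 4)) / (n : ℝ) ^ (d + 1)) :=
        mul_le_mul_of_nonneg_right hm h3
    _ = 2 * B / ((r : ℝ) + 1) ^ 2 * (n : ℝ) ^ ((1 : ℝ) / (2 * A + 4)) := by
        field_simp
    _ ≤ 2 * B / ((r : ℝ) + 1) ^ 2 *
          ((3 * C') ^ ((1 : ℝ) / (2 * A + 4)) * ((r : ℝ) + 1) ^ ((1 : ℝ) / 2)) :=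
        mul_le_mul_of_nonneg_left h2 (by positivity)
    _ = 2 * B * (3 * C') ^ ((1 : ℝ) / (2 * A + 4)) * ((r : ℝ) + 1) ^ (-(3 / 2) : ℝ) := by
        have h4 : ((r : ℝ) + 1) ^ (-(3 / 2) : ℝ)
            = ((r : ℝ) + 1) ^ ((1 : ℝ) / 2) / ((r : ℝ) + 1) ^ 2 := by
          rw [show (-(3 / 2) : ℝ) = 1 / 2 - 2 by norm_num, Real.rpow_sub hr]
          congr 1
          exact_mod_cast Real.rpow_natCast ((r : ℝ) + 1) 2
        rw [h4]
        ring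

/-- The bound in one box. -/
private theorem Dim_box (d A : ℕ) (G : ℕ → (Fin (d + 1) → ℝ) → ℝ) (hG0 : ∀ r t, 0 ≤ G r t) (C : ℝ)
    (hlip : ∀ r t t', |G r t - G r t'| ≤ C * ((r : ℝ) + 1) ^ A * ‖t - t'‖)
    (k : Fin (d + 1) → ℤ) (B : ℝ) (hint : ∀ r : ℕ,
      ∫ t in Icc (fun j => (k j : ℝ)) (fun j => (k j : ℝ) + 1), G r t ≤ B / ((r : ℝ) + 1) ^ 4) :
    dimH {t | (∀ j, (k j : ℝ) ≤ t j ∧ t j < (k j : ℝ) + 1) ∧
        ¬ ∀ᶠ r : ℕ in atTop, G r t ≤ 1 / ((r : ℝ) + 1) ^ 2}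
      ≤ ENNReal.ofReal ((d : ℝ) + 1 - 1 / (2 * A + 4)) := by
  classical
  set s : ℝ := (d : ℝ) + 1 - 1 / (2 * A + 4) with hs
  have hA : (0 : ℝ) < 2 * (A : ℝ) + 4 := by positivity
  have hs0 : 0 < s := by
    have h1 : (1 : ℝ) / (2 * A + 4) ≤ 1 / 4 := by
      apply one_div_le_one_div_of_le (by norm_num)
      have : (0 : ℝ) ≤ A := Nat.cast_nonneg A
      linarith
    have h2 : (0 : ℝ) ≤ d := Nat.cast_nonneg d
    rw [hs]
    linarith
  have hcoe : ((s.toNNReal : NNReal) : ℝ) = s := Real.coe_toNNReal s hs0.le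
  show _ ≤ ((s.toNNReal : NNReal) : ENNReal)
  apply dimH_le_of_hausdorffMeasure_ne_top
  rw [hcoe]
  -- constants
  set C' : ℝ := max C 1 with hC'
  have hC1 : 1 ≤ C' := le_max_right _ _
  have hC0 : C ≤ C' := le_max_left _ _
  set B' : ℝ := max B 0 with hB'
  have hB0 : 0 ≤ B' := le_max_right _ _
  have hBB : B ≤ B' := le_max_left _ _
  set n : ℕ → ℕ := fun r => ⌈2 * C' * ((r : ℝ) + 1) ^ (A + 2)⌉₊ with hn
  have hr0 : ∀ r : ℕ, (0 : ℝ) < (r : ℝ) + 1 := fun r => by positivity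
  have hr1 : ∀ r : ℕ, (1 : ℝ) ≤ (r : ℝ) + 1 := fun r => by
    have : (0 : ℝ) ≤ r := Nat.cast_nonneg r
    linarith
  have hpow : ∀ r : ℕ, (1 : ℝ) ≤ ((r : ℝ) + 1) ^ (A + 2) := fun r => one_le_pow₀ (hr1 r)
  have hlow : ∀ r : ℕ, 2 * C' * ((r : ℝ) + 1) ^ (A + 2) ≤ (n r : ℝ) := fun r => Nat.le_ceil _
  have hprod : ∀ r : ℕ, (1 : ℝ) ≤ C' * ((r : ℝ) + 1) ^ (A + 2) := fun r => by
    nlinarith [hpow r]
  have hup : ∀ r : ℕ, (n r : ℝ) ≤ 3 * C' * ((r : ℝ) + 1) ^ (A + 2) := fun r => by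
    have h1 := Nat.ceil_lt_add_one (a := 2 * C' * ((r : ℝ) + 1) ^ (A + 2)) (by positivity)
    have h2 := hprod r
    have h3 : (n r : ℝ) < 2 * C' * ((r : ℝ) + 1) ^ (A + 2) + 1 := h1
    nlinarith
  have hn1 : ∀ r : ℕ, 1 ≤ n r := fun r => by
    have h1 := hlow r
    have h2 := hprod r
    have h3 : (1 : ℝ) ≤ (n r : ℝ) := by nlinarith
    exact_mod_cast h3
  have hnpos : ∀ r : ℕ, (0 : ℝ) < (n r : ℝ) := fun r => by
    have := hn1 r
    exact_mod_cast this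
  have hcont : ∀ r, Continuous (G r) := by
    intro r
    have hL : ∀ t t', |G r t - G r t'| ≤ C' * ((r : ℝ) + 1) ^ A * ‖t - t'‖ := fun t t' =>
      (hlip r t t').trans (by
        apply mul_le_mul_of_nonneg_right _ (norm_nonneg _)
        exact mul_le_mul_of_nonneg_right hC0 (by positivity))
    have : LipschitzWith (Real.toNNReal (C' * ((r : ℝ) + 1) ^ A)) (G r) := by
      apply LipschitzWith.of_dist_le_mul
      intro t t'
      rw [Real.dist_eq, dist_eq_norm, Real.coe_toNNReal _ (by positivity)]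
      exact hL t t'
    exact this.continuous
  -- bad cells
  set bad : ∀ r : ℕ, Finset (Fin (d + 1) → Fin (n r)) := fun r =>
    Finset.univ.filter (fun c => ∃ t ∈ Dim_cell k (n r) c, 1 / ((r : ℝ) + 1) ^ 2 < G r t) with hbad
  have hbig : ∀ r, ∀ c ∈ bad r, ∀ t ∈ Dim_cell k (n r) c, 1 / (2 * ((r : ℝ) + 1) ^ 2) ≤ G r t := by
    intro r c hc t ht
    rw [hbad] at hc
    obtain ⟨-, t', ht', hlt⟩ := Finset.mem_filter.mp hc
    have h1 := hlip r t' t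
    have h2 : ‖t' - t‖ ≤ 1 / (n r : ℝ) := Dim_norm k (n r) (hn1 r) c ht' ht
    have h3 : C * ((r : ℝ) + 1) ^ A * ‖t' - t‖ ≤ 1 / (2 * ((r : ℝ) + 1) ^ 2) := by
      calc C * ((r : ℝ) + 1) ^ A * ‖t' - t‖
          ≤ C' * ((r : ℝ) + 1) ^ A * ‖t' - t‖ := by
            apply mul_le_mul_of_nonneg_right _ (norm_nonneg _)
            exact mul_le_mul_of_nonneg_right hC0 (by positivity)
        _ ≤ C' * ((r : ℝ) + 1) ^ A * (1 / (n r : ℝ)) :=
            mul_le_mul_of_nonneg_left h2 (by positivity)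
        _ ≤ 1 / (2 * ((r : ℝ) + 1) ^ 2) := by
            rw [mul_one_div, div_le_div_iff₀ (hnpos r) (by positivity)]
            calc C' * ((r : ℝ) + 1) ^ A * (2 * ((r : ℝ) + 1) ^ 2)
                = 2 * C' * ((r : ℝ) + 1) ^ (A + 2) := by ring
              _ ≤ 1 * (n r : ℝ) := by rw [one_mul]; exact hlow r
    have h4 := (abs_le.mp h1).2
    have h5 : 1 / ((r : ℝ) + 1) ^ 2 = 1 / (2 * ((r : ℝ) + 1) ^ 2) + 1 / (2 * ((r : ℝ) + 1) ^ 2) := by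
      have := hr0 r
      field_simp
      ring
    linarith
  have hcard : ∀ r : ℕ, ((bad r).card : ℝ) ≤
      2 * B' * (n r : ℝ) ^ (d + 1) / ((r : ℝ) + 1) ^ 2 := by
    intro r
    have h1 := Dim_count k (n r) (hn1 r) (G r) (hcont r) (hG0 r) (1 / (2 * ((r : ℝ) + 1) ^ 2))
      (bad r) (hbig r)
    have h2 : ((bad r).card : ℝ) * (1 / (2 * ((r : ℝ) + 1) ^ 2) * (1 / (n r : ℝ)) ^ (d + 1))
        ≤ B' / ((r : ℝ) + 1) ^ 4 :=
      h1.trans ((hint r).trans (div_le_div_of_nonneg_right hBB (by positivity)))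
    have h3 := hnpos r
    have h4 := hr0 r
    rw [le_div_iff₀ (by positivity)]
    have h5 : ((bad r).card : ℝ) * (1 / (2 * ((r : ℝ) + 1) ^ 2) * (1 / (n r : ℝ)) ^ (d + 1))
        = ((bad r).card : ℝ) / (2 * ((r : ℝ) + 1) ^ 2 * (n r : ℝ) ^ (d + 1)) := by
      rw [one_div_pow]
      field_simp
    rw [h5, div_le_div_iff₀ (by positivity) (by positivity)] at h2
    have h6 : ((bad r).card : ℝ) * ((r : ℝ) + 1) ^ 2 * ((r : ℝ) + 1) ^ 2 ≤
        2 * B' * (n r : ℝ) ^ (d + 1) * ((r : ℝ) + 1) ^ 2 := by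
      calc ((bad r).card : ℝ) * ((r : ℝ) + 1) ^ 2 * ((r : ℝ) + 1) ^ 2
          = ((bad r).card : ℝ) * ((r : ℝ) + 1) ^ 4 := by ring
        _ ≤ B' * (2 * ((r : ℝ) + 1) ^ 2 * (n r : ℝ) ^ (d + 1)) := h2
        _ = 2 * B' * (n r : ℝ) ^ (d + 1) * ((r : ℝ) + 1) ^ 2 := by ring
    exact le_of_mul_le_mul_right h6 (by positivity)
  -- the Hausdorff measure
  set K : ℝ := 2 * B' * (3 * C') ^ ((1 : ℝ) / (2 * A + 4)) with hK
  have hK0 : 0 ≤ K := by positivity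
  set tt : ∀ R : ℕ, (Σ r : ℕ, (Fin (d + 1) → Fin (n r))) → Set (Fin (d + 1) → ℝ) := fun R i =>
    if R ≤ i.1 ∧ i.2 ∈ bad i.1 then Dim_cell k (n i.1) i.2 else ∅ with htt
  have hmain := Measure.hausdorffMeasure_le_liminf_tsum (X := Fin (d + 1) → ℝ) s
    {t | (∀ j, (k j : ℝ) ≤ t j ∧ t j < (k j : ℝ) + 1) ∧
        ¬ ∀ᶠ r : ℕ in atTop, G r t ≤ 1 / ((r : ℝ) + 1) ^ 2} (l := (atTop : Filter ℕ))
    (ι := fun _ => Σ r : ℕ, (Fin (d + 1) → Fin (n r)))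
    (fun R => ENNReal.ofReal (1 / ((R : ℝ) + 1)))
    (by
      have h1 : Tendsto (fun R : ℕ => 1 / ((R : ℝ) + 1)) atTop (𝓝 0) :=
        tendsto_one_div_add_atTop_nhds_zero_nat
      have h2 := ENNReal.tendsto_ofReal h1
      simpa using h2)
    tt
    (by
      refine Eventually.of_forall (fun R i => ?_)
      rw [htt]
      dsimp only
      split_ifs with hi
      · refine (Dim_diam k (n i.1) (hn1 i.1) i.2).trans ?_
        apply ENNReal.ofReal_le_ofReal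
        apply one_div_le_one_div_of_le (hr0 R)
        have h1 : (R : ℝ) ≤ (i.1 : ℝ) := by exact_mod_cast hi.1
        have h2 := hlow i.1
        have h3 : ((i.1 : ℝ) + 1) ≤ ((i.1 : ℝ) + 1) ^ (A + 2) :=
          le_self_pow₀ (hr1 i.1) (by omega)
        have h4 : ((i.1 : ℝ) + 1) ^ (A + 2) ≤ 2 * C' * ((i.1 : ℝ) + 1) ^ (A + 2) := by
          nlinarith [hpow i.1]
        linarith
      · simp)
    (by
      refine Eventually.of_forall (fun R t ht => ?_)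
      obtain ⟨hbox, hne⟩ := ht
      rw [not_eventually] at hne
      obtain ⟨r, hrR, hr⟩ := (frequently_atTop.mp hne) R
      obtain ⟨c, hc⟩ := Dim_cover k (n r) (hn1 r) t hbox
      rw [Set.mem_iUnion]
      refine ⟨⟨r, c⟩, ?_⟩
      rw [htt]
      dsimp only
      rw [if_pos]
      · exact hc
      · refine ⟨hrR, ?_⟩
        rw [hbad]
        exact Finset.mem_filter.mpr ⟨Finset.mem_univ _, t, hc, not_le.mp hr⟩)
  have hbound : ∀ R : ℕ, ∑' i, Metric.ediam (tt R i) ^ s ≤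
      ∑' r : ℕ, ENNReal.ofReal (K * ((r : ℝ) + 1) ^ (-(3 / 2) : ℝ)) := by
    intro R
    have h1 : ∀ i : (Σ r : ℕ, (Fin (d + 1) → Fin (n r))), Metric.ediam (tt R i) ^ s ≤
        (if i.2 ∈ bad i.1 then ENNReal.ofReal ((1 / (n i.1 : ℝ)) ^ s) else 0) := by
      intro i
      rw [htt]
      dsimp only
      split_ifs with hi hj hj
      · rw [← ENNReal.ofReal_rpow_of_nonneg (by positivity) hs0.le]
        exact ENNReal.rpow_le_rpow (Dim_diam k (n i.1) (hn1 i.1) i.2) hs0.le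
      · exact absurd hi.2 hj
      · simp [ENNReal.zero_rpow_of_pos hs0]
      · simp [ENNReal.zero_rpow_of_pos hs0]
    refine (ENNReal.tsum_le_tsum h1).trans ?_
    rw [ENNReal.tsum_sigma' (fun i : (Σ r : ℕ, (Fin (d + 1) → Fin (n r))) =>
      (if i.2 ∈ bad i.1 then ENNReal.ofReal ((1 / (n i.1 : ℝ)) ^ s) else 0))]
    refine ENNReal.tsum_le_tsum (fun r => ?_)
    rw [tsum_fintype]
    dsimp only
    rw [← Finset.sum_filter, Finset.sum_const, Finset.filter_mem_eq_inter, Finset.univ_inter,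
      nsmul_eq_mul, ← ENNReal.ofReal_natCast, ← ENNReal.ofReal_mul (by positivity)]
    apply ENNReal.ofReal_le_ofReal
    exact Dim_real d A C' B' hC1 hB0 r (n r) (hn1 r) (hup r) _ (hcard r)
  have hfin := Dim_summable K hK0
  refine ne_top_of_le_ne_top hfin (hmain.trans ?_)
  refine (liminf_le_liminf (Eventually.of_forall hbound)).trans ?_
  rw [liminf_const]

/-- The exceptional set of a sequence of Lipschitz functions. In each unit box, cut into cells of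
side `1 / n_r`, `n_r` about `2 C (r+1)^(A+2)`, the cells which meet `{1/(r+1)^2 < G r}` carry
`G r > 1 / (2 (r+1)^2)`, so there are at most `B n_r^(d+1) / (r+1)^2` of them. -/
theorem dim_le (d A : ℕ) (G : ℕ → (Fin (d + 1) → ℝ) → ℝ) (hG0 : ∀ r t, 0 ≤ G r t) (C : ℝ)
    (hlip : ∀ r t t', |G r t - G r t'| ≤ C * ((r : ℝ) + 1) ^ A * ‖t - t'‖)
    (hint : ∀ k : Fin (d + 1) → ℤ, ∃ B : ℝ, ∀ r : ℕ,
      ∫ t in Icc (fun j => (k j : ℝ)) (fun j => (k j : ℝ) + 1), G r t ≤ B / ((r : ℝ) + 1) ^ 4) :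
    dimH {t | ¬ ∀ᶠ r : ℕ in atTop, G r t ≤ 1 / ((r : ℝ) + 1) ^ 2}
      ≤ ENNReal.ofReal ((d : ℝ) + 1 - 1 / (2 * A + 4)) := by
  have hsub : {t | ¬ ∀ᶠ r : ℕ in atTop, G r t ≤ 1 / ((r : ℝ) + 1) ^ 2} ⊆
      ⋃ k : Fin (d + 1) → ℤ, {t | (∀ j, (k j : ℝ) ≤ t j ∧ t j < (k j : ℝ) + 1) ∧
        ¬ ∀ᶠ r : ℕ in atTop, G r t ≤ 1 / ((r : ℝ) + 1) ^ 2} := by
    intro t ht
    rw [Set.mem_iUnion]
    exact ⟨fun j => ⌊t j⌋, fun j => ⟨Int.floor_le _, Int.lt_floor_add_one _⟩, ht⟩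
  refine (dimH_mono hsub).trans ?_
  rw [dimH_iUnion]
  refine iSup_le (fun k => ?_)
  obtain ⟨B, hB⟩ := hint k
  exact Dim_box d A G hG0 C hlip k B hB

end Pool.AET
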