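import Mathlib

/-!
# From a sparse sequence to all averages
-/

set_option autoImplicit false

open MeasureTheory Set Filter Topology Finset

namespace Pool.AET

namespace FillAux

theorem exists_level (E : ℕ) (hE : 1 ≤ E) (R N : ℕ) (hN : (R + 1) ^ E ≤ N) :
    ∃ r, R ≤ r ∧ (r + 1) ^ E ≤ N ∧ N < (r + 2) ^ E := by
  classical
  have hex : ∃ s, N < (s + 2) ^ E := by
    refine ⟨N, ?_⟩
    calc N < N + 2 := by omega
      _ = (N + 2) ^ 1 := (pow_one _).symm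
      _ ≤ (N + 2) ^ E := Nat.pow_le_pow_right (by omega) hE
  set s := Nat.find hex with hs
  have h1 : N < (s + 2) ^ E := Nat.find_spec hex
  have h2 : R ≤ s := by
    by_contra hcon
    have h3 : s + 2 ≤ R + 1 := by omega
    have h4 : (s + 2) ^ E ≤ (R + 1) ^ E := Nat.pow_le_pow_left h3 E
    omega
  refine ⟨s, h2, ?_, h1⟩
  rcases Nat.eq_or_lt_of_le h2 with h3 | h3
  · rw [← h3]; exact hN
  · have h4 : s - 1 < s := by omega
    have h5 := Nat.find_min hex (m := s - 1) h4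
    have h6 : s - 1 + 2 = s + 1 := by omega
    rw [h6] at h5
    exact not_lt.mp h5

theorem ratio_tendsto (E : ℕ) :
    Tendsto (fun r : ℕ => (((r : ℝ) + 2) / ((r : ℝ) + 1)) ^ E) atTop (𝓝 1) := by
  have h1 : Tendsto (fun r : ℕ => (1 + 1 / ((r : ℝ) + 1)) ^ E) atTop (𝓝 ((1 + 0) ^ E)) :=
    (tendsto_const_nhds.add tendsto_one_div_add_atTop_nhds_zero_nat).pow E
  rw [add_zero, one_pow] at h1
  refine h1.congr fun r => ?_
  congr 1
  have : (r : ℝ) + 1 ≠ 0 := by positivity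
  field_simp
  ring

theorem sum_sub_le (w : ℕ → ℝ) (hw : ∀ n, |w n| ≤ 1) (M N : ℕ) (h : M ≤ N) :
    |∑ n ∈ range N, w n| ≤ |∑ n ∈ range M, w n| + ((N : ℝ) - M) := by
  obtain ⟨k, rfl⟩ := Nat.exists_eq_add_of_le h
  rw [Finset.sum_range_add]
  refine (abs_add_le _ _).trans ?_
  have h1 : |∑ x ∈ range k, w (M + x)| ≤ k := by
    refine (Finset.abs_sum_le_sum_abs _ _).trans ?_
    refine (Finset.sum_le_sum fun n _ => hw (M + n)).trans ?_
    simp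
  push_cast
  linarith

end FillAux

theorem fill (E : ℕ) (w : ℕ → ℝ) (hw : ∀ n, |w n| ≤ 1)
    (h : Tendsto (fun r : ℕ => ((((r + 1) ^ E : ℕ) : ℝ))⁻¹ * ∑ n ∈ range ((r + 1) ^ E), w n)
      atTop (𝓝 0)) (hE : 1 ≤ E) :
    Tendsto (fun N : ℕ => (N : ℝ)⁻¹ * ∑ n ∈ range N, w n) atTop (𝓝 0) := by
  rw [Metric.tendsto_atTop] at h ⊢
  intro ε hε
  obtain ⟨R₁, hR₁⟩ := h (ε / 2) (by positivity)
  obtain ⟨R₂, hR₂⟩ := Metric.tendsto_atTop.mp (FillAux.ratio_tendsto E) (ε / 2) (by positivity)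
  set R := max R₁ R₂ with hR
  refine ⟨(R + 1) ^ E, fun N hN => ?_⟩
  obtain ⟨r, hr, hr1, hr2⟩ := FillAux.exists_level E hE R N hN
  have h1 := hR₁ r ((le_max_left _ _).trans hr)
  have h2 := hR₂ r ((le_max_right _ _).trans hr)
  rw [Real.dist_eq, sub_zero] at h1 ⊢
  rw [Real.dist_eq] at h2
  set M := (r + 1) ^ E with hM
  have hM0 : (0 : ℝ) < M := by
    have : 0 < M := Nat.pow_pos (by omega)
    exact_mod_cast this
  have hMN : (M : ℝ) ≤ N := by exact_mod_cast hr1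
  have hN0 : (0 : ℝ) < N := lt_of_lt_of_le hM0 hMN
  have h3 := FillAux.sum_sub_le w hw M N hr1
  rw [abs_mul, abs_of_pos (inv_pos.mpr hM0)] at h1
  rw [abs_mul, abs_of_pos (inv_pos.mpr hN0)]
  have h4 : (N : ℝ) / M ≤ (((r : ℝ) + 2) / ((r : ℝ) + 1)) ^ E := by
    rw [div_pow, hM]
    push_cast
    refine div_le_div_of_nonneg_right ?_ (by positivity)
    have h5 : (N : ℝ) ≤ (((r + 2) ^ E : ℕ) : ℝ) := by exact_mod_cast hr2.le
    push_cast at h5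
    exact h5
  have h5 : (N : ℝ) / M - 1 < ε / 2 := by
    have := (abs_lt.mp h2).2
    linarith
  have h6 : (N : ℝ)⁻¹ ≤ (M : ℝ)⁻¹ := inv_anti₀ hM0 hMN
  calc (N : ℝ)⁻¹ * |∑ n ∈ range N, w n|
      ≤ (M : ℝ)⁻¹ * |∑ n ∈ range N, w n| := mul_le_mul_of_nonneg_right h6 (abs_nonneg _)
    _ ≤ (M : ℝ)⁻¹ * (|∑ n ∈ range M, w n| + ((N : ℝ) - M)) :=
        mul_le_mul_of_nonneg_left h3 (inv_nonneg.mpr hM0.le)
    _ = (M : ℝ)⁻¹ * |∑ n ∈ range M, w n| + ((N : ℝ) / M - 1) := by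
        field_simp
    _ < ε / 2 + ε / 2 := add_lt_add h1 h5
    _ = ε := by ring

theorem ae_zero {Ω : Type*} [MeasurableSpace Ω] {μ : Measure Ω} [IsProbabilityMeasure μ]
    (Φ : ℕ → Ω → ℝ) (hm : ∀ r, Measurable (Φ r)) (hb : ∀ r x, |Φ r x| ≤ 1)
    (h : ∀ᶠ r : ℕ in atTop, ∫ x, (Φ r x) ^ 2 ∂μ ≤ 1 / ((r : ℝ) + 1) ^ 2) :
    ∀ᵐ x ∂μ, Tendsto (fun r => Φ r x) atTop (𝓝 0) := by
  have hint : ∀ r, Integrable (fun x => (Φ r x) ^ 2) μ := fun r =>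
    Integrable.of_bound ((hm r).pow_const 2).aestronglyMeasurable 1
      (Eventually.of_forall fun x => by
        rw [Real.norm_eq_abs, abs_pow]
        exact pow_le_one₀ (abs_nonneg _) (hb r x))
  have hsum : Summable (fun r => ∫ x, (Φ r x) ^ 2 ∂μ) := by
    have h1 : Summable (fun r : ℕ => 1 / ((r : ℝ) + 1) ^ 2) := by
      have h2 := (summable_nat_add_iff 1).mpr (Real.summable_one_div_nat_pow.mpr one_lt_two)
      simpa using h2
    refine Summable.of_norm_bounded_eventually_nat h1 ?_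
    filter_upwards [h] with r hr
    rw [Real.norm_eq_abs, abs_of_nonneg (integral_nonneg fun x => sq_nonneg _)]
    exact hr
  have h3 : ∫⁻ x, ∑' r, ENNReal.ofReal ((Φ r x) ^ 2) ∂μ ≠ ⊤ := by
    rw [lintegral_tsum (fun r => ((hm r).pow_const 2).ennreal_ofReal.aemeasurable)]
    have h4 : ∀ r, ∫⁻ x, ENNReal.ofReal ((Φ r x) ^ 2) ∂μ
        = ENNReal.ofReal (∫ x, (Φ r x) ^ 2 ∂μ) := fun r =>
      (ofReal_integral_eq_lintegral_ofReal (hint r)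
        (Eventually.of_forall fun x => sq_nonneg _)).symm
    simp_rw [h4]
    exact hsum.tsum_ofReal_ne_top
  have h5 : ∀ᵐ x ∂μ, ∑' r, ENNReal.ofReal ((Φ r x) ^ 2) < ⊤ :=
    ae_lt_top (Measurable.tsum fun r => ((hm r).pow_const 2).ennreal_ofReal) h3
  filter_upwards [h5] with x hx
  have h6 := ENNReal.tendsto_atTop_zero_of_tsum_ne_top hx.ne
  have h7 : Tendsto (fun r => (Φ r x) ^ 2) atTop (𝓝 0) := by
    have h8 := (ENNReal.tendsto_toReal ENNReal.zero_ne_top).comp h6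
    simp only [ENNReal.toReal_zero] at h8
    refine h8.congr fun r => ?_
    simp only [Function.comp_apply]
    exact ENNReal.toReal_ofReal (sq_nonneg _)
  have h9 : Tendsto (fun r => |Φ r x|) atTop (𝓝 0) := by
    have h10 := (Real.continuous_sqrt.tendsto 0).comp h7
    rw [Real.sqrt_zero] at h10
    refine h10.congr fun r => ?_
    simp only [Function.comp_apply]
    exact Real.sqrt_sq_eq_abs _
  exact (tendsto_zero_iff_abs_tendsto_zero _).mpr h9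

namespace FillAux

theorem sum_Icc_succ (w : ℤ → ℝ) (M : ℕ) :
    ∑ n ∈ Finset.Icc (-((M + 1 : ℕ) : ℤ)) ((M + 1 : ℕ) : ℤ), w n
      = ∑ n ∈ Finset.Icc (-(M : ℤ)) (M : ℤ), w n + w ((M : ℤ) + 1) + w (-((M : ℤ) + 1)) := by
  have h1 : Finset.Icc (-((M + 1 : ℕ) : ℤ)) ((M + 1 : ℕ) : ℤ)
      = insert (-((M : ℤ) + 1)) (insert ((M : ℤ) + 1) (Finset.Icc (-(M : ℤ)) (M : ℤ))) := by
    ext z
    simp only [Finset.mem_Icc, Finset.mem_insert]
    push_cast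
    omega
  rw [h1, Finset.sum_insert, Finset.sum_insert]
  · ring
  · simp
  · simp only [Finset.mem_insert, Finset.mem_Icc]
    omega

theorem diff_const (n₁ : ℕ) (w : ℤ → ℝ) (k : ℕ) :
    ∑ n ∈ Finset.Icc (-((n₁ + k : ℕ) : ℤ)) ((n₁ + k : ℕ) : ℤ), w n
      = (∑ n ∈ Finset.Icc (-(n₁ : ℤ)) (n₁ : ℤ), w n - w n₁ - w (-n₁))
        + ∑ n ∈ range (k + 1), w ((n₁ : ℤ) + n) + ∑ n ∈ range (k + 1), w (-((n₁ : ℤ) + n)) := by
  induction k with
  | zero =>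
    simp only [Nat.zero_add, Finset.sum_range_one, Nat.cast_zero, add_zero]
    ring
  | succ k ih =>
    rw [← add_assoc n₁ k 1, sum_Icc_succ, ih, Finset.sum_range_succ _ (k + 1),
      Finset.sum_range_succ _ (k + 1)]
    push_cast
    rw [← add_assoc (n₁ : ℤ) k 1]
    ring

end FillAux

/-- Averages over `[-N, N]` from one sided averages which start at `n₁`. -/
theorem two_sided (n₁ : ℕ) (w : ℤ → ℝ) (B : ℝ) (hw : ∀ n, |w n| ≤ B)
    (h1 : Tendsto (fun N : ℕ => (N : ℝ)⁻¹ * ∑ n ∈ range N, w ((n₁ : ℤ) + n)) atTop (𝓝 0))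
    (h2 : Tendsto (fun N : ℕ => (N : ℝ)⁻¹ * ∑ n ∈ range N, w (-((n₁ : ℤ) + n))) atTop (𝓝 0)) :
    Tendsto (fun N : ℕ => (2 * (N : ℝ) + 1)⁻¹ * ∑ n ∈ Finset.Icc (-(N : ℤ)) N, w n)
      atTop (𝓝 0) := by
  have _ := hw
  rw [← tendsto_add_atTop_iff_nat n₁]
  set C : ℝ := ∑ n ∈ Finset.Icc (-(n₁ : ℤ)) (n₁ : ℤ), w n - w n₁ - w (-n₁) with hC
  set F1 : ℕ → ℝ := fun N => (N : ℝ)⁻¹ * ∑ n ∈ range N, w ((n₁ : ℤ) + n) with hF1
  set F2 : ℕ → ℝ := fun N => (N : ℝ)⁻¹ * ∑ n ∈ range N, w (-((n₁ : ℤ) + n)) with hF2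
  have hF1' : Tendsto (fun k => |F1 (k + 1)|) atTop (𝓝 0) := by
    have := (h1.comp (tendsto_add_atTop_nat 1)).abs
    simpa using this
  have hF2' : Tendsto (fun k => |F2 (k + 1)|) atTop (𝓝 0) := by
    have := (h2.comp (tendsto_add_atTop_nat 1)).abs
    simpa using this
  have hC' : Tendsto (fun k : ℕ => |C| * (1 / ((k : ℝ) + 1))) atTop (𝓝 0) := by
    have := (tendsto_one_div_add_atTop_nhds_zero_nat (𝕜 := ℝ)).const_mul |C|
    simpa using this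
  have hbound : Tendsto (fun k : ℕ => |C| * (1 / ((k : ℝ) + 1)) + |F1 (k + 1)| + |F2 (k + 1)|)
      atTop (𝓝 0) := by
    have := (hC'.add hF1').add hF2'
    simpa using this
  refine squeeze_zero_norm (fun k => ?_) hbound
  rw [Real.norm_eq_abs, Nat.add_comm k n₁, FillAux.diff_const n₁ w k, ← hC]
  have hk0 : (0 : ℝ) < (k : ℝ) + 1 := by positivity
  have hk : (((k + 1 : ℕ) : ℝ)) ≠ 0 := by positivity
  have e1 : ∑ n ∈ range (k + 1), w ((n₁ : ℤ) + n) = ((k + 1 : ℕ) : ℝ) * F1 (k + 1) := by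
    rw [hF1]; field_simp
  have e2 : ∑ n ∈ range (k + 1), w (-((n₁ : ℤ) + n)) = ((k + 1 : ℕ) : ℝ) * F2 (k + 1) := by
    rw [hF2]; field_simp
  rw [e1, e2]
  have hQ : (0 : ℝ) < 2 * ((n₁ + k : ℕ) : ℝ) + 1 := by positivity
  rw [abs_mul, abs_of_pos (inv_pos.mpr hQ)]
  have hle : ((k + 1 : ℕ) : ℝ) ≤ 2 * ((n₁ + k : ℕ) : ℝ) + 1 := by
    have : k + 1 ≤ 2 * (n₁ + k) + 1 := by omega
    exact_mod_cast this
  have hinv : (2 * ((n₁ + k : ℕ) : ℝ) + 1)⁻¹ ≤ (((k + 1 : ℕ) : ℝ))⁻¹ :=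
    inv_anti₀ (by positivity) hle
  have habs : |C + ((k + 1 : ℕ) : ℝ) * F1 (k + 1) + ((k + 1 : ℕ) : ℝ) * F2 (k + 1)|
      ≤ |C| + ((k + 1 : ℕ) : ℝ) * |F1 (k + 1)| + ((k + 1 : ℕ) : ℝ) * |F2 (k + 1)| := by
    refine (abs_add_le _ _).trans (add_le_add ((abs_add_le _ _).trans (add_le_add le_rfl ?_)) ?_)
    · rw [abs_mul, abs_of_nonneg (by positivity)]
    · rw [abs_mul, abs_of_nonneg (by positivity)]
  calc (2 * ((n₁ + k : ℕ) : ℝ) + 1)⁻¹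
        * |C + ((k + 1 : ℕ) : ℝ) * F1 (k + 1) + ((k + 1 : ℕ) : ℝ) * F2 (k + 1)|
      ≤ (((k + 1 : ℕ) : ℝ))⁻¹
        * (|C| + ((k + 1 : ℕ) : ℝ) * |F1 (k + 1)| + ((k + 1 : ℕ) : ℝ) * |F2 (k + 1)|) :=
        mul_le_mul hinv habs (abs_nonneg _) (by positivity)
    _ = |C| * (1 / ((k : ℝ) + 1)) + |F1 (k + 1)| + |F2 (k + 1)| := by
        push_cast
        field_simp

end Pool.AET
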