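import Pool.Agent.AET.Corr

/-!
# The second moment is Lipschitz in the times
-/

set_option autoImplicit false

open MeasureTheory Set Finset

namespace Pool.AET

namespace LipGAux

theorem prod_sub_le {ι : Type*} (s : Finset ι) (a b : ι → ℝ) (ha : ∀ j, |a j| ≤ 1)
    (hb : ∀ j, |b j| ≤ 1) : |∏ j ∈ s, a j - ∏ j ∈ s, b j| ≤ ∑ j ∈ s, |a j - b j| := by
  classical
  induction s using Finset.induction_on with
  | empty => simp
  | insert i s hi ih =>
    rw [Finset.prod_insert hi, Finset.prod_insert hi, Finset.sum_insert hi]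
    have h1 : a i * ∏ j ∈ s, a j - b i * ∏ j ∈ s, b j
        = (a i - b i) * ∏ j ∈ s, a j + b i * (∏ j ∈ s, a j - ∏ j ∈ s, b j) := by ring
    rw [h1]
    refine (abs_add_le _ _).trans (add_le_add ?_ ?_)
    · rw [abs_mul]
      refine mul_le_of_le_one_right (abs_nonneg _) ?_
      rw [Finset.abs_prod]
      exact Finset.prod_le_one (fun _ _ => abs_nonneg _) (fun j _ => ha j)
    · rw [abs_mul]
      exact (mul_le_of_le_one_left (abs_nonneg _) (hb i)).trans ih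

end LipGAux

variable {Ω : Type*} [MeasurableSpace Ω] {μ : Measure Ω} {d : ℕ}

omit [MeasurableSpace Ω] in
theorem LipGAux.abs_prodSeq_le {φ : Fin (d + 1) → ℝ → Ω → Ω}
    {u : ℕ → Ω → ℝ} (hu1 : ∀ n x, |u n x| ≤ 1)
    {c : Fin (d + 1) → Ω → ℝ} (hc1 : ∀ j x, |c j x| ≤ 1)
    (q : Fin (d + 1) → ℕ → ℝ) (t : Fin (d + 1) → ℝ) (n : ℕ) (x : Ω) :
    |prodSeq φ u c q t n x| ≤ 1 := by
  unfold prodSeq
  rw [abs_mul, Finset.abs_prod]
  exact mul_le_one₀ (hu1 _ _) (Finset.prod_nonneg fun _ _ => abs_nonneg _)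
    (Finset.prod_le_one (fun _ _ => abs_nonneg _) (fun j _ => hc1 j _))

theorem LipGAux.measurable_prodSeq {φ : Fin (d + 1) → ℝ → Ω → Ω}
    (hφ : ∀ j, IsFlow μ (φ j))
    {u : ℕ → Ω → ℝ} (hu : ∀ n, Measurable (u n))
    {c : Fin (d + 1) → Ω → ℝ} (hc : ∀ j, Measurable (c j))
    (q : Fin (d + 1) → ℕ → ℝ) (t : Fin (d + 1) → ℝ) (n : ℕ) :
    Measurable (fun x => prodSeq φ u c q t n x) := by
  unfold prodSeq
  refine (hu n).mul (Finset.measurable_prod _ fun j _ => ?_)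
  exact (hφ j).meas_comp (hc j) measurable_const measurable_id

theorem LipGAux.avg_abs_le {a : ℕ → ℝ} {C : ℝ} (N : ℕ) (hN : 1 ≤ N)
    (ha : ∀ n < N, |a n| ≤ C) : |(N : ℝ)⁻¹ * ∑ n ∈ range N, a n| ≤ C := by
  have hN0 : (0 : ℝ) < N := by exact_mod_cast hN
  rw [abs_mul, abs_of_pos (inv_pos.mpr hN0)]
  have h1 : |∑ n ∈ range N, a n| ≤ N * C := by
    refine (Finset.abs_sum_le_sum_abs _ _).trans ?_
    refine (Finset.sum_le_sum fun n hn => ha n (Finset.mem_range.mp hn)).trans ?_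
    simp
  calc (N : ℝ)⁻¹ * |∑ n ∈ range N, a n| ≤ (N : ℝ)⁻¹ * (N * C) :=
        mul_le_mul_of_nonneg_left h1 (inv_nonneg.mpr hN0.le)
    _ = C := by field_simp

theorem lip_second [IsProbabilityMeasure μ] {φ : Fin (d + 1) → ℝ → Ω → Ω}
    (hφ : ∀ j, IsFlow μ (φ j))
    {u : ℕ → Ω → ℝ} (hu : ∀ n, Measurable (u n)) (hu1 : ∀ n x, |u n x| ≤ 1)
    {c : Fin (d + 1) → Ω → ℝ} (hc : ∀ j, Measurable (c j)) (hc1 : ∀ j x, |c j x| ≤ 1)
    {L : ℝ} (hL : ∀ j, LipT (φ j) (c j) L)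
    {q : Fin (d + 1) → ℕ → ℝ} {A : ℝ} {D : ℕ} (hq : ∀ j n, |q j n| ≤ A * ((n : ℝ) + 1) ^ D)
    (N : ℕ) (hN : 1 ≤ N) (t t' : Fin (d + 1) → ℝ) :
    |(∫ x, ((N : ℝ)⁻¹ * ∑ n ∈ range N, prodSeq φ u c q t n x) ^ 2 ∂μ)
        - ∫ x, ((N : ℝ)⁻¹ * ∑ n ∈ range N, prodSeq φ u c q t' n x) ^ 2 ∂μ|
      ≤ 2 * (d + 1) * L * A * (N : ℝ) ^ D * ‖t - t'‖ := by
  have hne : Nonempty Ω := by
    by_contra hcon
    rw [not_nonempty_iff] at hcon
    have h1 : μ univ = 1 := measure_univ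
    have h2 : (univ : Set Ω) = ∅ := Set.eq_empty_of_isEmpty _
    rw [h2, measure_empty] at h1
    exact zero_ne_one h1
  obtain ⟨x₀⟩ := hne
  have hL0 : 0 ≤ L := by
    have := hL 0 1 x₀
    simp only [abs_one, mul_one] at this
    exact (abs_nonneg _).trans this
  have hA0 : 0 ≤ A := by
    have := hq 0 0
    simp only [Nat.cast_zero, zero_add, one_pow, mul_one] at this
    exact (abs_nonneg _).trans this
  have hfac : ∀ (j : Fin (d + 1)) (n : ℕ) (x : Ω),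
      |c j (φ j (t j * q j n) x) - c j (φ j (t' j * q j n) x)|
        ≤ L * (‖t - t'‖ * (A * ((n : ℝ) + 1) ^ D)) := by
    intro j n x
    have h1 : φ j (t j * q j n) x = φ j ((t j - t' j) * q j n) (φ j (t' j * q j n) x) := by
      rw [← (hφ j).add]
      congr 1
      ring
    rw [h1]
    refine (hL j _ _).trans (mul_le_mul_of_nonneg_left ?_ hL0)
    rw [abs_mul]
    have h2 : |t j - t' j| ≤ ‖t - t'‖ := by
      have := norm_le_pi_norm (t - t') j
      simpa using this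
    exact mul_le_mul h2 (hq j n) (abs_nonneg _) (norm_nonneg _)
  have hpt : ∀ (n : ℕ) (x : Ω), n < N → |prodSeq φ u c q t n x - prodSeq φ u c q t' n x|
      ≤ (d + 1) * L * A * (N : ℝ) ^ D * ‖t - t'‖ := by
    intro n x hn
    unfold prodSeq
    rw [← mul_sub, abs_mul]
    refine (mul_le_of_le_one_left (abs_nonneg _) (hu1 _ _)).trans ?_
    refine (LipGAux.prod_sub_le _ _ _ (fun j => hc1 j _) (fun j => hc1 j _)).trans ?_
    refine (Finset.sum_le_sum fun j _ => hfac j n x).trans ?_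
    rw [Finset.sum_const, Finset.card_univ, Fintype.card_fin, nsmul_eq_mul]
    have h3 : ((n : ℝ) + 1) ^ D ≤ (N : ℝ) ^ D := by
      refine pow_le_pow_left₀ (by positivity) ?_ D
      exact_mod_cast hn
    have h4 : L * (‖t - t'‖ * (A * ((n : ℝ) + 1) ^ D)) ≤ L * (‖t - t'‖ * (A * (N : ℝ) ^ D)) := by
      refine mul_le_mul_of_nonneg_left ?_ hL0
      refine mul_le_mul_of_nonneg_left ?_ (norm_nonneg _)
      exact mul_le_mul_of_nonneg_left h3 hA0
    calc ((d + 1 : ℕ) : ℝ) * (L * (‖t - t'‖ * (A * ((n : ℝ) + 1) ^ D)))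
        ≤ ((d + 1 : ℕ) : ℝ) * (L * (‖t - t'‖ * (A * (N : ℝ) ^ D))) :=
          mul_le_mul_of_nonneg_left h4 (by positivity)
      _ = (d + 1) * L * A * (N : ℝ) ^ D * ‖t - t'‖ := by push_cast; ring
  set F : (Fin (d + 1) → ℝ) → Ω → ℝ :=
    fun s x => (N : ℝ)⁻¹ * ∑ n ∈ range N, prodSeq φ u c q s n x with hF
  have hF1 : ∀ s x, |F s x| ≤ 1 := fun s x =>
    LipGAux.avg_abs_le N hN fun n _ => LipGAux.abs_prodSeq_le hu1 hc1 q s n x
  have hFm : ∀ s, Measurable (F s) := fun s => by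
    refine measurable_const.mul (Finset.measurable_sum _ fun n _ => ?_)
    exact LipGAux.measurable_prodSeq hφ hu hc q s n
  have hFd : ∀ x, |F t x - F t' x| ≤ (d + 1) * L * A * (N : ℝ) ^ D * ‖t - t'‖ := by
    intro x
    rw [hF]
    simp only
    rw [← mul_sub, ← Finset.sum_sub_distrib]
    exact LipGAux.avg_abs_le N hN fun n hn => hpt n x hn
  have hsq : ∀ s, Integrable (fun x => (F s x) ^ 2) μ := fun s =>
    integrable_bd ((hFm s).pow_const 2) 1 fun x => by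
      rw [abs_pow]
      exact pow_le_one₀ (abs_nonneg _) (hF1 s x)
  change |(∫ x, (F t x) ^ 2 ∂μ) - ∫ x, (F t' x) ^ 2 ∂μ| ≤ _
  rw [← integral_sub (hsq t) (hsq t')]
  apply abs_integral_bd
  intro x
  have h5 : (F t x) ^ 2 - (F t' x) ^ 2 = (F t x - F t' x) * (F t x + F t' x) := by ring
  rw [h5, abs_mul]
  have h6 : |F t x + F t' x| ≤ 2 := by
    refine (abs_add_le _ _).trans ?_
    linarith [hF1 t x, hF1 t' x]
  calc |F t x - F t' x| * |F t x + F t' x|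
      ≤ ((d + 1) * L * A * (N : ℝ) ^ D * ‖t - t'‖) * 2 :=
        mul_le_mul (hFd x) h6 (abs_nonneg _) ((abs_nonneg _).trans (hFd x))
    _ = 2 * (d + 1) * L * A * (N : ℝ) ^ D * ‖t - t'‖ := by ring

end Pool.AET
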