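import Mathlib

/-!
# Measurable measure preserving flows
-/

set_option autoImplicit false

open MeasureTheory

namespace Pool.AET

/-- A jointly measurable flow of measure preserving maps. -/
structure IsFlow {Ω : Type*} [MeasurableSpace Ω] (μ : Measure Ω) (φ : ℝ → Ω → Ω) : Prop where
  meas : Measurable (Function.uncurry φ)
  add : ∀ s t x, φ (s + t) x = φ s (φ t x)
  zero : ∀ x, φ 0 x = x
  mp : ∀ t, MeasurePreserving (φ t) μ μ

variable {Ω : Type*} [MeasurableSpace Ω] {μ : Measure Ω} {φ : ℝ → Ω → Ω}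

namespace IsFlow

theorem neg_left (h : IsFlow μ φ) (t : ℝ) (x : Ω) : φ (-t) (φ t x) = x := by
  rw [← h.add, neg_add_cancel, h.zero]

theorem neg_right (h : IsFlow μ φ) (t : ℝ) (x : Ω) : φ t (φ (-t) x) = x := by
  rw [← h.add, add_neg_cancel, h.zero]

/-- The time `t` map as a permutation. -/
def perm (h : IsFlow μ φ) (t : ℝ) : Equiv.Perm Ω where
  toFun := φ t
  invFun := φ (-t)
  left_inv := h.neg_left t
  right_inv := h.neg_right t

theorem perm_apply (h : IsFlow μ φ) (t : ℝ) (x : Ω) : h.perm t x = φ t x := rfl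

theorem perm_symm_apply (h : IsFlow μ φ) (t : ℝ) (x : Ω) : (h.perm t).symm x = φ (-t) x := rfl

theorem perm_pow (h : IsFlow μ φ) (t : ℝ) (n : ℕ) (x : Ω) :
    ((h.perm t) ^ n : Equiv.Perm Ω) x = φ (n * t) x := by
  induction n with
  | zero => simp [h.zero]
  | succ n ih =>
    rw [pow_succ', Equiv.Perm.mul_apply, ih, perm_apply, ← h.add]
    congr 1
    push_cast
    ring

theorem perm_zpow (h : IsFlow μ φ) (t : ℝ) (n : ℤ) (x : Ω) :
    ((h.perm t) ^ n : Equiv.Perm Ω) x = φ (n * t) x := by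
  obtain ⟨k, rfl | rfl⟩ := n.eq_nat_or_neg
  · rw [zpow_natCast, perm_pow]
    simp
  · rw [zpow_neg, zpow_natCast, Equiv.Perm.inv_eq_iff_eq, perm_pow, ← h.add]
    have : (k : ℝ) * t + (((-(k : ℤ) : ℤ)) : ℝ) * t = 0 := by push_cast; ring
    rw [this, h.zero]

end IsFlow

/-- Decay, on average over `g` in `[-1,1]`, of the self correlations at the times `g l`. -/
def Dec (μ : Measure Ω) (φ : ℝ → Ω → Ω) (f : Ω → ℝ) (S : ℝ) : Prop :=
  ∀ l : ℝ, l ≠ 0 → |∫ g in Set.Icc (-1 : ℝ) 1, ∫ x, f x * f (φ (g * l) x) ∂μ| ≤ S / |l|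

/-- Lipschitz along the flow. -/
def LipT (φ : ℝ → Ω → Ω) (f : Ω → ℝ) (L : ℝ) : Prop :=
  ∀ t x, |f (φ t x) - f x| ≤ L * |t|

/-- The good functions of a flow. -/
structure Cls (μ : Measure Ω) (φ : ℝ → Ω → Ω) (c : Ω → ℝ) : Prop where
  meas : Measurable c
  bd : ∀ x, |c x| ≤ 1
  lip : ∃ L : ℝ, LipT φ c L
  dec : ∃ S : ℝ, Dec μ φ c S

/-- Functions which are good for the flow or constant one. -/
def Cls1 (μ : Measure Ω) (φ : ℝ → Ω → Ω) (c : Ω → ℝ) : Prop :=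
  Cls μ φ c ∨ ∀ x, c x = 1

/-- The increments of the sequence `q` are of the size of those of a polynomial of degree `e+1`. -/
def GrowInc (q : ℕ → ℝ) (c C : ℝ) (e : ℕ) : Prop :=
  ∀ m n : ℕ, m < n → c * ((n : ℝ) - m) * ((n : ℝ) + 1) ^ e ≤ |q n - q m| ∧
    |q n - q m| ≤ C * ((n : ℝ) - m) * ((n : ℝ) + 1) ^ e

/-- Averages over `[-N, N]`. -/
noncomputable def av (w : ℤ → ℝ) (N : ℕ) : ℝ :=
  (2 * (N : ℝ) + 1)⁻¹ * ∑ n ∈ Finset.Icc (-(N : ℤ)) N, w n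

/-- Averages over `[-N, N]`, complex numbers. -/
noncomputable def avC (w : ℤ → ℂ) (N : ℕ) : ℂ :=
  (2 * (N : ℂ) + 1)⁻¹ * ∑ n ∈ Finset.Icc (-(N : ℤ)) N, w n

/-- The product sequence. -/
noncomputable def prodSeq {d : ℕ} (φ : Fin (d + 1) → ℝ → Ω → Ω) (u : ℕ → Ω → ℝ)
    (c : Fin (d + 1) → Ω → ℝ) (q : Fin (d + 1) → ℕ → ℝ) (t : Fin (d + 1) → ℝ) (n : ℕ) (x : Ω) : ℝ :=
  u n x * ∏ j, c j (φ j (t j * q j n) x)

end Pool.AET
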