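import Pool.Agent.AET.Grow
import Pool.Agent.AET.Defs

/-!
# Growth of shifted polynomials, powers of measure preserving permutations
-/

set_option autoImplicit false

open MeasureTheory Set Finset

namespace Pool.AET

theorem grow_shift (p : Polynomial ℤ) (hp : 1 ≤ p.natDegree) :
    ∃ n₀ : ℕ, ∀ n₁ : ℕ, n₀ ≤ n₁ → ∃ c C : ℝ, 0 < c ∧
      GrowInc (fun n => ((p.eval ((n₁ : ℤ) + n) : ℤ) : ℝ)) c C (p.natDegree - 1) := by
  obtain ⟨n₀, c, C, hc, hC, h⟩ := poly_incr p hp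
  refine ⟨max n₀ 1, fun n₁ hn₁ => ⟨c, C * (n₁ : ℝ) ^ (p.natDegree - 1), hc, ?_⟩⟩
  have h1 : n₀ ≤ n₁ := (le_max_left _ _).trans hn₁
  have h2 : 1 ≤ n₁ := (le_max_right _ _).trans hn₁
  have h2' : (1 : ℝ) ≤ n₁ := by exact_mod_cast h2
  intro m n hmn
  have hmn' : (m : ℝ) < n := by exact_mod_cast hmn
  have h3 := h (n₁ + m) (n₁ + n) (by omega) (by omega)
  push_cast at h3
  have h4 : ((n₁ : ℝ) + n - (n₁ + m)) = (n : ℝ) - m := by ring
  rw [h4] at h3
  have hn0 : (0 : ℝ) ≤ n := Nat.cast_nonneg n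
  constructor
  · refine le_trans ?_ h3.1
    apply mul_le_mul_of_nonneg_left _ (mul_nonneg hc.le (by linarith))
    exact pow_le_pow_left₀ (by positivity) (by linarith) _
  · refine h3.2.trans ?_
    have h5 : ((n₁ : ℝ) + n) ^ (p.natDegree - 1)
        ≤ (n₁ : ℝ) ^ (p.natDegree - 1) * ((n : ℝ) + 1) ^ (p.natDegree - 1) := by
      rw [← mul_pow]
      apply pow_le_pow_left₀ (by positivity)
      nlinarith
    calc C * ((n : ℝ) - m) * ((n₁ : ℝ) + n) ^ (p.natDegree - 1)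
        ≤ C * ((n : ℝ) - m) * ((n₁ : ℝ) ^ (p.natDegree - 1) * ((n : ℝ) + 1) ^ (p.natDegree - 1)) :=
          mul_le_mul_of_nonneg_left h5 (mul_nonneg hC.le (by linarith))
      _ = C * (n₁ : ℝ) ^ (p.natDegree - 1) * ((n : ℝ) - m) * ((n : ℝ) + 1) ^ (p.natDegree - 1) := by
          ring

theorem poly_bd (p : Polynomial ℤ) {D : ℕ} (hp : p.natDegree ≤ D) (n₁ : ℕ) :
    ∃ A : ℝ, 0 ≤ A ∧ ∀ n : ℕ, |((p.eval ((n₁ : ℤ) + n) : ℤ) : ℝ)| ≤ A * ((n : ℝ) + 1) ^ D := by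
  refine ⟨∑ i ∈ range (D + 1), |(p.coeff i : ℝ)| * ((n₁ : ℝ) + 1) ^ i, by positivity, ?_⟩
  intro n
  rw [Polynomial.eval_eq_sum_range' (Nat.lt_succ_of_le hp), Finset.sum_mul]
  push_cast
  refine (Finset.abs_sum_le_sum_abs _ _).trans (Finset.sum_le_sum fun i hi => ?_)
  rw [Finset.mem_range] at hi
  rw [abs_mul, mul_assoc]
  apply mul_le_mul_of_nonneg_left _ (abs_nonneg _)
  have hn0 : (0 : ℝ) ≤ n := Nat.cast_nonneg n
  have hn1 : (0 : ℝ) ≤ n₁ := Nat.cast_nonneg n₁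
  rw [abs_of_nonneg (by positivity)]
  calc ((n₁ : ℝ) + n) ^ i ≤ (((n₁ : ℝ) + 1) * ((n : ℝ) + 1)) ^ i := by
        apply pow_le_pow_left₀ (by positivity)
        nlinarith
    _ = ((n₁ : ℝ) + 1) ^ i * ((n : ℝ) + 1) ^ i := mul_pow _ _ _
    _ ≤ ((n₁ : ℝ) + 1) ^ i * ((n : ℝ) + 1) ^ D := by
        apply mul_le_mul_of_nonneg_left _ (by positivity)
        exact pow_le_pow_right₀ (by linarith) (by omega)

/-- The reflected polynomial. -/
theorem comp_neg_eval (p : Polynomial ℤ) (m : ℤ) :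
    (p.comp (-Polynomial.X)).eval m = p.eval (-m) := by
  rw [Polynomial.eval_comp, Polynomial.eval_neg, Polynomial.eval_X]

theorem comp_neg_natDegree (p : Polynomial ℤ) :
    (p.comp (-Polynomial.X)).natDegree = p.natDegree := by
  rw [Polynomial.natDegree_comp, Polynomial.natDegree_neg, Polynomial.natDegree_X, mul_one]

variable {Ω : Type*} [MeasurableSpace Ω] {μ : Measure Ω}

theorem pow_mp_of (T : Equiv.Perm Ω) (hT : MeasurePreserving T μ μ) (n : ℕ) :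
    MeasurePreserving (⇑(T ^ n : Equiv.Perm Ω)) μ μ := by
  induction n with
  | zero => exact MeasurePreserving.id μ
  | succ n ih =>
    rw [pow_succ', Equiv.Perm.coe_mul]
    exact hT.comp ih

theorem symm_mp_of (T : Equiv.Perm Ω) (hT : MeasurePreserving T μ μ)
    (hT' : Measurable T.symm) : MeasurePreserving (⇑T.symm) μ μ := by
  let e : Ω ≃ᵐ Ω := ⟨T, hT.measurable, hT'⟩
  have he : MeasurePreserving e μ μ := hT
  exact he.symm e

theorem zpow_mp_of (T : Equiv.Perm Ω) (hT : MeasurePreserving T μ μ)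
    (hT' : Measurable T.symm) (n : ℤ) :
    MeasurePreserving (⇑(T ^ n : Equiv.Perm Ω)) μ μ := by
  obtain ⟨k, rfl | rfl⟩ := n.eq_nat_or_neg
  · rw [zpow_natCast]
    exact pow_mp_of T hT k
  · rw [zpow_neg, zpow_natCast, ← inv_pow]
    exact pow_mp_of T⁻¹ (symm_mp_of T hT hT') k

end Pool.AET
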