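import Pool.Agent.AET.Box
import Pool.Agent.AET.LipG
import Pool.Agent.AET.Dim
import Pool.Agent.AET.Fill
import Pool.Agent.AET.PolyG

/-!
# The exceptional times of one family of good functions
-/

set_option autoImplicit false

open MeasureTheory Set Filter Topology Finset

namespace Pool.AET

variable {Ω : Type*} [MeasurableSpace Ω] {μ : Measure Ω} {d : ℕ}

theorem Cls1.meas {φ : ℝ → Ω → Ω} {c : Ω → ℝ} (h : Cls1 μ φ c) : Measurable c := by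
  rcases h with h | h
  · exact h.meas
  · have : c = fun _ => 1 := funext h
    rw [this]
    exact measurable_const

theorem Cls1.bd {φ : ℝ → Ω → Ω} {c : Ω → ℝ} (h : Cls1 μ φ c) (x : Ω) : |c x| ≤ 1 := by
  rcases h with h | h
  · exact h.bd x
  · rw [h x]
    simp

theorem Cls1.lip {φ : ℝ → Ω → Ω} {c : Ω → ℝ} (h : Cls1 μ φ c) : ∃ L : ℝ, 0 ≤ L ∧ LipT φ c L := by
  rcases h with h | h
  · obtain ⟨L, hL⟩ := h.lip
    refine ⟨|L|, abs_nonneg _, fun t x => (hL t x).trans ?_⟩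
    exact mul_le_mul_of_nonneg_right (le_abs_self L) (abs_nonneg _)
  · refine ⟨0, le_rfl, fun t x => ?_⟩
    rw [h, h]
    simp

omit [MeasurableSpace Ω] in
theorem prodSeq_abs_le {φ : Fin (d + 1) → ℝ → Ω → Ω} {u : ℕ → Ω → ℝ} (hu1 : ∀ n x, |u n x| ≤ 1)
    {c : Fin (d + 1) → Ω → ℝ} (hc1 : ∀ j x, |c j x| ≤ 1) (q : Fin (d + 1) → ℕ → ℝ)
    (t : Fin (d + 1) → ℝ) (n : ℕ) (x : Ω) : |prodSeq φ u c q t n x| ≤ 1 := by
  unfold prodSeq
  rw [abs_mul, Finset.abs_prod]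
  exact mul_le_one₀ (hu1 _ _) (Finset.prod_nonneg fun _ _ => abs_nonneg _)
    (Finset.prod_le_one (fun _ _ => abs_nonneg _) fun j _ => hc1 _ _)

theorem avg_abs_le (N : ℕ) (w : ℕ → ℝ) (hw : ∀ n, |w n| ≤ 1) :
    |(N : ℝ)⁻¹ * ∑ n ∈ range N, w n| ≤ 1 := by
  rw [abs_mul, abs_inv, abs_of_nonneg (Nat.cast_nonneg N : (0 : ℝ) ≤ N)]
  have h1 : |∑ n ∈ range N, w n| ≤ N := by
    calc _ ≤ ∑ n ∈ range N, |w n| := Finset.abs_sum_le_sum_abs _ _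
      _ ≤ ∑ n ∈ range N, (1 : ℝ) := Finset.sum_le_sum fun n _ => hw n
      _ = N := by simp
  rcases Nat.eq_zero_or_pos N with h | h
  · subst h
    simp
  · have h' : (0 : ℝ) < N := by exact_mod_cast h
    rw [inv_mul_le_iff₀ h', mul_one]
    exact h1

/-- One sided averages of a general sequence. -/
theorem exc_seq [IsProbabilityMeasure μ] {φ : Fin (d + 1) → ℝ → Ω → Ω}
    (hφ : ∀ j, IsFlow μ (φ j))
    {u : ℕ → Ω → ℝ} (hu : ∀ n, Measurable (u n)) (hu1 : ∀ n x, |u n x| ≤ 1)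
    {c : Fin (d + 1) → Ω → ℝ} (hc : ∀ j, Cls1 μ (φ j) (c j))
    (j₀ : Fin (d + 1)) (hj₀ : Cls μ (φ j₀) (c j₀))
    {q : Fin (d + 1) → ℕ → ℝ} {a A : ℝ} {e : ℕ} (ha : 0 < a) (hq : GrowInc (q j₀) a A e)
    {A' : ℝ} {D : ℕ} (hqD : ∀ j n, |q j n| ≤ A' * ((n : ℝ) + 1) ^ D) :
    dimH {t : Fin (d + 1) → ℝ | ¬ ∀ᵐ x ∂μ, Tendsto (fun N : ℕ => (N : ℝ)⁻¹ *
        ∑ n ∈ range N, prodSeq φ u c q t n x) atTop (𝓝 0)}
      ≤ ENNReal.ofReal ((d : ℝ) + 1 - 1 / (2 * ((96 * D : ℕ) : ℝ) + 4)) := by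
  classical
  choose Lj hLj0 hLj using fun j => (hc j).lip
  set L : ℝ := ∑ j, Lj j with hLdef
  have hL : ∀ j, LipT (φ j) (c j) L := by
    intro j t x
    refine (hLj j t x).trans (mul_le_mul_of_nonneg_right ?_ (abs_nonneg _))
    exact Finset.single_le_sum (f := Lj) (fun i _ => hLj0 i) (Finset.mem_univ j)
  obtain ⟨S, hS⟩ := hj₀.dec
  have hcm : ∀ j, Measurable (c j) := fun j => (hc j).meas
  have hc1 : ∀ j x, |c j x| ≤ 1 := fun j x => (hc j).bd x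
  set Φ : (Fin (d + 1) → ℝ) → ℕ → Ω → ℝ := fun t r x =>
    ((((((r + 1) ^ 4) ^ 8) ^ 3 : ℕ) : ℝ))⁻¹ *
      ∑ n ∈ range ((((r + 1) ^ 4) ^ 8) ^ 3), prodSeq φ u c q t n x with hΦ
  have hΦm : ∀ t r, Measurable (Φ t r) := by
    intro t r
    refine Measurable.const_mul ?_ _
    refine Finset.measurable_fun_sum _ fun n _ => ?_
    exact (prodSeq_measurable hφ hu hcm q n).comp (measurable_const.prodMk measurable_id)
  have hΦ1 : ∀ t r x, |Φ t r x| ≤ 1 := fun t r x =>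
    avg_abs_le _ _ fun n => prodSeq_abs_le hu1 hc1 q t n x
  set G : ℕ → (Fin (d + 1) → ℝ) → ℝ := fun r t => ∫ x, (Φ t r x) ^ 2 ∂μ with hG
  have hdim := dim_le d (96 * D) G (fun r t => integral_nonneg fun x => sq_nonneg _)
    (2 * (d + 1) * L * A') ?_ ?_
  · refine (dimH_mono ?_).trans hdim
    intro t ht hev
    apply ht
    have h1 := ae_zero (μ := μ) (Φ t) (hΦm t) (hΦ1 t) hev
    filter_upwards [h1] with x hx
    refine fill 96 _ (fun n => prodSeq_abs_le hu1 hc1 q t n x) ?_ (by norm_num)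
    have e1 : ∀ r : ℕ, (((r + 1) ^ 4) ^ 8) ^ 3 = (r + 1) ^ 96 := fun r => by
      rw [← pow_mul, ← pow_mul]
    have e2 : (fun r : ℕ => ((((r + 1) ^ 96 : ℕ) : ℝ))⁻¹ *
        ∑ n ∈ range ((r + 1) ^ 96), prodSeq φ u c q t n x) = fun r => Φ t r x := by
      funext r
      simp only [hΦ]
      rw [e1]
    rw [e2]
    exact hx
  · intro r t t'
    have h1 := lip_second hφ hu hu1 hcm hc1 hL hqD ((((r + 1) ^ 4) ^ 8) ^ 3)
      (Nat.one_le_pow _ _ (Nat.pow_pos (Nat.pow_pos (Nat.succ_pos r)))) t t'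
    refine h1.trans (le_of_eq ?_)
    have e3 : ∀ b : ℝ, (((b ^ 4) ^ 8) ^ 3) ^ D = b ^ (96 * D) := by
      intro b
      rw [← pow_mul, ← pow_mul, ← pow_mul]
      congr 1
      ring
    push_cast
    rw [e3]
  · intro k
    obtain ⟨B, _, hB⟩ := box_le hφ hu hu1 hcm hc1 j₀ hS ha hq k
    refine ⟨B, fun r => ?_⟩
    have h1 := hB ((r + 1) ^ 4) (Nat.one_le_pow _ _ (Nat.succ_pos r))
    refine le_trans (le_of_eq ?_) (h1.trans (le_of_eq ?_))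
    · rfl
    · push_cast
      ring

/-- One sided averages along polynomials. -/
theorem exc_side [IsProbabilityMeasure μ] {φ : Fin (d + 1) → ℝ → Ω → Ω}
    (hφ : ∀ j, IsFlow μ (φ j)) {w : ℕ → ℤ → Ω → ℝ} (hw : ∀ a n, Measurable (w a n))
    (hw1 : ∀ a n x, |w a n x| ≤ 1)
    {c : Fin (d + 1) → Ω → ℝ} (hc : ∀ j, Cls1 μ (φ j) (c j))
    (j₀ : Fin (d + 1)) (hj₀ : Cls μ (φ j₀) (c j₀)) {D : ℕ}
    (P : Fin (d + 1) → Polynomial ℤ)
    (hP : ∀ j, 1 ≤ (P j).natDegree ∧ (P j).natDegree ≤ D) :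
    ∃ n₀ : ℕ, ∀ n₁ : ℕ, n₀ ≤ n₁ →
      dimH {t : Fin (d + 1) → ℝ | ¬ ∀ᵐ x ∂μ, Tendsto (fun N : ℕ => (N : ℝ)⁻¹ *
        ∑ n ∈ range N, (w n₁ n x *
          ∏ j, c j (φ j (t j * (((P j).eval ((n₁ : ℤ) + n) : ℤ) : ℝ)) x))) atTop (𝓝 0)}
      ≤ ENNReal.ofReal ((d : ℝ) + 1 - 1 / (2 * ((96 * D : ℕ) : ℝ) + 4)) := by
  classical
  obtain ⟨n₀, hn₀⟩ := grow_shift (P j₀) (hP j₀).1
  refine ⟨n₀, fun n₁ hn₁ => ?_⟩
  obtain ⟨a, A, ha, hq⟩ := hn₀ n₁ hn₁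
  choose A' hA'0 hA' using fun j => poly_bd (P j) (hP j).2 n₁
  refine exc_seq hφ (u := fun n x => w n₁ n x)
    (fun n => hw _ _) (fun n x => hw1 _ _ _) hc j₀ hj₀
    (q := fun j n => (((P j).eval ((n₁ : ℤ) + n) : ℤ) : ℝ)) ha hq (A' := ∑ j, A' j) (D := D) ?_
  intro j n
  refine (hA' j n).trans (mul_le_mul_of_nonneg_right ?_ (by positivity))
  exact Finset.single_le_sum (f := A') (fun i _ => hA'0 i) (Finset.mem_univ j)

/-- Two sided averages along polynomials, with arbitrary bounded weights. -/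
theorem exc_gen [IsProbabilityMeasure μ] {φ : Fin (d + 1) → ℝ → Ω → Ω}
    (hφ : ∀ j, IsFlow μ (φ j)) {w : ℤ → Ω → ℝ} (hw : ∀ n, Measurable (w n))
    (hw1 : ∀ n x, |w n x| ≤ 1)
    {c : Fin (d + 1) → Ω → ℝ} (hc : ∀ j, Cls1 μ (φ j) (c j))
    (j₀ : Fin (d + 1)) (hj₀ : Cls μ (φ j₀) (c j₀)) {D : ℕ}
    (P : Fin (d + 1) → Polynomial ℤ)
    (hP : ∀ j, 1 ≤ (P j).natDegree ∧ (P j).natDegree ≤ D) :
    dimH {t : Fin (d + 1) → ℝ | ¬ ∀ᵐ x ∂μ, Tendsto (fun N : ℕ => av (fun n =>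
        w n x * ∏ j, c j (φ j (t j * (((P j).eval n : ℤ) : ℝ)) x)) N) atTop (𝓝 0)}
      ≤ ENNReal.ofReal ((d : ℝ) + 1 - 1 / (2 * ((96 * D : ℕ) : ℝ) + 4)) := by
  classical
  obtain ⟨a₀, ha₀⟩ := exc_side hφ (w := fun a n => w ((a : ℤ) + n)) (fun a n => hw _)
    (fun a n x => hw1 _ _) hc j₀ hj₀ P hP
  obtain ⟨b₀, hb₀⟩ := exc_side hφ (w := fun a n => w (-((a : ℤ) + n))) (fun a n => hw _)
    (fun a n x => hw1 _ _) hc j₀ hj₀
    (fun j => (P j).comp (-Polynomial.X)) (fun j => by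
      rw [comp_neg_natDegree]
      exact hP j)
  have h1 := ha₀ (max a₀ b₀) (le_max_left _ _)
  have h2 := hb₀ (max a₀ b₀) (le_max_right _ _)
  set n₁ := max a₀ b₀
  refine (dimH_mono ?_).trans ((dimH_union _ _).trans_le (max_le h1 h2))
  intro t ht
  by_contra hcon
  rw [Set.mem_union, not_or] at hcon
  obtain ⟨h3, h4⟩ := hcon
  simp only [Set.mem_ofPred_eq, not_not] at h3 h4
  apply ht
  filter_upwards [h3, h4] with x hx1 hx2
  refine two_sided n₁ (fun n => w n x * ∏ j, c j (φ j (t j * (((P j).eval n : ℤ) : ℝ)) x)) 1 ?_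
    hx1 ?_
  · intro n
    rw [abs_mul, Finset.abs_prod]
    exact mul_le_one₀ (hw1 _ _) (Finset.prod_nonneg fun _ _ => abs_nonneg _)
      (Finset.prod_le_one (fun _ _ => abs_nonneg _) fun j _ => (hc j).bd _)
  · simp only [comp_neg_eval] at hx2
    exact hx2

end Pool.AET
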