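import Pool.Agent.AET.Ext
import Pool.Agent.AET.Exc
import Pool.Agent.AET.Dens

/-!
# Basic families of functions
-/

set_option autoImplicit false

open MeasureTheory Set Filter Topology Finset

namespace Pool.AET

variable {Ω : Type*} [MeasurableSpace Ω] {μ : Measure Ω} {d : ℕ}

theorem countable_poly : Countable (Polynomial ℤ) := by
  apply Cardinal.mk_le_aleph0_iff.1
  refine Polynomial.cardinalMk_le_max.trans ?_
  simp

/-- Truncation. -/
noncomputable def clip (K y : ℝ) : ℝ := max (-K) (min y K)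

theorem clip_abs_le {K : ℝ} (hK : 0 ≤ K) (y : ℝ) : |clip K y| ≤ K := by
  unfold clip
  rw [abs_le]
  exact ⟨le_max_left _ _, max_le (by linarith) (min_le_right _ _)⟩

theorem clip_eq {K y : ℝ} (h : |y| ≤ K) : clip K y = y := by
  unfold clip
  rw [abs_le] at h
  rw [min_eq_left h.2, max_eq_right h.1]

theorem sub_clip_abs_le {K : ℝ} (hK : 0 ≤ K) (y : ℝ) : |y - clip K y| ≤ |y| := by
  by_cases h : |y| ≤ K
  · rw [clip_eq h]
    simp
  · unfold clip
    rw [not_le] at h
    rcases le_total 0 y with hy | hy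
    · rw [abs_of_nonneg hy] at h
      rw [min_eq_right h.le, max_eq_right (by linarith), abs_of_nonneg hy,
        abs_of_nonneg (by linarith)]
      linarith
    · rw [abs_of_nonpos hy] at h
      rw [min_eq_left (by linarith), max_eq_left (by linarith), abs_of_nonpos hy,
        abs_of_nonpos (by linarith)]
      linarith

theorem clip_measurable (K : ℝ) {g : Ω → ℝ} (hg : Measurable g) :
    Measurable (fun x => clip K (g x)) :=
  measurable_const.max (hg.min measurable_const)

theorem trunc_dens {g : Ω → ℝ} (hg : Measurable g) (hL : MemLp g 2 μ) {ε : ℝ} (hε : 0 < ε) :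
    ∃ K : ℝ, 0 < K ∧ ∫ x, (g x - clip K (g x)) ^ 2 ∂μ ≤ ε := by
  have hlim : Tendsto (fun n : ℕ => ∫ x, (g x - clip ((n : ℝ) + 1) (g x)) ^ 2 ∂μ) atTop
      (𝓝 (∫ _, (0 : ℝ) ∂μ)) := by
    refine tendsto_integral_of_dominated_convergence (fun x => (g x) ^ 2) ?_ hL.integrable_sq ?_ ?_
    · intro n
      exact ((hg.sub (clip_measurable _ hg)).pow_const 2).aestronglyMeasurable
    · intro n
      refine Filter.Eventually.of_forall fun x => ?_
      rw [Real.norm_eq_abs, abs_pow, ← sq_abs (g x)]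
      exact pow_le_pow_left₀ (abs_nonneg _) (sub_clip_abs_le (by positivity) _) 2
    · refine Filter.Eventually.of_forall fun x => ?_
      obtain ⟨n₀, hn₀⟩ := exists_nat_ge (|g x|)
      refine tendsto_const_nhds.congr' ?_
      filter_upwards [eventually_ge_atTop n₀] with n hn
      have : |g x| ≤ (n : ℝ) + 1 := by
        have : (n₀ : ℝ) ≤ n := by exact_mod_cast hn
        linarith
      rw [clip_eq this]
      simp
  rw [integral_zero] at hlim
  obtain ⟨n, hn⟩ := (hlim.eventually_lt_const hε).exists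
  exact ⟨(n : ℝ) + 1, by positivity, hn.le⟩

/-- The basic functions of a flow. -/
def Kf (μ : Measure Ω) (φ : ℝ → Ω → Ω) (H : Set (Ω → ℝ)) (k : Ω → ℝ) : Prop :=
  k ∈ H ∨ (Measurable k ∧ (∀ x, |k x| ≤ 1) ∧ ∀ t, (fun x => k (φ t x)) =ᵐ[μ] k)

theorem Kf_dens [IsProbabilityMeasure μ] {φ : ℝ → Ω → Ω} {H : Set (Ω → ℝ)}
    (hH : ∀ c ∈ H, Cls μ φ c)
    (hd : ∀ f : Ω → ℝ, MemLp f 2 μ → ∀ ε : ℝ, 0 < ε →
        ∃ (n : ℕ) (r : Fin n → ℝ) (c : Fin n → Ω → ℝ) (g : Ω → ℝ),
          (∀ i, c i ∈ H) ∧ Measurable g ∧ MemLp g 2 μ ∧ (∀ t, (fun x => g (φ t x)) =ᵐ[μ] g) ∧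
          ∫ x, (f x - ∑ i, r i * c i x - g x) ^ 2 ∂μ ≤ ε)
    (f : Ω → ℝ) (hf : Measurable f) (hfB : ∃ B : ℝ, ∀ x, |f x| ≤ B) (ε : ℝ) (hε : 0 < ε) :
    ∃ (m : ℕ) (r : Fin m → ℝ) (k : Fin m → Ω → ℝ), (∀ l, Kf μ φ H (k l)) ∧
      ∫ x, (f x - ∑ l, r l * k l x) ^ 2 ∂μ ≤ ε := by
  obtain ⟨B, hB⟩ := hfB
  have hfL : MemLp f 2 μ := MemLp.of_bound hf.aestronglyMeasurable B
    (Filter.Eventually.of_forall fun x => by simpa using hB x)
  obtain ⟨n, r, c, g, hc, hgm, hgL, hginv, hint⟩ := hd f hfL (ε / 4) (by positivity)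
  obtain ⟨K, hK, hK2⟩ := trunc_dens hgm hgL (show 0 < ε / 4 by positivity)
  refine ⟨n + 1, Fin.cons K r, Fin.cons (fun x => K⁻¹ * clip K (g x)) c, ?_, ?_⟩
  · intro l
    refine Fin.cases ?_ (fun i => ?_) l
    · right
      rw [Fin.cons_zero]
      refine ⟨(clip_measurable K hgm).const_mul _, fun x => ?_, fun t => ?_⟩
      · rw [abs_mul, abs_inv, abs_of_pos hK, inv_mul_le_iff₀ hK, mul_one]
        exact clip_abs_le hK.le _
      · filter_upwards [hginv t] with x hx
        have hx' : g (φ t x) = g x := hx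
        show K⁻¹ * clip K (g (φ t x)) = K⁻¹ * clip K (g x)
        rw [hx']
    · left
      rw [Fin.cons_succ]
      exact hc i
  · have e1 : ∀ x, f x - ∑ l : Fin (n + 1), (Fin.cons K r : Fin (n + 1) → ℝ) l
        * (Fin.cons (fun x => K⁻¹ * clip K (g x)) c : Fin (n + 1) → Ω → ℝ) l x
        = (f x - ∑ i, r i * c i x - g x) + (g x - clip K (g x)) := by
      intro x
      rw [Fin.sum_univ_succ]
      simp only [Fin.cons_zero, Fin.cons_succ]
      rw [mul_inv_cancel_left₀ hK.ne']
      ring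
    simp_rw [e1]
    have hsm : Measurable (fun x => ∑ i, r i * c i x) := by
      refine Finset.measurable_fun_sum _ fun l _ => ?_
      exact (hH _ (hc l)).meas.const_mul _
    have hsb : ∀ x, |∑ i, r i * c i x| ≤ ∑ i, |r i| := by
      intro x
      refine (Finset.abs_sum_le_sum_abs _ _).trans (Finset.sum_le_sum fun l _ => ?_)
      rw [abs_mul]
      have := (hH _ (hc l)).bd x
      have h2 := mul_le_mul_of_nonneg_left this (abs_nonneg (r l))
      linarith
    have hsL : MemLp (fun x => ∑ i, r i * c i x) 2 μ :=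
      MemLp.of_bound hsm.aestronglyMeasurable (∑ i, |r i|)
        (Filter.Eventually.of_forall fun x => by simpa using hsb x)
    have hu : MemLp (fun x => f x - ∑ i, r i * c i x - g x) 2 μ := (hfL.sub hsL).sub hgL
    have hv : MemLp (fun x => g x - clip K (g x)) 2 μ := by
      refine hgL.mono (hgm.sub (clip_measurable _ hgm)).aestronglyMeasurable ?_
      refine Filter.Eventually.of_forall fun x => ?_
      rw [Real.norm_eq_abs, Real.norm_eq_abs]
      exact sub_clip_abs_le hK.le _
    have e2 : ∀ x, ((f x - ∑ i, r i * c i x - g x) + (g x - clip K (g x))) ^ 2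
        ≤ 2 * (f x - ∑ i, r i * c i x - g x) ^ 2 + 2 * (g x - clip K (g x)) ^ 2 := by
      intro x
      nlinarith [sq_nonneg ((f x - ∑ i, r i * c i x - g x) - (g x - clip K (g x)))]
    have i1 : Integrable (fun x => 2 * (f x - ∑ i, r i * c i x - g x) ^ 2) μ :=
      hu.integrable_sq.const_mul 2
    have i2 : Integrable (fun x => 2 * (g x - clip K (g x)) ^ 2) μ :=
      hv.integrable_sq.const_mul 2
    calc ∫ x, ((f x - ∑ i, r i * c i x - g x) + (g x - clip K (g x))) ^ 2 ∂μ
        ≤ ∫ x, (2 * (f x - ∑ i, r i * c i x - g x) ^ 2 + 2 * (g x - clip K (g x)) ^ 2) ∂μ :=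
          integral_mono (hu.add hv).integrable_sq (i1.add i2) e2
      _ = 2 * (∫ x, (f x - ∑ i, r i * c i x - g x) ^ 2 ∂μ)
          + 2 * ∫ x, (g x - clip K (g x)) ^ 2 ∂μ := by
          rw [integral_add i1 i2, integral_const_mul, integral_const_mul]
      _ ≤ ε := by linarith

theorem Kf_prop {φ : ℝ → Ω → Ω} {H : Set (Ω → ℝ)} (hH : ∀ c ∈ H, Cls μ φ c) {k : Ω → ℝ}
    (hk : Kf μ φ H k) : Measurable k ∧ ∀ x, |k x| ≤ 1 := by
  rcases hk with h | h
  · exact ⟨(hH k h).meas, (hH k h).bd⟩
  · exact ⟨h.1, h.2.1⟩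

theorem basic_conv {φ : Fin (d + 1) → ℝ → Ω → Ω} (s : Fin (d + 1) → ℤ → ℝ)
    (H : Fin (d + 1) → Set (Ω → ℝ)) (hH : ∀ j, ∀ c ∈ H j, Cls μ (φ j) c)
    {w : ℤ → Ω → ℝ} (hw1 : ∀ n x, |w n x| ≤ 1)
    (hgood : ∀ c : Fin (d + 1) → Ω → ℝ,
      (∀ j, c j ∈ insert (fun _ => (1 : ℝ)) (H j)) → (∃ j₀, c j₀ ∈ H j₀) →
      ∀ᵐ x ∂μ, Tendsto (fun N : ℕ => av (fun n => w n x * ∏ j, c j (φ j (s j n) x)) N)
        atTop (𝓝 0))
    (hgood1 : ∀ j, ∀ c ∈ H j, ∀ᵐ x ∂μ,
      Tendsto (fun N : ℕ => av (fun n => c (φ j (s j n) x)) N) atTop (𝓝 0))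
    {f : Fin (d + 1) → Ω → ℝ} (hf : ∀ j, Kf μ (φ j) (H j) (f j)) :
    ∀ᵐ x ∂μ, Tendsto (fun N : ℕ => av (fun n => w n x * ∏ j, f j (φ j (s j n) x)) N
        - av (fun n => w n x) N * ∏ j, av (fun n => f j (φ j (s j n) x)) N) atTop (𝓝 0) := by
  classical
  set c : Fin (d + 1) → Ω → ℝ := fun j => if f j ∈ H j then f j else fun _ => 1 with hc
  set g : Fin (d + 1) → Ω → ℝ := fun j => if f j ∈ H j then (fun _ => 1) else f j with hg
  have hcg : ∀ j y, f j y = c j y * g j y := by
    intro j y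
    simp only [hc, hg]
    split_ifs <;> simp
  have hc1 : ∀ j y, |c j y| ≤ 1 := by
    intro j y
    simp only [hc]
    split_ifs with h
    · exact (hH j _ h).bd y
    · simp
  have hcmem : ∀ j, c j ∈ insert (fun _ => (1 : ℝ)) (H j) := by
    intro j
    simp only [hc]
    split_ifs with h
    · exact Set.mem_insert_of_mem _ h
    · exact Set.mem_insert _ _
  have hginv : ∀ j (n : ℤ), ∀ᵐ x ∂μ, g j (φ j (s j n) x) = g j x := by
    intro j n
    simp only [hg]
    split_ifs with h
    · exact Filter.Eventually.of_forall fun _ => rfl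
    · rcases hf j with h2 | h2
      · exact absurd h2 h
      · exact h2.2.2 _
  have hginv' : ∀ᵐ x ∂μ, ∀ j (n : ℤ), g j (φ j (s j n) x) = g j x :=
    ae_all_iff.2 fun j => ae_all_iff.2 fun n => hginv j n
  have hfact : ∀ᵐ x ∂μ, ∀ N : ℕ, av (fun n => w n x * ∏ j, f j (φ j (s j n) x)) N
        - av (fun n => w n x) N * ∏ j, av (fun n => f j (φ j (s j n) x)) N
        = (∏ j, g j x) * (av (fun n => w n x * ∏ j, c j (φ j (s j n) x)) N
        - av (fun n => w n x) N * ∏ j, av (fun n => c j (φ j (s j n) x)) N) := by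
    filter_upwards [hginv'] with x hx
    intro N
    rw [mul_sub]
    congr 1
    · rw [← av_const_mul]
      congr 1
      funext n
      have : ∏ j, f j (φ j (s j n) x) = (∏ j, c j (φ j (s j n) x)) * ∏ j, g j x := by
        rw [← Finset.prod_mul_distrib]
        refine Finset.prod_congr rfl fun j _ => ?_
        rw [hcg, hx j n]
      rw [this]
      ring
    · have : ∏ j, av (fun n => f j (φ j (s j n) x)) N
          = (∏ j, g j x) * ∏ j, av (fun n => c j (φ j (s j n) x)) N := by
        rw [← Finset.prod_mul_distrib]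
        refine Finset.prod_congr rfl fun j _ => ?_
        rw [← av_const_mul]
        congr 1
        funext n
        rw [hcg, hx j n]
        ring
      rw [this]
      ring
  by_cases hex : ∃ j₀, f j₀ ∈ H j₀
  · obtain ⟨j₀, hj₀⟩ := hex
    have hcj₀ : c j₀ ∈ H j₀ := by
      simp only [hc]
      rw [if_pos hj₀]
      exact hj₀
    filter_upwards [hfact, hgood c hcmem ⟨j₀, hcj₀⟩, hgood1 j₀ _ hcj₀] with x hx0 hx1 hx2
    simp_rw [hx0]
    have hsecond : Tendsto (fun N : ℕ => av (fun n => w n x) N *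
          ∏ j, av (fun n => c j (φ j (s j n) x)) N) atTop (𝓝 0) := by
      apply squeeze_zero_norm _ (by simpa using hx2.abs)
      intro N
      rw [Real.norm_eq_abs, abs_mul, Finset.abs_prod,
        ← Finset.mul_prod_erase Finset.univ _ (Finset.mem_univ j₀)]
      have b1 : |av (fun n => w n x) N| ≤ 1 := abs_av_le_const (fun n => hw1 _ _) N
      have b2 : ∏ j ∈ Finset.univ.erase j₀, |av (fun n => c j (φ j (s j n) x)) N| ≤ 1 :=
        Finset.prod_le_one (fun _ _ => abs_nonneg _) fun j _ =>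
          abs_av_le_const (fun n => hc1 _ _) N
      have b3 : 0 ≤ ∏ j ∈ Finset.univ.erase j₀, |av (fun n => c j (φ j (s j n) x)) N| :=
        Finset.prod_nonneg fun _ _ => abs_nonneg _
      set X := |av (fun n => c j₀ (φ j₀ (s j₀ n) x)) N| with hX
      have hX0 : 0 ≤ X := abs_nonneg _
      calc _ ≤ 1 * (X * 1) := by
            apply mul_le_mul b1 _ (by positivity) zero_le_one
            exact mul_le_mul_of_nonneg_left b2 hX0
        _ = X := by ring
    have := (hx1.sub hsecond).const_mul (∏ j, g j x)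
    simpa using this
  · have hc' : ∀ j, c j = fun _ => 1 := by
      intro j
      simp only [hc]
      rw [if_neg]
      intro h
      exact hex ⟨j, h⟩
    filter_upwards [hfact] with x hx0
    simp_rw [hx0, hc']
    simp [av_const]

/-- The average of the products minus the average of the first product times the product of the
averages. -/
noncomputable def Dl2 {κ J : Type*} [Fintype κ] [Fintype J] (τ : κ ⊕ J → ℤ → Ω → Ω)
    (f : κ ⊕ J → Ω → ℝ) (N : ℕ) (x : Ω) : ℝ :=
  av (fun n => (∏ k, f (Sum.inl k) (τ (Sum.inl k) n x)) *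
      ∏ j, f (Sum.inr j) (τ (Sum.inr j) n x)) N
    - av (fun n => ∏ k, f (Sum.inl k) (τ (Sum.inl k) n x)) N *
      ∏ j, av (fun n => f (Sum.inr j) (τ (Sum.inr j) n x)) N

omit [MeasurableSpace Ω] in
theorem rep_Dl2 {κ J : Type*} [Fintype κ] [Fintype J] [DecidableEq κ] [DecidableEq J]
    (τ : κ ⊕ J → ℤ → Ω → Ω) : Rep τ (Dl2 τ) := by
  intro f a N x
  have hp : ∀ {I : Type _} (s : Finset I) (g : I → ℝ) (B : ℝ), (∀ i, |g i| ≤ B) →
      |∏ i ∈ s, g i| ≤ B ^ s.card := by
    intro I s g B hg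
    rw [Finset.abs_prod]
    calc ∏ i ∈ s, |g i| ≤ ∏ i ∈ s, B :=
          Finset.prod_le_prod (fun _ _ => abs_nonneg _) fun i _ => hg i
      _ = B ^ s.card := by rw [Finset.prod_const]
  have hp2 : ∀ {I : Type _} (s : Finset I) (g : I → ℝ) (B : ℝ), (∀ i, |g i| ≤ B) →
      |∏ i ∈ s, g i| ≤ B ^ s.card := by
    intro I s g B hg
    rw [Finset.abs_prod]
    calc ∏ i ∈ s, |g i| ≤ ∏ i ∈ s, B :=
          Finset.prod_le_prod (fun _ _ => abs_nonneg _) fun i _ => hg i
      _ = B ^ s.card := by rw [Finset.prod_const]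
  rcases a with k₀ | j₀
  · refine ⟨fun n => (∏ k ∈ Finset.univ.erase k₀, f (Sum.inl k) (τ (Sum.inl k) n x)) *
        ∏ j, f (Sum.inr j) (τ (Sum.inr j) n x),
      fun n => ∏ k ∈ Finset.univ.erase k₀, f (Sum.inl k) (τ (Sum.inl k) n x),
      ∏ j, av (fun n => f (Sum.inr j) (τ (Sum.inr j) n x)) N, ?_, ?_⟩
    · intro v
      have e1 : ∀ n, ∏ k, Function.update f (Sum.inl k₀) v (Sum.inl k) (τ (Sum.inl k) n x)
          = v (τ (Sum.inl k₀) n x) *
            ∏ k ∈ Finset.univ.erase k₀, f (Sum.inl k) (τ (Sum.inl k) n x) := by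
        intro n
        rw [← Finset.mul_prod_erase Finset.univ _ (Finset.mem_univ k₀), Function.update_self]
        congr 1
        refine Finset.prod_congr rfl fun k hk => ?_
        rw [Function.update_of_ne (fun h => Finset.ne_of_mem_erase hk (Sum.inl_injective h))]
      have e2 : ∀ j, Function.update f (Sum.inl k₀) v (Sum.inr j) = f (Sum.inr j) := fun j =>
        Function.update_of_ne (by simp) _ _
      unfold Dl2
      simp_rw [e1, e2, mul_assoc]
    · intro B hB hf
      have hB0 : 0 ≤ B := by linarith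
      have hcard : (Finset.univ.erase k₀).card + Fintype.card J ≤ Fintype.card (κ ⊕ J) := by
        rw [Fintype.card_sum]
        have : (Finset.univ.erase k₀).card ≤ Fintype.card κ :=
          (Finset.card_le_card (Finset.erase_subset _ _)).trans (le_of_eq Finset.card_univ)
        omega
      have hkey : ∀ (n : ℤ) (V : ℝ), |V| ≤ B ^ (Fintype.card J) →
          |(∏ k ∈ Finset.univ.erase k₀, f (Sum.inl k) (τ (Sum.inl k) n x)) * V|
            ≤ B ^ (Fintype.card (κ ⊕ J)) := by
        intro n V hV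
        rw [abs_mul]
        calc _ ≤ B ^ (Finset.univ.erase k₀).card * B ^ (Fintype.card J) :=
              mul_le_mul (hp _ _ B fun k => hf _ _) hV (abs_nonneg _) (by positivity)
          _ = B ^ ((Finset.univ.erase k₀).card + Fintype.card J) := by rw [pow_add]
          _ ≤ _ := pow_le_pow_right₀ hB hcard
      refine ⟨fun n => hkey n _ ?_, fun n => hkey n _ ?_⟩
      · have := hp2 Finset.univ (fun j => f (Sum.inr j) (τ (Sum.inr j) n x)) B fun j => hf _ _
        rwa [Finset.card_univ] at this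
      · have := hp2 Finset.univ (fun j => av (fun n => f (Sum.inr j) (τ (Sum.inr j) n x)) N) B
          fun j => abs_av_le_const (fun n => hf _ _) N
        rwa [Finset.card_univ] at this
  · refine ⟨fun n => (∏ k, f (Sum.inl k) (τ (Sum.inl k) n x)) *
        ∏ j ∈ Finset.univ.erase j₀, f (Sum.inr j) (τ (Sum.inr j) n x),
      fun n => 1,
      av (fun n => ∏ k, f (Sum.inl k) (τ (Sum.inl k) n x)) N *
        ∏ j ∈ Finset.univ.erase j₀, av (fun n => f (Sum.inr j) (τ (Sum.inr j) n x)) N, ?_, ?_⟩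
    · intro v
      have e1 : ∀ n, ∏ j, Function.update f (Sum.inr j₀) v (Sum.inr j) (τ (Sum.inr j) n x)
          = v (τ (Sum.inr j₀) n x) *
            ∏ j ∈ Finset.univ.erase j₀, f (Sum.inr j) (τ (Sum.inr j) n x) := by
        intro n
        rw [← Finset.mul_prod_erase Finset.univ _ (Finset.mem_univ j₀), Function.update_self]
        congr 1
        refine Finset.prod_congr rfl fun k hk => ?_
        rw [Function.update_of_ne (fun h => Finset.ne_of_mem_erase hk (Sum.inr_injective h))]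
      have e3 : ∏ j, av (fun n => Function.update f (Sum.inr j₀) v (Sum.inr j)
            (τ (Sum.inr j) n x)) N
          = av (fun n => v (τ (Sum.inr j₀) n x)) N *
            ∏ j ∈ Finset.univ.erase j₀, av (fun n => f (Sum.inr j) (τ (Sum.inr j) n x)) N := by
        rw [← Finset.mul_prod_erase Finset.univ _ (Finset.mem_univ j₀), Function.update_self]
        congr 1
        refine Finset.prod_congr rfl fun k hk => ?_
        rw [Function.update_of_ne (fun h => Finset.ne_of_mem_erase hk (Sum.inr_injective h))]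
      have e2 : ∀ k, Function.update f (Sum.inr j₀) v (Sum.inl k) = f (Sum.inl k) := fun k =>
        Function.update_of_ne (by simp) _ _
      unfold Dl2
      rw [e3]
      simp_rw [e1, e2, mul_one]
      congr 1
      · congr 1
        funext n
        ring
      · ring
    · intro B hB hf
      have hB0 : 0 ≤ B := by linarith
      have hcard : Fintype.card κ + (Finset.univ.erase j₀).card ≤ Fintype.card (κ ⊕ J) := by
        rw [Fintype.card_sum]
        have : (Finset.univ.erase j₀).card ≤ Fintype.card J :=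
          (Finset.card_le_card (Finset.erase_subset _ _)).trans (le_of_eq Finset.card_univ)
        omega
      have hkey : ∀ (U V : ℝ), |U| ≤ B ^ (Fintype.card κ) →
          |V| ≤ B ^ (Finset.univ.erase j₀).card → |U * V| ≤ B ^ (Fintype.card (κ ⊕ J)) := by
        intro U V hU hV
        rw [abs_mul]
        calc _ ≤ B ^ (Fintype.card κ) * B ^ (Finset.univ.erase j₀).card :=
              mul_le_mul hU hV (abs_nonneg _) (by positivity)
          _ = B ^ (Fintype.card κ + (Finset.univ.erase j₀).card) := by rw [pow_add]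
          _ ≤ _ := pow_le_pow_right₀ hB hcard
      have hU : ∀ n, |∏ k, f (Sum.inl k) (τ (Sum.inl k) n x)| ≤ B ^ (Fintype.card κ) := by
        intro n
        have := hp Finset.univ (fun k => f (Sum.inl k) (τ (Sum.inl k) n x)) B fun k => hf _ _
        rwa [Finset.card_univ] at this
      refine ⟨fun n => hkey _ _ (hU n) ?_, fun n => ?_⟩
      · exact hp2 _ _ B fun j => hf _ _
      · rw [one_mul]
        refine hkey _ _ (abs_av_le_const hU N) ?_
        exact hp2 _ _ B fun j => abs_av_le_const (fun n => hf _ _) N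

end Pool.AET
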