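import Mathlib

/-!
# A harmonic double sum
-/

set_option autoImplicit false

open Finset

namespace Pool.AET

theorem harm_le (K : ℕ) : ∑ k ∈ range K, (1 : ℝ) / ((k : ℝ) + 1) ≤ 2 * Real.sqrt K := by
  induction K with
  | zero => simp
  | succ K ih =>
    rw [Finset.sum_range_succ]
    have h1 : (0 : ℝ) ≤ K := Nat.cast_nonneg K
    have ha : Real.sqrt K ^ 2 = K := Real.sq_sqrt h1
    have hb : Real.sqrt ((K : ℝ) + 1) ^ 2 = K + 1 := Real.sq_sqrt (by linarith)
    have ha0 : 0 ≤ Real.sqrt K := Real.sqrt_nonneg _
    have hb1 : 1 ≤ Real.sqrt ((K : ℝ) + 1) := Real.one_le_sqrt.2 (by linarith)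
    have hab : Real.sqrt K ≤ Real.sqrt ((K : ℝ) + 1) := Real.sqrt_le_sqrt (by linarith)
    push_cast
    set a := Real.sqrt K
    set b := Real.sqrt ((K : ℝ) + 1)
    have h2 : (1 : ℝ) / ((K : ℝ) + 1) ≤ 2 * (b - a) := by
      rw [div_le_iff₀ (by linarith)]
      have h3 : (b - a) * (b + a) = 1 := by nlinarith
      have h4 : 0 ≤ b - a := by linarith
      have h5 : b + a ≤ 2 * ((K : ℝ) + 1) := by nlinarith
      nlinarith
    linarith

theorem harm_side (K k : ℕ) :
    ∑ l ∈ range K, (if k = l then (0 : ℝ) else 1 / |(k : ℝ) - l|)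
      ≤ 2 * ∑ m ∈ range (max K k), (1 : ℝ) / ((m : ℝ) + 1) := by
  have h1 : ∀ l ∈ range K, (if k = l then (0 : ℝ) else 1 / |(k : ℝ) - l|)
      ≤ (if l < k then 1 / ((k : ℝ) - l) else 0) + (if k < l then 1 / ((l : ℝ) - k) else 0) := by
    intro l _
    rcases lt_trichotomy l k with h | h | h
    · have h' : (l : ℝ) < k := by exact_mod_cast h
      rw [if_neg (by omega), if_pos h, if_neg (by omega), abs_of_pos (by linarith)]
      simp
    · subst h
      simp
    · have h' : (k : ℝ) < l := by exact_mod_cast h
      rw [if_neg (by omega), if_neg (by omega), if_pos h, abs_of_neg (by linarith)]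
      simp
  refine (Finset.sum_le_sum h1).trans ?_
  rw [Finset.sum_add_distrib, two_mul]
  refine add_le_add ?_ ?_
  · rw [← Finset.sum_filter]
    have hinj : ∀ x ∈ (range K).filter (fun l => l < k), ∀ y ∈ (range K).filter (fun l => l < k),
        k - 1 - x = k - 1 - y → x = y := by
      intro x hx y hy hxy
      simp only [mem_filter, mem_range] at hx hy
      omega
    have h2 : ∑ l ∈ (range K).filter (fun l => l < k), 1 / ((k : ℝ) - l)
        = ∑ m ∈ ((range K).filter (fun l => l < k)).image (fun l => k - 1 - l),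
            (1 : ℝ) / ((m : ℝ) + 1) := by
      rw [Finset.sum_image hinj]
      refine Finset.sum_congr rfl fun l hl => ?_
      simp only [mem_filter, mem_range] at hl
      have : ((k - 1 - l : ℕ) : ℝ) + 1 = (k : ℝ) - l := by
        have h3 : (k - 1 - l) + 1 + l = k := by omega
        have h4 : (((k - 1 - l) + 1 + l : ℕ) : ℝ) = k := by rw [h3]
        push_cast at h4
        linarith
      rw [this]
    rw [h2]
    refine Finset.sum_le_sum_of_subset_of_nonneg ?_ fun m _ _ => by positivity
    intro m hm
    simp only [mem_image, mem_filter, mem_range] at hm ⊢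
    obtain ⟨l, hl, rfl⟩ := hm
    have := le_max_right K k
    omega
  · rw [← Finset.sum_filter]
    have hinj : ∀ x ∈ (range K).filter (fun l => k < l), ∀ y ∈ (range K).filter (fun l => k < l),
        x - k - 1 = y - k - 1 → x = y := by
      intro x hx y hy hxy
      simp only [mem_filter, mem_range] at hx hy
      omega
    have h2 : ∑ l ∈ (range K).filter (fun l => k < l), 1 / ((l : ℝ) - k)
        = ∑ m ∈ ((range K).filter (fun l => k < l)).image (fun l => l - k - 1),
            (1 : ℝ) / ((m : ℝ) + 1) := by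
      rw [Finset.sum_image hinj]
      refine Finset.sum_congr rfl fun l hl => ?_
      simp only [mem_filter, mem_range] at hl
      have : ((l - k - 1 : ℕ) : ℝ) + 1 = (l : ℝ) - k := by
        have h3 : (l - k - 1) + 1 + k = l := by omega
        have h4 : (((l - k - 1) + 1 + k : ℕ) : ℝ) = l := by rw [h3]
        push_cast at h4
        linarith
      rw [this]
    rw [h2]
    refine Finset.sum_le_sum_of_subset_of_nonneg ?_ fun m _ _ => by positivity
    intro m hm
    simp only [mem_image, mem_filter, mem_range] at hm ⊢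
    obtain ⟨l, hl, rfl⟩ := hm
    have := le_max_left K k
    omega

theorem harm_two (K : ℕ) :
    ∑ k ∈ range K, ∑ l ∈ range K, (if k = l then (0 : ℝ) else 1 / |(k : ℝ) - l|)
      ≤ 4 * K * Real.sqrt K := by
  have h1 : ∀ k ∈ range K, ∑ l ∈ range K, (if k = l then (0 : ℝ) else 1 / |(k : ℝ) - l|)
      ≤ 4 * Real.sqrt K := by
    intro k hk
    have h2 := harm_side K k
    have h3 : max K k = K := max_eq_left (Finset.mem_range.1 hk).le
    rw [h3] at h2
    have h4 := harm_le K
    linarith
  refine (Finset.sum_le_sum h1).trans ?_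
  rw [Finset.sum_const, Finset.card_range, nsmul_eq_mul]
  apply le_of_eq
  ring

end Pool.AET
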