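import Pool.Agent.AET.SqCorr
import Pool.Agent.AET.Harm

/-!
# The block estimate
-/

set_option autoImplicit false

open MeasureTheory Set Finset

namespace Pool.AET

theorem cs_bd {X : Type*} [MeasurableSpace X] {κ : Measure X} [IsFiniteMeasure κ] {F : X → ℝ}
    (hF : Measurable F) (C : ℝ) (hC : ∀ x, |F x| ≤ C) :
    (∫ x, |F x| ∂κ) ^ 2 ≤ κ.real univ * ∫ x, (F x) ^ 2 ∂κ := by
  set m := κ.real univ with hm
  set I := ∫ x, |F x| ∂κ with hI
  have hI1 : Integrable (fun x => |F x|) κ := integrable_bd hF.abs C (fun x => by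
    rw [abs_abs]
    exact hC x)
  have hI2 : Integrable (fun x => (F x) ^ 2) κ := integrable_bd (hF.pow_const 2) (C ^ 2)
    (fun x => by
      rw [abs_pow]
      exact pow_le_pow_left₀ (abs_nonneg _) (hC x) 2)
  have key : ∀ s : ℝ, 0 ≤ (∫ x, (F x) ^ 2 ∂κ) - 2 * s * I + m * s ^ 2 := by
    intro s
    have h1 : 0 ≤ ∫ x, (|F x| - s) ^ 2 ∂κ := integral_nonneg fun x => sq_nonneg _
    have h2 : ∫ x, (|F x| - s) ^ 2 ∂κ = (∫ x, (F x) ^ 2 ∂κ) - 2 * s * I + m * s ^ 2 := by
      have h3 : ∀ x, (|F x| - s) ^ 2 = ((F x) ^ 2 - 2 * s * |F x|) + s ^ 2 := by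
        intro x
        have := sq_abs (F x)
        nlinarith
      simp_rw [h3]
      have i1 : Integrable (fun x => 2 * s * |F x|) κ := hI1.const_mul _
      have i2 : Integrable (fun x => (F x) ^ 2 - 2 * s * |F x|) κ := hI2.sub i1
      rw [integral_add i2 (integrable_const _), integral_sub hI2 i1, integral_const_mul,
        integral_const, smul_eq_mul]
    rw [← h2]
    exact h1
  rcases eq_or_lt_of_le (measureReal_nonneg : 0 ≤ κ.real univ) with h0 | h0
  · rw [← hm] at h0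
    have hκ : κ univ = 0 := by
      have := (measureReal_eq_zero_iff (μ := κ) (s := univ)).1 h0.symm
      exact this
    have hκ' : κ = 0 := Measure.measure_univ_eq_zero.1 hκ
    have : I = 0 := by
      rw [hI, hκ']
      simp
    rw [this, ← h0]
    simp
  · have h4 := key (I / m)
    have h5 : (∫ x, (F x) ^ 2 ∂κ) - 2 * (I / m) * I + m * (I / m) ^ 2
        = (∫ x, (F x) ^ 2 ∂κ) - I ^ 2 / m := by
      have : m ≠ 0 := h0.ne'
      field_simp
      ring
    rw [h5] at h4
    have h6 : I ^ 2 / m ≤ ∫ x, (F x) ^ 2 ∂κ := by linarith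
    rw [div_le_iff₀ h0] at h6
    linarith

variable {Ω : Type*} [MeasurableSpace Ω] {μ : Measure Ω} {φ : ℝ → Ω → Ω}

/-- The second moment of the sum over the block. -/
theorem block_sq [IsProbabilityMeasure μ] (h : IsFlow μ φ) {f : Ω → ℝ} (hf : Measurable f)
    (hf1 : ∀ x, |f x| ≤ 1) {S : ℝ} (hS : Dec μ φ f S) (q : ℕ → ℝ) (K : ℕ) {c : ℝ}
    (hc : 0 < c) (hsep : ∀ k < K, ∀ l < K, c * |(k : ℝ) - l| ≤ |q k - q l|) :
    ∫ g in Icc (-1 : ℝ) 1, ∫ x, (∑ k ∈ range K, f (φ (g * q k) x)) ^ 2 ∂μ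
      ≤ 2 * K + 4 * (S / c) * K * Real.sqrt K := by
  have hS0 : 0 ≤ S := by
    have := hS 1 one_ne_zero
    have h2 := (abs_nonneg _).trans this
    simpa using h2
  have hmk : ∀ k, Measurable (fun z : ℝ × Ω => f (φ (z.1 * q k) z.2)) := fun k =>
    h.meas_comp hf (by fun_prop) measurable_snd
  have hmg : ∀ (g : ℝ) k, Measurable (fun x : Ω => f (φ (g * q k) x)) := fun g k =>
    h.meas_comp hf measurable_const measurable_id
  have hb : ∀ (g : ℝ) k l x, |f (φ (g * q k) x) * f (φ (g * q l) x)| ≤ 1 := by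
    intro g k l x
    rw [abs_mul]
    exact mul_le_one₀ (hf1 _) (abs_nonneg _) (hf1 _)
  have h1 : ∀ g : ℝ, ∫ x, (∑ k ∈ range K, f (φ (g * q k) x)) ^ 2 ∂μ
      = ∑ k ∈ range K, ∑ l ∈ range K, ∫ x, f x * f (φ (g * (q l - q k)) x) ∂μ := by
    intro g
    have h2 : ∀ x, (∑ k ∈ range K, f (φ (g * q k) x)) ^ 2
        = ∑ k ∈ range K, ∑ l ∈ range K, f (φ (g * q k) x) * f (φ (g * q l) x) := by
      intro x
      rw [sq, Finset.sum_mul_sum]
    simp_rw [h2]
    rw [integral_finsetSum]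
    · refine Finset.sum_congr rfl fun k _ => ?_
      rw [integral_finsetSum]
      · refine Finset.sum_congr rfl fun l _ => ?_
        rw [← h.integral_comp (g * q k) (g := fun x => f x * f (φ (g * (q l - q k)) x))
          (hf.mul (h.meas_comp hf measurable_const measurable_id))]
        refine integral_congr_ae (Filter.Eventually.of_forall fun x => ?_)
        simp only
        rw [← h.add]
        have r : g * (q l - q k) + g * q k = g * q l := by ring
        rw [r]
      · intro l _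
        exact integrable_bd ((hmg g k).mul (hmg g l)) 1 (hb g k l)
    · intro k _
      apply integrable_finsetSum
      intro l _
      exact integrable_bd ((hmg g k).mul (hmg g l)) 1 (hb g k l)
  simp_rw [h1]
  have hint : ∀ k l, Integrable (fun g : ℝ => ∫ x, f x * f (φ (g * (q l - q k)) x) ∂μ)
      (volume.restrict (Icc (-1 : ℝ) 1)) := by
    intro k l
    refine integrable_bd ?_ 1 ?_
    · have : Measurable (fun z : ℝ × Ω => f z.2 * f (φ (z.1 * (q l - q k)) z.2)) :=
        (hf.comp measurable_snd).mul (h.meas_comp hf (by fun_prop) measurable_snd)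
      exact (this.stronglyMeasurable.integral_prod_right).measurable
    · intro g
      apply abs_integral_bd
      intro x
      rw [abs_mul]
      exact mul_le_one₀ (hf1 _) (abs_nonneg _) (hf1 _)
  rw [integral_finsetSum _ (fun k _ => integrable_finsetSum _ fun l _ => hint k l)]
  simp_rw [integral_finsetSum _ (fun l (_ : l ∈ range K) => hint _ l)]
  have h3 : ∀ k ∈ range K, ∀ l ∈ range K,
      ∫ g in Icc (-1 : ℝ) 1, ∫ x, f x * f (φ (g * (q l - q k)) x) ∂μ
        ≤ (if k = l then (2 : ℝ) else 0)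
          + (S / c) * (if k = l then (0 : ℝ) else 1 / |(k : ℝ) - l|) := by
    intro k hk l hl
    rw [Finset.mem_range] at hk hl
    by_cases hkl : k = l
    · subst hkl
      rw [if_pos rfl, if_pos rfl]
      have h4 : ∀ g : ℝ, ∫ x, f x * f (φ (g * (q k - q k)) x) ∂μ ≤ 1 := by
        intro g
        refine (le_abs_self _).trans (abs_integral_bd 1 fun x => ?_)
        rw [abs_mul]
        exact mul_le_one₀ (hf1 _) (abs_nonneg _) (hf1 _)
      have h5 := integral_mono (hint k k) (integrable_const (1 : ℝ)) h4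
      have h6 : ∫ g in Icc (-1 : ℝ) 1, (1 : ℝ) = 2 := by
        simp
        norm_num
      rw [h6] at h5
      simpa using h5
    · rw [if_neg hkl, if_neg hkl]
      have hkl' : (k : ℝ) ≠ l := by exact_mod_cast hkl
      have h4 : 0 < |(k : ℝ) - l| := abs_pos.2 (sub_ne_zero.2 hkl')
      have h5 := hsep k hk l hl
      have h6 : 0 < |q k - q l| := lt_of_lt_of_le (by positivity) h5
      have h7 : q l - q k ≠ 0 := by
        intro h8
        have : q k - q l = 0 := by linarith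
        rw [this] at h6
        simp at h6
      have h8 := hS (q l - q k) h7
      rw [abs_sub_comm (q l) (q k)] at h8
      refine (le_abs_self _).trans (h8.trans ?_)
      rw [zero_add, div_mul_div_comm, mul_one]
      exact div_le_div_of_nonneg_left hS0 (by positivity) h5
  calc _ ≤ ∑ k ∈ range K, ∑ l ∈ range K, ((if k = l then (2 : ℝ) else 0)
          + (S / c) * (if k = l then (0 : ℝ) else 1 / |(k : ℝ) - l|)) :=
        Finset.sum_le_sum fun k hk => Finset.sum_le_sum fun l hl => h3 k hk l hl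
    _ = 2 * K + (S / c) * ∑ k ∈ range K, ∑ l ∈ range K,
          (if k = l then (0 : ℝ) else 1 / |(k : ℝ) - l|) := by
        simp_rw [Finset.sum_add_distrib, ← Finset.mul_sum]
        congr 1
        have : ∀ k ∈ range K, ∑ l ∈ range K, (if k = l then (2 : ℝ) else 0) = 2 := by
          intro k hk
          rw [Finset.sum_ite_eq, if_pos hk]
        rw [Finset.sum_congr rfl this, Finset.sum_const, card_range, nsmul_eq_mul]
        ring
    _ ≤ _ := by
        have := mul_le_mul_of_nonneg_left (harm_two K) (div_nonneg hS0 hc.le)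
        nlinarith

theorem block_le [IsProbabilityMeasure μ] (h : IsFlow μ φ) {f : Ω → ℝ} (hf : Measurable f)
    (hf1 : ∀ x, |f x| ≤ 1) {S : ℝ} (hS : Dec μ φ f S) (α p : ℝ) (q : ℕ → ℝ) (K : ℕ) {c η : ℝ}
    (hc : 0 < c) (hη : 0 ≤ η)
    (hsep : ∀ k < K, ∀ l < K, c * |(k : ℝ) - l| ≤ |q k - q l|)
    (hclose : ∀ k < K, |q k - q 0| ≤ η * |q 0 - p|) (hne : q 0 - p ≠ 0) :
    ∑ k ∈ range K, ∫ x, (corr φ f α p (q k) x) ^ 2 ∂μ
      ≤ Real.sqrt (4 * K + 8 * (S / c) * K * Real.sqrt K) + 8 * (|α| + 2) * η * K := by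
  set ν : Measure ℝ := volume.restrict (Icc (-1 : ℝ) 1) with hν
  set κ : Measure (ℝ × Ω) := ν.prod μ with hκ
  have hκu : κ.real univ = 2 := by
    rw [hκ, ← univ_prod_univ, measureReal_prod_prod]
    simp [hν]
    norm_num
  have hmk : ∀ k, Measurable (fun z : ℝ × Ω => f (φ (z.1 * q k) z.2)) := fun k =>
    h.meas_comp hf (by fun_prop) measurable_snd
  have hw : ∀ D, Measurable (fun z : ℝ × Ω => wnd φ f α p D z.1 z.2) := fun D =>
    wnd_measurable h hf α p D
  have hfz : Measurable (fun z : ℝ × Ω => f z.2) := hf.comp measurable_snd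
  -- the terms
  have hT1 : ∀ k D, ∀ z : ℝ × Ω,
      |f z.2 * f (φ (z.1 * q k) z.2) * wnd φ f α p D z.1 z.2| ≤ 1 := by
    intro k D z
    rw [abs_mul, abs_mul]
    exact mul_le_one₀ (mul_le_one₀ (hf1 _) (abs_nonneg _) (hf1 _)) (abs_nonneg _)
      (wnd_abs_le hf1 _ _ _ _ _)
  have hTi : ∀ k D, Integrable (fun z : ℝ × Ω =>
      f z.2 * f (φ (z.1 * q k) z.2) * wnd φ f α p D z.1 z.2) κ := fun k D =>
    integrable_bd ((hfz.mul (hmk k)).mul (hw D)) 1 (hT1 k D)
  have e1 : ∀ k, ∫ x, (corr φ f α p (q k) x) ^ 2 ∂μ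
      = ∫ z, f z.2 * f (φ (z.1 * q k) z.2) * wnd φ f α p (q k - p) z.1 z.2 ∂κ := by
    intro k
    rw [sq_corr h hf hf1 α p (q k), hκ, integral_prod _ (hTi k (q k - p))]
  have e2 : ∀ k < K, ∫ z, f z.2 * f (φ (z.1 * q k) z.2) * wnd φ f α p (q k - p) z.1 z.2 ∂κ
      ≤ (∫ z, f z.2 * f (φ (z.1 * q k) z.2) * wnd φ f α p (q 0 - p) z.1 z.2 ∂κ)
        + 8 * (|α| + 2) * η := by
    intro k hk
    have h1 : (∫ z, f z.2 * f (φ (z.1 * q k) z.2) * wnd φ f α p (q k - p) z.1 z.2 ∂κ)
        - (∫ z, f z.2 * f (φ (z.1 * q k) z.2) * wnd φ f α p (q 0 - p) z.1 z.2 ∂κ)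
        = ∫ z, f z.2 * f (φ (z.1 * q k) z.2) * (wnd φ f α p (q k - p) z.1 z.2
            - wnd φ f α p (q 0 - p) z.1 z.2) ∂κ := by
      rw [← integral_sub (hTi _ _) (hTi _ _)]
      refine integral_congr_ae (Filter.Eventually.of_forall fun z => ?_)
      simp only
      ring
    have h2 : ∀ᵐ z ∂κ, f z.2 * f (φ (z.1 * q k) z.2) * (wnd φ f α p (q k - p) z.1 z.2
            - wnd φ f α p (q 0 - p) z.1 z.2) ≤ 4 * (|α| + 2) * η := by
      have h3 : ∀ᵐ z ∂κ, z.1 ∈ Icc (-1 : ℝ) 1 := by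
        have h4 : ∀ᵐ g ∂ν, g ∈ Icc (-1 : ℝ) 1 := ae_restrict_mem measurableSet_Icc
        exact (Measure.quasiMeasurePreserving_fst (μ := ν) (ν := μ)).ae h4
      filter_upwards [h3] with z hz
      have h5 := wnd_sub_le h hf hf1 α p (q k - p) (q 0 - p) z.1 hne hz z.2
      have h6 : |q k - p - (q 0 - p)| ≤ η * |q 0 - p| := by
        have : q k - p - (q 0 - p) = q k - q 0 := by ring
        rw [this]
        exact hclose k hk
      have h7 : 0 < |q 0 - p| := abs_pos.2 hne
      have h8 : 4 * (|α| + 2) * |q k - p - (q 0 - p)| / |q 0 - p| ≤ 4 * (|α| + 2) * η := by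
        rw [div_le_iff₀ h7, mul_assoc (4 * (|α| + 2)) η]
        exact mul_le_mul_of_nonneg_left h6 (by positivity)
      refine (le_abs_self _).trans ?_
      rw [abs_mul, abs_mul]
      calc |f z.2| * |f (φ (z.1 * q k) z.2)| * |wnd φ f α p (q k - p) z.1 z.2
            - wnd φ f α p (q 0 - p) z.1 z.2|
          ≤ 1 * |wnd φ f α p (q k - p) z.1 z.2 - wnd φ f α p (q 0 - p) z.1 z.2| :=
            mul_le_mul_of_nonneg_right (mul_le_one₀ (hf1 _) (abs_nonneg _) (hf1 _))
              (abs_nonneg _)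
        _ ≤ 4 * (|α| + 2) * η := by
            rw [one_mul]
            exact h5.trans h8
    have h9 : ∫ z, f z.2 * f (φ (z.1 * q k) z.2) * (wnd φ f α p (q k - p) z.1 z.2
            - wnd φ f α p (q 0 - p) z.1 z.2) ∂κ ≤ ∫ z, 4 * (|α| + 2) * η ∂κ := by
      refine integral_mono_ae ?_ (integrable_const _) h2
      have : (fun z : ℝ × Ω => f z.2 * f (φ (z.1 * q k) z.2) * (wnd φ f α p (q k - p) z.1 z.2
            - wnd φ f α p (q 0 - p) z.1 z.2)) = fun z =>
            f z.2 * f (φ (z.1 * q k) z.2) * wnd φ f α p (q k - p) z.1 z.2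
            - f z.2 * f (φ (z.1 * q k) z.2) * wnd φ f α p (q 0 - p) z.1 z.2 := by
        funext z
        ring
      rw [this]
      exact (hTi _ _).sub (hTi _ _)
    rw [integral_const, hκu, smul_eq_mul] at h9
    linarith
  -- the main term
  set F : ℝ × Ω → ℝ := fun z => ∑ k ∈ range K, f (φ (z.1 * q k) z.2) with hF
  have hFm : Measurable F := Finset.measurable_fun_sum _ fun k _ => hmk k
  have hFb : ∀ z, |F z| ≤ K := by
    intro z
    calc |F z| ≤ ∑ k ∈ range K, |f (φ (z.1 * q k) z.2)| := Finset.abs_sum_le_sum_abs _ _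
      _ ≤ ∑ k ∈ range K, (1 : ℝ) := Finset.sum_le_sum fun k _ => hf1 _
      _ = K := by simp
  have e3 : ∑ k ∈ range K, ∫ z, f z.2 * f (φ (z.1 * q k) z.2) * wnd φ f α p (q 0 - p) z.1 z.2 ∂κ
      ≤ ∫ z, |F z| ∂κ := by
    rw [← integral_finsetSum _ fun k _ => hTi k _]
    refine integral_mono (integrable_finsetSum _ fun k _ => hTi k _) ?_ ?_
    · exact integrable_bd hFm.abs K fun z => by
        rw [abs_abs]
        exact hFb z
    · intro z
      simp only
      have h1 : ∑ k ∈ range K, f z.2 * f (φ (z.1 * q k) z.2) * wnd φ f α p (q 0 - p) z.1 z.2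
          = f z.2 * wnd φ f α p (q 0 - p) z.1 z.2 * F z := by
        rw [hF, Finset.mul_sum]
        refine Finset.sum_congr rfl fun k _ => ?_
        ring
      rw [h1]
      refine (le_abs_self _).trans ?_
      rw [abs_mul, abs_mul]
      calc |f z.2| * |wnd φ f α p (q 0 - p) z.1 z.2| * |F z| ≤ 1 * |F z| :=
            mul_le_mul_of_nonneg_right (mul_le_one₀ (hf1 _) (abs_nonneg _)
              (wnd_abs_le hf1 _ _ _ _ _)) (abs_nonneg _)
        _ = |F z| := one_mul _
  have e4 : (∫ z, |F z| ∂κ) ^ 2 ≤ 4 * K + 8 * (S / c) * K * Real.sqrt K := by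
    have h1 := cs_bd (κ := κ) hFm K hFb
    have h2 : ∫ z, (F z) ^ 2 ∂κ ≤ 2 * K + 4 * (S / c) * K * Real.sqrt K := by
      rw [hκ, integral_prod]
      · exact block_sq h hf hf1 hS q K hc hsep
      · refine integrable_bd (hFm.pow_const 2) ((K : ℝ) ^ 2) fun z => ?_
        rw [abs_pow]
        exact pow_le_pow_left₀ (abs_nonneg _) (hFb z) 2
    rw [hκu] at h1
    nlinarith
  have e5 : ∫ z, |F z| ∂κ ≤ Real.sqrt (4 * K + 8 * (S / c) * K * Real.sqrt K) :=
    Real.le_sqrt_of_sq_le e4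
  calc ∑ k ∈ range K, ∫ x, (corr φ f α p (q k) x) ^ 2 ∂μ
      = ∑ k ∈ range K, ∫ z, f z.2 * f (φ (z.1 * q k) z.2)
          * wnd φ f α p (q k - p) z.1 z.2 ∂κ := Finset.sum_congr rfl fun k _ => e1 k
    _ ≤ ∑ k ∈ range K, ((∫ z, f z.2 * f (φ (z.1 * q k) z.2)
          * wnd φ f α p (q 0 - p) z.1 z.2 ∂κ) + 8 * (|α| + 2) * η) :=
        Finset.sum_le_sum fun k hk => e2 k (Finset.mem_range.1 hk)
    _ ≤ _ := by
        rw [Finset.sum_add_distrib, Finset.sum_const, card_range, nsmul_eq_mul]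
        have r : (K : ℝ) * (8 * (|α| + 2) * η) = 8 * (|α| + 2) * η * K := by ring
        rw [r]
        linarith

end Pool.AET
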