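import Pool.Agent.AET.Corr

/-!
# Coboundaries have decaying self correlations on average
-/

set_option autoImplicit false

open MeasureTheory Set

namespace Pool.AET

variable {Ω : Type*} [MeasurableSpace Ω] {μ : Measure Ω} {φ : ℝ → Ω → Ω}

/-- For `f = h - h ∘ φ s`: with `e t = ∫ f * h ∘ φ t` the inner integral is `e (g l) - e (g l + s)`. -/
theorem cob_dec [IsProbabilityMeasure μ] (hφ : IsFlow μ φ) {h : Ω → ℝ} (hh : Measurable h)
    (hb : ∀ x, |h x| ≤ 1 / 2) (s : ℝ) :
    Dec μ φ (fun x => h x - h (φ s x)) (2 * |s|) := by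
  intro l hl
  set f : Ω → ℝ := fun x => h x - h (φ s x) with hf
  have hfm : Measurable f := hh.sub (hφ.meas_comp hh measurable_const measurable_id)
  have hf1 : ∀ x, |f x| ≤ 1 := by
    intro x
    calc |h x - h (φ s x)| ≤ |h x| + |h (φ s x)| := abs_sub _ _
      _ ≤ 1 := by linarith [hb x, hb (φ s x)]
  set e : ℝ → ℝ := fun t => ∫ x, f x * h (φ t x) ∂μ with he
  have hem2 : Measurable (fun z : ℝ × Ω => f z.2 * h (φ z.1 z.2)) :=
    (hfm.comp measurable_snd).mul (hφ.meas_comp hh measurable_fst measurable_snd)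
  have hem : Measurable e := (hem2.stronglyMeasurable.integral_prod_right).measurable
  have heb0 : ∀ t x, |f x * h (φ t x)| ≤ 1 := by
    intro t x
    rw [abs_mul]
    exact mul_le_one₀ (hf1 _) (abs_nonneg _) (by linarith [hb (φ t x)])
  have heb : ∀ t, |e t| ≤ 1 := fun t => abs_integral_bd 1 (heb0 t)
  have hint : ∀ a b : ℝ, IntervalIntegrable e volume a b := by
    intro a b
    refine (intervalIntegrable_const (c := (1 : ℝ))).mono_fun hem.aestronglyMeasurable ?_
    filter_upwards with y
    simpa using heb y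
  have hbd : ∀ a b : ℝ, |∫ y in a..b, e y| ≤ |b - a| := by
    intro a b
    have := intervalIntegral.norm_integral_le_of_norm_le_const (a := a) (b := b) (C := 1)
      (f := e) (fun x _ => by simpa using heb x)
    simpa using this
  have h1 : ∀ g : ℝ, ∫ x, f x * f (φ (g * l) x) ∂μ = e (l * g + 0) - e (l * g + s) := by
    intro g
    rw [he]
    simp only
    rw [← integral_sub]
    · refine integral_congr_ae (Filter.Eventually.of_forall fun x => ?_)
      simp only [hf]
      rw [← hφ.add]
      have r1 : s + g * l = l * g + s := by ring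
      have r2 : g * l = l * g + 0 := by ring
      rw [r1, r2]
      ring
    · exact integrable_bd (hfm.mul (hφ.meas_comp hh measurable_const measurable_id)) 1 (heb0 _)
    · exact integrable_bd (hfm.mul (hφ.meas_comp hh measurable_const measurable_id)) 1 (heb0 _)
  have hint2 : ∀ c : ℝ, IntervalIntegrable (fun g => e (l * g + c)) volume (-1) 1 := by
    intro c
    have hm : Measurable (fun g => e (l * g + c)) := hem.comp (by fun_prop)
    refine (intervalIntegrable_const (c := (1 : ℝ))).mono_fun hm.aestronglyMeasurable ?_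
    filter_upwards with y
    simpa using heb _
  have h2 : ∫ g in Icc (-1 : ℝ) 1, ∫ x, f x * f (φ (g * l) x) ∂μ
      = ∫ g in (-1 : ℝ)..1, (e (l * g + 0) - e (l * g + s)) := by
    rw [intervalIntegral.integral_of_le (by norm_num), ← integral_Icc_eq_integral_Ioc]
    refine integral_congr_ae (Filter.Eventually.of_forall fun g => ?_)
    exact h1 g
  have hl' : 0 < |l| := abs_pos.2 hl
  rw [h2, intervalIntegral.integral_sub (hint2 0) (hint2 s),
    intervalIntegral.integral_comp_mul_add e hl, intervalIntegral.integral_comp_mul_add e hl,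
    ← smul_sub, intervalIntegral.integral_interval_sub_interval_comm (hint _ _) (hint _ _)
      (hint _ _), smul_eq_mul, abs_mul, abs_inv]
  have h3 : |(∫ x in (l * -1 + 0)..(l * -1 + s), e x) - ∫ x in (l * 1 + 0)..(l * 1 + s), e x|
      ≤ 2 * |s| := by
    have a1 := hbd (l * -1 + 0) (l * -1 + s)
    have a2 := hbd (l * 1 + 0) (l * 1 + s)
    have r1 : l * -1 + s - (l * -1 + 0) = s := by ring
    have r2 : l * 1 + s - (l * 1 + 0) = s := by ring
    rw [r1] at a1
    rw [r2] at a2
    refine (abs_sub _ _).trans ?_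
    linarith
  rw [inv_mul_eq_div]
  exact div_le_div_of_nonneg_right h3 hl'.le

theorem cob_lip (hφ : IsFlow μ φ) {h : Ω → ℝ} {L : ℝ} (hL : LipT φ h L) (s : ℝ) :
    LipT φ (fun x => h x - h (φ s x)) (2 * L) := by
  intro t x
  simp only
  have h1 := hL t x
  have h2 := hL t (φ s x)
  rw [← hφ.add] at h2
  rw [← hφ.add, add_comm s t]
  have h3 : h (φ t x) - h (φ (t + s) x) - (h x - h (φ s x))
      = (h (φ t x) - h x) - (h (φ (t + s) x) - h (φ s x)) := by ring
  rw [h3]
  refine (abs_sub _ _).trans ?_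
  linarith

theorem cob_cls [IsProbabilityMeasure μ] (hφ : IsFlow μ φ) {h : Ω → ℝ} (hh : Measurable h)
    (hb : ∀ x, |h x| ≤ 1 / 2) {L : ℝ} (hL : LipT φ h L) (s : ℝ) :
    Cls μ φ (fun x => h x - h (φ s x)) where
  meas := hh.sub (hφ.meas_comp hh measurable_const measurable_id)
  bd := fun x => by
    calc |h x - h (φ s x)| ≤ |h x| + |h (φ s x)| := abs_sub _ _
      _ ≤ 1 := by linarith [hb x, hb (φ s x)]
  lip := ⟨2 * L, cob_lip hφ hL s⟩
  dec := ⟨2 * |s|, cob_dec hφ hh hb s⟩

end Pool.AET
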