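import Mathlib

/-!
# Windows: an integral over a dilated window changes little with the dilation
-/

set_option autoImplicit false

open MeasureTheory

namespace Pool.AET

theorem window_le (G : ℝ → ℝ) (hG : Measurable G) (h1 : ∀ y, |G y| ≤ 1) {u v R : ℝ}
    (hu : |u| ≤ R) (hv : |v| ≤ R) (D E : ℝ) (hE : E ≠ 0) :
    |(∫ a in u..v, G (a * D)) - ∫ a in u..v, G (a * E)| ≤ 4 * R * |D - E| / |E| := by
  have hE' : 0 < |E| := abs_pos.2 hE
  have hint : ∀ a b : ℝ, IntervalIntegrable G volume a b := by
    intro a b
    refine (intervalIntegrable_const (c := (1 : ℝ))).mono_fun hG.aestronglyMeasurable ?_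
    filter_upwards with y
    simpa using h1 y
  have hb : ∀ a b : ℝ, |∫ y in a..b, G y| ≤ |b - a| := by
    intro a b
    have := intervalIntegral.norm_integral_le_of_norm_le_const (a := a) (b := b) (C := 1)
      (f := G) (fun x _ => by simpa using h1 x)
    simpa using this
  have huv : |v - u| ≤ 2 * R := by
    calc |v - u| ≤ |v| + |u| := abs_sub _ _
      _ ≤ 2 * R := by linarith
  rcases eq_or_ne D 0 with hD | hD
  · subst hD
    have e1 : |∫ a in u..v, G (a * 0)| ≤ |v - u| := by
      have := intervalIntegral.norm_integral_le_of_norm_le_const (a := u) (b := v) (C := 1)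
        (f := fun a => G (a * 0)) (fun x _ => by simpa using h1 _)
      simpa using this
    have e2 : |∫ a in u..v, G (a * E)| ≤ |v - u| := by
      have := intervalIntegral.norm_integral_le_of_norm_le_const (a := u) (b := v) (C := 1)
        (f := fun a => G (a * E)) (fun x _ => by simpa using h1 _)
      simpa using this
    have e3 : 4 * R * |0 - E| / |E| = 4 * R := by
      rw [zero_sub, abs_neg]
      field_simp
    rw [e3]
    calc _ ≤ |∫ a in u..v, G (a * 0)| + |∫ a in u..v, G (a * E)| := abs_sub _ _
      _ ≤ 4 * R := by linarith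
  · have hD' : 0 < |D| := abs_pos.2 hD
    rw [intervalIntegral.integral_comp_mul_right G hD, intervalIntegral.integral_comp_mul_right G hE]
    simp only [smul_eq_mul]
    have key : D⁻¹ * (∫ x in u * D..v * D, G x) - E⁻¹ * ∫ x in u * E..v * E, G x
        = (D⁻¹ - E⁻¹) * (∫ x in u * D..v * D, G x)
          + E⁻¹ * ((∫ x in u * D..u * E, G x) - ∫ x in v * D..v * E, G x) := by
      have h2 : (∫ x in u * D..u * E, G x) + (∫ x in u * E..v * E, G x)
          = (∫ x in u * D..v * D, G x) + ∫ x in v * D..v * E, G x := by
        rw [intervalIntegral.integral_add_adjacent_intervals (hint _ _) (hint _ _),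
          intervalIntegral.integral_add_adjacent_intervals (hint _ _) (hint _ _)]
      have h3 : (∫ x in u * D..u * E, G x) - ∫ x in v * D..v * E, G x
          = (∫ x in u * D..v * D, G x) - ∫ x in u * E..v * E, G x := by linarith
      rw [h3]
      ring
    rw [key]
    have b1 : |(D⁻¹ - E⁻¹) * ∫ x in u * D..v * D, G x| ≤ 2 * R * |D - E| / |E| := by
      rw [abs_mul]
      have : D⁻¹ - E⁻¹ = (E - D) / (D * E) := by field_simp
      rw [this, abs_div, abs_mul, abs_sub_comm E D]
      calc |D - E| / (|D| * |E|) * |∫ x in u * D..v * D, G x|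
          ≤ |D - E| / (|D| * |E|) * (|v - u| * |D|) := by
            gcongr
            calc _ ≤ |v * D - u * D| := hb _ _
              _ = |v - u| * |D| := by rw [← sub_mul, abs_mul]
        _ = |v - u| * |D - E| / |E| := by field_simp
        _ ≤ 2 * R * |D - E| / |E| := by gcongr
    have b2 : |E⁻¹ * ((∫ x in u * D..u * E, G x) - ∫ x in v * D..v * E, G x)|
        ≤ 2 * R * |D - E| / |E| := by
      rw [abs_mul, abs_inv]
      calc |E|⁻¹ * |(∫ x in u * D..u * E, G x) - ∫ x in v * D..v * E, G x|
          ≤ |E|⁻¹ * (|u| * |D - E| + |v| * |D - E|) := by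
            gcongr
            refine (abs_sub _ _).trans (add_le_add ?_ ?_)
            · calc _ ≤ |u * E - u * D| := hb _ _
                _ = |u| * |D - E| := by rw [← mul_sub, abs_mul, abs_sub_comm]
            · calc _ ≤ |v * E - v * D| := hb _ _
                _ = |v| * |D - E| := by rw [← mul_sub, abs_mul, abs_sub_comm]
        _ ≤ |E|⁻¹ * (R * |D - E| + R * |D - E|) := by gcongr
        _ = 2 * R * |D - E| / |E| := by field_simp; ring
    calc _ ≤ _ := abs_add_le _ _
      _ ≤ 2 * R * |D - E| / |E| + 2 * R * |D - E| / |E| := add_le_add b1 b2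
      _ = 4 * R * |D - E| / |E| := by ring

end Pool.AET
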