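import Pool.Agent.AET.Defs
import Pool.Agent.AET.Win

/-!
# The square of a correlation over random times, as an integral over the difference of the times
-/

set_option autoImplicit false

open MeasureTheory Set

namespace Pool.AET

theorem integrable_bd {X : Type*} [MeasurableSpace X] {μ : Measure X} [IsFiniteMeasure μ]
    {f : X → ℝ} (hf : Measurable f) (C : ℝ) (h : ∀ x, |f x| ≤ C) : Integrable f μ :=
  Integrable.of_bound hf.aestronglyMeasurable C (Filter.Eventually.of_forall fun x => by
    simpa using h x)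

theorem abs_integral_bd {X : Type*} [MeasurableSpace X] {μ : Measure X} [IsProbabilityMeasure μ]
    {f : X → ℝ} (C : ℝ) (h : ∀ x, |f x| ≤ C) : |∫ x, f x ∂μ| ≤ C := by
  have := norm_integral_le_of_norm_le_const (μ := μ) (f := f) (C := C)
    (Filter.Eventually.of_forall fun x => by simpa using h x)
  simpa using this

/-- Change of variables `b = a + g`. -/
theorem diag_change (Θ : ℝ → ℝ → ℝ) (hΘ : Measurable (Function.uncurry Θ)) (C : ℝ)
    (hC : ∀ a b, |Θ a b| ≤ C) (α : ℝ) :
    ∫ a in Icc α (α + 1), ∫ b in Icc α (α + 1), Θ a b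
      = ∫ g in Icc (-1 : ℝ) 1, ∫ a in Icc α (α + 1),
          (if a + g ∈ Icc α (α + 1) then Θ a (a + g) else 0) := by
  classical
  have hC0 : 0 ≤ C := (abs_nonneg _).trans (hC 0 0)
  have h1 : ∀ a ∈ Icc α (α + 1), ∫ b in Icc α (α + 1), Θ a b
      = ∫ g in Icc (-1 : ℝ) 1, (if a + g ∈ Icc α (α + 1) then Θ a (a + g) else 0) := by
    intro a ha
    rw [← integral_indicator measurableSet_Icc]
    have h2 : ∫ b, (Icc α (α + 1)).indicator (Θ a) b
        = ∫ g, (Icc α (α + 1)).indicator (Θ a) (a + g) :=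
      (integral_add_left_eq_self (fun b => (Icc α (α + 1)).indicator (Θ a) b) a).symm
    rw [show (fun b => (Icc α (α + 1)).indicator (fun b => Θ a b) b)
      = fun b => (Icc α (α + 1)).indicator (Θ a) b from rfl, h2]
    rw [← setIntegral_eq_integral_of_forall_compl_eq_zero (s := Icc (-1 : ℝ) 1)]
    · refine integral_congr_ae (Filter.Eventually.of_forall fun g => ?_)
      by_cases hg : a + g ∈ Icc α (α + 1)
      · simp only [indicator_of_mem hg, if_pos hg]
      · simp only [indicator_of_notMem hg, if_neg hg]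
    · intro g hg
      rw [indicator_of_notMem]
      rintro ⟨h3, h4⟩
      apply hg
      constructor
      · linarith [ha.2]
      · linarith [ha.1]
  rw [setIntegral_congr_fun measurableSet_Icc h1]
  refine integral_integral_swap ?_
  refine Integrable.of_bound (C := C) ?_ ?_
  · apply Measurable.aestronglyMeasurable
    refine Measurable.ite ?_ ?_ measurable_const
    · exact (measurable_fst.add measurable_snd) measurableSet_Icc
    · exact hΘ.comp (measurable_fst.prodMk (measurable_fst.add measurable_snd))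
  · filter_upwards with z
    simp only [Function.uncurry]
    split_ifs
    · simpa using hC _ _
    · simpa using hC0

variable {Ω : Type*} [MeasurableSpace Ω] {μ : Measure Ω} {φ : ℝ → Ω → Ω}

/-- The correlation of `f ∘ φ (a p)` and `f ∘ φ (a q)` for `a` in the interval `[α, α+1]`. -/
noncomputable def corr (φ : ℝ → Ω → Ω) (f : Ω → ℝ) (α p q : ℝ) (x : Ω) : ℝ :=
  ∫ a in Icc α (α + 1), f (φ (a * p) x) * f (φ (a * q) x)

/-- The window average. -/
noncomputable def wnd (φ : ℝ → Ω → Ω) (f : Ω → ℝ) (α p D g : ℝ) (x : Ω) : ℝ :=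
  ∫ a in Icc α (α + 1), (if a + g ∈ Icc α (α + 1) then
    f (φ (-(a * D)) x) * f (φ (g * p - a * D) x) else 0)

theorem IsFlow.meas_comp (h : IsFlow μ φ) {X : Type*} [MeasurableSpace X] {f : Ω → ℝ}
    (hf : Measurable f) {t : X → ℝ} (ht : Measurable t) {y : X → Ω} (hy : Measurable y) :
    Measurable (fun z => f (φ (t z) (y z))) :=
  hf.comp (h.meas.comp (ht.prodMk hy))

theorem wnd_measurable (h : IsFlow μ φ) {f : Ω → ℝ} (hf : Measurable f) (α p D : ℝ) :
    Measurable (fun z : ℝ × Ω => wnd φ f α p D z.1 z.2) := by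
  classical
  unfold wnd
  have hm : Measurable (fun w : (ℝ × Ω) × ℝ =>
      (if w.2 + w.1.1 ∈ Icc α (α + 1) then
        f (φ (-(w.2 * D)) w.1.2) * f (φ (w.1.1 * p - w.2 * D) w.1.2) else 0)) := by
    refine Measurable.ite ?_ ?_ measurable_const
    · exact (measurable_snd.add (measurable_fst.comp measurable_fst)) measurableSet_Icc
    · refine (h.meas_comp hf ?_ ?_).mul (h.meas_comp hf ?_ ?_) <;> fun_prop
  exact (hm.stronglyMeasurable.integral_prod_right).measurable

omit [MeasurableSpace Ω] in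
theorem wnd_abs_le {f : Ω → ℝ} (hf1 : ∀ x, |f x| ≤ 1) (α p D g : ℝ) (x : Ω) :
    |wnd φ f α p D g x| ≤ 1 := by
  classical
  unfold wnd
  have : IsProbabilityMeasure (volume.restrict (Icc α (α + 1))) :=
    ⟨by simp⟩
  apply abs_integral_bd
  intro a
  split_ifs
  · rw [abs_mul]
    exact mul_le_one₀ (hf1 _) (abs_nonneg _) (hf1 _)
  · simp

omit [MeasurableSpace Ω] in
theorem wnd_eq {f : Ω → ℝ} (α p D g : ℝ) (hg : g ∈ Icc (-1 : ℝ) 1) (x : Ω) :
    wnd φ f α p D g x = ∫ a in (max α (α - g))..(min (α + 1) (α + 1 - g)),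
      f (φ (-(a * D)) x) * f (φ (g * p - a * D) x) := by
  classical
  unfold wnd
  have hle : max α (α - g) ≤ min (α + 1) (α + 1 - g) := by
    rw [max_le_iff, le_min_iff, le_min_iff]
    refine ⟨⟨by linarith, by linarith [hg.2]⟩, by linarith [hg.1], by linarith⟩
  rw [intervalIntegral.integral_of_le hle, ← integral_Icc_eq_integral_Ioc]
  have hS : Icc (max α (α - g)) (min (α + 1) (α + 1 - g))
      = Icc α (α + 1) ∩ {a | a + g ∈ Icc α (α + 1)} := by
    ext a
    simp only [mem_Icc, max_le_iff, le_min_iff, mem_inter_iff, mem_ofPred_eq]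
    constructor
    · rintro ⟨⟨h1, h2⟩, h3, h4⟩
      exact ⟨⟨h1, h3⟩, by linarith, by linarith⟩
    · rintro ⟨⟨h1, h3⟩, h2, h4⟩
      exact ⟨⟨h1, by linarith⟩, h3, by linarith⟩
  have hm : MeasurableSet {a : ℝ | a + g ∈ Icc α (α + 1)} :=
    (measurable_id.add_const g) measurableSet_Icc
  rw [hS, ← setIntegral_indicator hm]
  refine integral_congr_ae (Filter.Eventually.of_forall fun a => ?_)
  by_cases ha : a + g ∈ Icc α (α + 1)
  · have ha' : a ∈ {a | a + g ∈ Icc α (α + 1)} := ha
    simp only [indicator_of_mem ha', if_pos ha]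
  · have ha' : a ∉ {a | a + g ∈ Icc α (α + 1)} := ha
    simp only [indicator_of_notMem ha', if_neg ha]

theorem wnd_sub_le (h : IsFlow μ φ) {f : Ω → ℝ} (hf : Measurable f) (hf1 : ∀ x, |f x| ≤ 1)
    (α p D E g : ℝ) (hE : E ≠ 0) (hg : g ∈ Icc (-1 : ℝ) 1) (x : Ω) :
    |wnd φ f α p D g x - wnd φ f α p E g x| ≤ 4 * (|α| + 2) * |D - E| / |E| := by
  rw [wnd_eq α p D g hg, wnd_eq α p E g hg]
  set G : ℝ → ℝ := fun r => f (φ (-r) x) * f (φ (g * p - r) x) with hG
  have hGm : Measurable G := by
    refine (h.meas_comp hf ?_ measurable_const).mul (h.meas_comp hf ?_ measurable_const) <;> fun_prop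
  have hG1 : ∀ r, |G r| ≤ 1 := by
    intro r
    rw [hG]
    simp only [abs_mul]
    exact mul_le_one₀ (hf1 _) (abs_nonneg _) (hf1 _)
  refine window_le G hGm hG1 ?_ ?_ D E hE
  · rw [abs_le]
    constructor
    · have : -|α| ≤ α := neg_abs_le α
      linarith [le_max_left α (α - g)]
    · have : α ≤ |α| := le_abs_self α
      apply max_le <;> linarith [hg.1]
  · rw [abs_le]
    constructor
    · have : -|α| ≤ α := neg_abs_le α
      apply le_min <;> linarith [hg.2]
    · have : α ≤ |α| := le_abs_self α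
      linarith [min_le_left (α + 1) (α + 1 - g)]

end Pool.AET
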