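import Pool.Agent.AET.MainG

/-!
# Complex essentially bounded functions
-/

set_option autoImplicit false

open MeasureTheory Set Filter Topology Finset

namespace Pool.AET

variable {Ω : Type*} [MeasurableSpace Ω] {μ : Measure Ω} {d : ℕ}

/-- A bounded measurable version. -/
theorem exists_version {f : Ω → ℂ} (hf : MemLp f ⊤ μ) :
    ∃ F : Ω → ℂ, Measurable F ∧ (∃ B : ℝ, ∀ x, ‖F x‖ ≤ B) ∧ f =ᵐ[μ] F := by
  classical
  obtain ⟨hm, hb⟩ := hf
  set g := hm.mk f with hg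
  have hgm : Measurable g := hm.stronglyMeasurable_mk.measurable
  have hfg : f =ᵐ[μ] g := hm.ae_eq_mk
  rw [eLpNorm_exponent_top] at hb
  have hB : ∀ᵐ x ∂μ, ‖f x‖ ≤ (eLpNormEssSup f μ).toReal := by
    filter_upwards [ae_le_eLpNormEssSup (f := f) (μ := μ)] with x hx
    rw [← toReal_enorm]
    exact ENNReal.toReal_mono hb.ne hx
  set B := (eLpNormEssSup f μ).toReal with hBdef
  refine ⟨fun x => if ‖g x‖ ≤ B then g x else 0, ?_, ⟨B, fun x => ?_⟩, ?_⟩
  · exact Measurable.ite (measurableSet_le hgm.norm measurable_const) hgm measurable_const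
  · change ‖(if ‖g x‖ ≤ B then g x else 0)‖ ≤ B
    split_ifs with h
    · exact h
    · simp [hBdef]
  · filter_upwards [hfg, hB] with x h1 h2
    rw [← h1, if_pos h2]

/-- Real and imaginary parts. -/
def prt (b : Bool) (z : ℂ) : ℝ := if b then z.re else z.im

/-- The coefficients of the parts. -/
noncomputable def cf (b : Bool) : ℂ := if b then 1 else Complex.I

theorem sum_prt (z : ℂ) : z = ∑ b : Bool, cf b * ((prt b z : ℝ) : ℂ) := by
  simp only [Fintype.sum_bool, cf, prt, if_true, if_false, Bool.false_eq_true]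
  rw [one_mul, mul_comm Complex.I]
  exact (Complex.re_add_im z).symm

theorem prt_le (b : Bool) (z : ℂ) : |prt b z| ≤ ‖z‖ := by
  cases b
  · exact Complex.abs_im_le_norm z
  · exact Complex.abs_re_le_norm z

theorem prt_meas (b : Bool) : Measurable (prt b) := by
  cases b
  · exact Complex.measurable_im
  · exact Complex.measurable_re

theorem avC_sum {ι : Type*} (s : Finset ι) (c : ι → ℂ) (w : ι → ℤ → ℝ) (N : ℕ) :
    avC (fun n => ∑ i ∈ s, c i * ((w i n : ℝ) : ℂ)) N = ∑ i ∈ s, c i * ((av (w i) N : ℝ) : ℂ) := by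
  unfold avC av
  rw [Finset.sum_comm, Finset.mul_sum]
  refine Finset.sum_congr rfl fun i _ => ?_
  rw [← Finset.mul_sum]
  push_cast
  ring

theorem avC_prt (w : ℤ → ℂ) (N : ℕ) :
    avC w N = ∑ b : Bool, cf b * ((av (fun n => prt b (w n)) N : ℝ) : ℂ) := by
  rw [← avC_sum]
  congr 1
  funext n
  exact sum_prt (w n)

theorem prod_prt {ι : Type*} [Fintype ι] [DecidableEq ι] (z : ι → ℂ) :
    ∏ j, z j = ∑ s : ι → Bool, (∏ j, cf (s j)) * ((∏ j, prt (s j) (z j) : ℝ) : ℂ) := by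
  have h : ∏ j, z j = ∏ j, ∑ b : Bool, cf b * ((prt b (z j) : ℝ) : ℂ) :=
    Finset.prod_congr rfl fun j _ => sum_prt (z j)
  rw [h, Finset.prod_univ_sum, Fintype.piFinset_univ]
  refine Finset.sum_congr rfl fun s _ => ?_
  rw [Finset.prod_mul_distrib]
  push_cast
  rfl

theorem prod_sum_av {ι : Type*} [Fintype ι] [DecidableEq ι] (a : ι → Bool → ℝ) :
    ∏ j, ∑ b : Bool, cf b * ((a j b : ℝ) : ℂ)
      = ∑ s : ι → Bool, (∏ j, cf (s j)) * ((∏ j, a j (s j) : ℝ) : ℂ) := by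
  rw [Finset.prod_univ_sum, Fintype.piFinset_univ]
  refine Finset.sum_congr rfl fun s _ => ?_
  rw [Finset.prod_mul_distrib]
  push_cast
  rfl

theorem avC_norm_le (w : ℤ → ℂ) (B : ℝ) (hw : ∀ n, ‖w n‖ ≤ B) (N : ℕ) : ‖avC w N‖ ≤ B := by
  unfold avC
  rw [norm_mul, norm_inv]
  have h1 : ‖(2 * (N : ℂ) + 1)‖ = 2 * (N : ℝ) + 1 := by
    have : (2 * (N : ℂ) + 1) = ((2 * (N : ℝ) + 1 : ℝ) : ℂ) := by push_cast; ring
    rw [this, Complex.norm_real, Real.norm_of_nonneg (by positivity)]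
  have h2 : ‖∑ n ∈ Finset.Icc (-(N : ℤ)) N, w n‖ ≤ (2 * (N : ℝ) + 1) * B := by
    refine (norm_sum_le_of_le _ fun n _ => hw n).trans (le_of_eq ?_)
    rw [Finset.sum_const, Int.card_Icc, nsmul_eq_mul]
    congr 1
    have : ((N : ℤ) + 1 - -(N : ℤ)).toNat = 2 * N + 1 := by omega
    rw [this]
    push_cast
    ring
  rw [h1]
  have h3 : (0 : ℝ) < 2 * (N : ℝ) + 1 := by positivity
  calc (2 * (N : ℝ) + 1)⁻¹ * ‖∑ n ∈ Finset.Icc (-(N : ℤ)) N, w n‖
      ≤ (2 * (N : ℝ) + 1)⁻¹ * ((2 * (N : ℝ) + 1) * B) := by gcongr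
    _ = B := by rw [← mul_assoc, inv_mul_cancel₀ h3.ne', one_mul]

/-- The averages of a product of complex sequences minus the product of the averages. -/
theorem avC_diffG {κ ι : Type*} [Fintype κ] [DecidableEq κ] [Fintype ι] [DecidableEq ι]
    (v : κ → ℤ → ℂ) (w : ι → ℤ → ℂ)
    (h : ∀ (s₀ : κ → Bool) (s : ι → Bool), Tendsto (fun N : ℕ =>
      av (fun n => (∏ k, prt (s₀ k) (v k n)) * ∏ j, prt (s j) (w j n)) N
        - av (fun n => ∏ k, prt (s₀ k) (v k n)) N * ∏ j, av (fun n => prt (s j) (w j n)) N)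
        atTop (𝓝 0)) :
    Tendsto (fun N : ℕ => avC (fun n => (∏ k, v k n) * ∏ j, w j n) N
      - avC (fun n => ∏ k, v k n) N * ∏ j, avC (w j) N) atTop (𝓝 0) := by
  have key : ∀ N, avC (fun n => (∏ k, v k n) * ∏ j, w j n) N
        - avC (fun n => ∏ k, v k n) N * ∏ j, avC (w j) N
      = ∑ s₀ : κ → Bool, ∑ s : ι → Bool, ((∏ k, cf (s₀ k)) * ∏ j, cf (s j)) *
        (((av (fun n => (∏ k, prt (s₀ k) (v k n)) * ∏ j, prt (s j) (w j n)) N
        - av (fun n => ∏ k, prt (s₀ k) (v k n)) N *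
          ∏ j, av (fun n => prt (s j) (w j n)) N : ℝ)) : ℂ) := by
    intro N
    have e1 : avC (fun n => (∏ k, v k n) * ∏ j, w j n) N
        = ∑ p : (κ → Bool) × (ι → Bool), ((∏ k, cf (p.1 k)) * ∏ j, cf (p.2 j)) *
          ((av (fun n => (∏ k, prt (p.1 k) (v k n)) * ∏ j, prt (p.2 j) (w j n)) N : ℝ) : ℂ) := by
      rw [← avC_sum]
      congr 1
      funext n
      rw [prod_prt (fun k => v k n), prod_prt (fun j => w j n), Finset.sum_mul_sum,
        Fintype.sum_prod_type]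
      refine Finset.sum_congr rfl fun b _ => Finset.sum_congr rfl fun s _ => ?_
      push_cast
      ring
    have e3 : avC (fun n => ∏ k, v k n) N = ∑ s₀ : κ → Bool, (∏ k, cf (s₀ k)) *
        ((av (fun n => ∏ k, prt (s₀ k) (v k n)) N : ℝ) : ℂ) := by
      rw [← avC_sum]
      congr 1
      funext n
      exact prod_prt (fun k => v k n)
    have e2 : avC (fun n => ∏ k, v k n) N * ∏ j, avC (w j) N
        = ∑ p : (κ → Bool) × (ι → Bool), ((∏ k, cf (p.1 k)) * ∏ j, cf (p.2 j)) *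
          ((av (fun n => ∏ k, prt (p.1 k) (v k n)) N *
            ∏ j, av (fun n => prt (p.2 j) (w j n)) N : ℝ) : ℂ) := by
      rw [e3]
      simp_rw [fun j => avC_prt (w j) N]
      rw [prod_sum_av (fun j b => av (fun n => prt b (w j n)) N), Finset.sum_mul_sum,
        Fintype.sum_prod_type]
      refine Finset.sum_congr rfl fun b _ => Finset.sum_congr rfl fun s _ => ?_
      push_cast
      ring
    rw [e1, e2, ← Finset.sum_sub_distrib, Fintype.sum_prod_type]
    refine Finset.sum_congr rfl fun b _ => Finset.sum_congr rfl fun s _ => ?_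
    push_cast
    ring
  simp_rw [key]
  have : (0 : ℂ) = ∑ s₀ : κ → Bool, ∑ s : ι → Bool,
      ((∏ k, cf (s₀ k)) * ∏ j, cf (s j)) * ((0 : ℝ) : ℂ) := by
    simp
  rw [this]
  refine tendsto_finsetSum _ fun s₀ _ => tendsto_finsetSum _ fun s _ => ?_
  exact ((Complex.continuous_ofReal.tendsto _).comp (h s₀ s)).const_mul _

theorem bounded_integrable [IsProbabilityMeasure μ] {F : Ω → ℂ} (hm : Measurable F) {B : ℝ}
    (hB : ∀ x, ‖F x‖ ≤ B) : Integrable F μ :=
  (integrable_const B).mono' hm.aestronglyMeasurable (Filter.Eventually.of_forall hB)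

/-- The conditional expectation of a complex function from the ones of its parts. -/
theorem condExp_prt [IsProbabilityMeasure μ] (mm : MeasurableSpace Ω) {F : Ω → ℂ}
    (hF : Integrable F μ) :
    ∀ᵐ x ∂μ, (μ[F | mm]) x = ∑ b : Bool, cf b * (((μ[fun y => prt b (F y) | mm]) x : ℝ) : ℂ) := by
  have h1 := ContinuousLinearMap.comp_condExp_comm (m := mm) hF Complex.reCLM
  have h2 := ContinuousLinearMap.comp_condExp_comm (m := mm) hF Complex.imCLM
  have h3 : (fun y => prt true (F y)) = Complex.reCLM ∘ F := rfl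
  have h4 : (fun y => prt false (F y)) = Complex.imCLM ∘ F := rfl
  filter_upwards [h1, h2] with x a1 a2
  rw [Fintype.sum_bool, h3, h4, ← a1, ← a2]
  simp only [cf, if_true, if_false, Bool.false_eq_true]
  rw [one_mul, mul_comm Complex.I]
  exact (Complex.re_add_im _).symm

theorem main_cplxG [MeasurableSpace.CountablyGenerated Ω] [IsProbabilityMeasure μ]
    {Γ : Type*} [Countable Γ] {γ : Γ → ℤ → Ω → Ω} (hγ : ∀ p n, MeasurePreserving (γ p n) μ μ)
    (hmax : ∀ p, MaxSq μ (γ p))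
    {φ : Fin (d + 1) → ℝ → Ω → Ω} (hφ : ∀ j, IsFlow μ (φ j)) (D : ℕ) :
    ∃ E : Set (Fin (d + 1) → ℝ), dimH E < (d : ENNReal) + 1 ∧
      ∀ t ∉ E, ∀ Q : Fin (d + 1) → Polynomial ℤ,
        (∀ j, 1 ≤ (Q j).natDegree ∧ (Q j).natDegree ≤ D) →
        ∀ (m : ℕ) (p : Fin m → Γ) (F : Fin m → Ω → ℂ) (f : Fin (d + 1) → Ω → ℂ),
          (∀ k, MemLp (F k) ⊤ μ) → (∀ j, MemLp (f j) ⊤ μ) →
          ∀ᵐ x ∂μ,
            (∀ j, Tendsto (fun N : ℕ =>
              avC (fun n => f j (φ j (t j * (((Q j).eval n : ℤ) : ℝ)) x)) N) atTop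
                (𝓝 ((μ[f j | ⨅ s : ℝ, MeasurableSpace.invariants (φ j s)]) x))) ∧
            Tendsto (fun N : ℕ => avC (fun n => (∏ k, F k (γ (p k) n x)) *
                ∏ j, f j (φ j (t j * (((Q j).eval n : ℤ) : ℝ)) x)) N
              - avC (fun n => ∏ k, F k (γ (p k) n x)) N *
                ∏ j, (μ[f j | ⨅ s : ℝ, MeasurableSpace.invariants (φ j s)]) x) atTop (𝓝 0) := by
  obtain ⟨E, hE, hmain⟩ := main_gen (fun p n => (hγ p n).measurable) hmax hφ D
  refine ⟨E, ?_, ?_⟩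
  · refine lt_of_le_of_lt hE ?_
    have h1 : (d : ENNReal) + 1 = ENNReal.ofReal ((d : ℝ) + 1) := by
      rw [ENNReal.ofReal_add (by positivity) (by norm_num), ENNReal.ofReal_natCast,
        ENNReal.ofReal_one]
    rw [h1]
    refine (ENNReal.ofReal_lt_ofReal_iff (by positivity)).2 ?_
    have : (0 : ℝ) < 1 / (2 * ((96 * D : ℕ) : ℝ) + 4) := by positivity
    linarith
  intro t ht Q hQ m p F f hF hf
  obtain ⟨hlim, hprod⟩ := hmain t ht Q hQ
  choose G hGm hGb hG using fun k => exists_version (hF k)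
  choose Bk hBk using hGb
  choose g hgm hgb hg using fun j => exists_version (hf j)
  choose Bj hBj using hgb
  set B : ℝ := ∑ k, |Bk k| + ∑ j, |Bj j| with hB
  have hBk' : ∀ k x, ‖G k x‖ ≤ B := by
    intro k x
    have h1 : |Bk k| ≤ ∑ k, |Bk k| :=
      Finset.single_le_sum (fun k _ => abs_nonneg (Bk k)) (Finset.mem_univ k)
    have h2 := hBk k x
    have h3 := le_abs_self (Bk k)
    have h4 : 0 ≤ ∑ j, |Bj j| := Finset.sum_nonneg fun j _ => abs_nonneg _
    linarith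
  have hBj' : ∀ j x, ‖g j x‖ ≤ B := by
    intro j x
    have h1 : |Bj j| ≤ ∑ j, |Bj j| :=
      Finset.single_le_sum (fun j _ => abs_nonneg (Bj j)) (Finset.mem_univ j)
    have h2 := hBj j x
    have h3 := le_abs_self (Bj j)
    have h4 : 0 ≤ ∑ k, |Bk k| := Finset.sum_nonneg fun j _ => abs_nonneg _
    linarith
  -- almost every orbit avoids the null sets
  have a₀ : ∀ᵐ x ∂μ, ∀ (k : Fin m) (n : ℤ), F k (γ (p k) n x) = G k (γ (p k) n x) := by
    rw [ae_all_iff]
    intro k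
    rw [ae_all_iff]
    intro n
    exact (hγ (p k) n).quasiMeasurePreserving.ae (hG k)
  have a₁ : ∀ᵐ x ∂μ, ∀ (j : Fin (d + 1)) (n : ℤ), f j (φ j (t j * (((Q j).eval n : ℤ) : ℝ)) x)
      = g j (φ j (t j * (((Q j).eval n : ℤ) : ℝ)) x) := by
    rw [ae_all_iff]
    intro j
    rw [ae_all_iff]
    intro n
    exact ((hφ j).mp _).quasiMeasurePreserving.ae (hg j)
  have a₂ : ∀ᵐ x ∂μ, ∀ j : Fin (d + 1),
      (μ[f j | ⨅ s : ℝ, MeasurableSpace.invariants (φ j s)]) x =
        (μ[g j | ⨅ s : ℝ, MeasurableSpace.invariants (φ j s)]) x := by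
    rw [ae_all_iff]
    intro j
    exact condExp_congr_ae (hg j)
  have a₃ : ∀ᵐ x ∂μ, ∀ j : Fin (d + 1),
      (μ[g j | ⨅ s : ℝ, MeasurableSpace.invariants (φ j s)]) x =
        ∑ b : Bool, cf b * (((μ[fun y => prt b (g j y) |
          ⨅ s : ℝ, MeasurableSpace.invariants (φ j s)]) x : ℝ) : ℂ) := by
    rw [ae_all_iff]
    intro j
    exact condExp_prt _ (bounded_integrable (hgm j) (hBj' j))
  -- the single averages
  have c₁ : ∀ᵐ x ∂μ, ∀ (j : Fin (d + 1)) (b : Bool), Tendsto (fun N : ℕ =>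
      av (fun n => prt b (g j (φ j (t j * (((Q j).eval n : ℤ) : ℝ)) x))) N) atTop
        (𝓝 ((μ[fun y => prt b (g j y) | ⨅ s : ℝ, MeasurableSpace.invariants (φ j s)]) x)) := by
    rw [ae_all_iff]
    intro j
    rw [ae_all_iff]
    intro b
    exact hlim j (fun x => prt b (g j x)) ((prt_meas b).comp (hgm j)) B
      fun x => (prt_le b _).trans (hBj' j x)
  -- the products
  have c₂ : ∀ᵐ x ∂μ, ∀ (s₀ : Fin m → Bool) (s : Fin (d + 1) → Bool), Tendsto (fun N : ℕ =>
      av (fun n => (∏ k, prt (s₀ k) (G k (γ (p k) n x))) *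
          ∏ j, prt (s j) (g j (φ j (t j * (((Q j).eval n : ℤ) : ℝ)) x))) N
        - av (fun n => ∏ k, prt (s₀ k) (G k (γ (p k) n x))) N *
          ∏ j, av (fun n => prt (s j) (g j (φ j (t j * (((Q j).eval n : ℤ) : ℝ)) x))) N)
      atTop (𝓝 0) := by
    rw [ae_all_iff]
    intro s₀
    rw [ae_all_iff]
    intro s
    exact hprod m p (fun k x => prt (s₀ k) (G k x)) (fun j x => prt (s j) (g j x))
      (fun k => (prt_meas (s₀ k)).comp (hGm k)) (fun j => (prt_meas (s j)).comp (hgm j)) B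
      (fun k x => (prt_le _ _).trans (hBk' k x)) (fun j x => (prt_le _ _).trans (hBj' j x))
  filter_upwards [a₀, a₁, a₂, a₃, c₁, c₂] with x h₀ h₁ h₂ h₃ g₁ g₂
  have e₁ : ∀ j, (fun n : ℤ => f j (φ j (t j * (((Q j).eval n : ℤ) : ℝ)) x))
      = fun n : ℤ => g j (φ j (t j * (((Q j).eval n : ℤ) : ℝ)) x) := fun j => funext (h₁ j)
  have e₀ : (fun n : ℤ => ∏ k, F k (γ (p k) n x)) = fun n : ℤ => ∏ k, G k (γ (p k) n x) := by
    funext n
    exact Finset.prod_congr rfl fun k _ => h₀ k n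
  have e₂ : (fun n : ℤ => (∏ k, F k (γ (p k) n x)) *
        ∏ j, f j (φ j (t j * (((Q j).eval n : ℤ) : ℝ)) x))
      = fun n : ℤ => (∏ k, G k (γ (p k) n x)) *
        ∏ j, g j (φ j (t j * (((Q j).eval n : ℤ) : ℝ)) x) := by
    funext n
    congr 1
    · exact Finset.prod_congr rfl fun k _ => h₀ k n
    · exact Finset.prod_congr rfl fun j _ => h₁ j n
  have t₁ : ∀ j, Tendsto (fun N : ℕ =>
      avC (fun n => g j (φ j (t j * (((Q j).eval n : ℤ) : ℝ)) x)) N) atTop
      (𝓝 ((μ[f j | ⨅ s : ℝ, MeasurableSpace.invariants (φ j s)]) x)) := by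
    intro j
    rw [h₂ j, h₃ j]
    simp_rw [avC_prt]
    refine tendsto_finsetSum _ fun b _ => ?_
    exact ((Complex.continuous_ofReal.tendsto _).comp (g₁ j b)).const_mul _
  refine ⟨fun j => ?_, ?_⟩
  · rw [e₁ j]
    exact t₁ j
  · rw [e₂, e₀]
    have t₂ := avC_diffG (fun k (n : ℤ) => G k (γ (p k) n x))
      (fun j (n : ℤ) => g j (φ j (t j * (((Q j).eval n : ℤ) : ℝ)) x)) g₂
    have t₃ := (tendsto_finsetProd Finset.univ fun j (_ : j ∈ Finset.univ) => t₁ j).sub_const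
      (∏ j, (μ[f j | ⨅ s : ℝ, MeasurableSpace.invariants (φ j s)]) x)
    rw [sub_self] at t₃
    have hbd : ∀ N : ℕ, ‖avC (fun n => ∏ k, G k (γ (p k) n x)) N‖ ≤ ∏ _k : Fin m, B := by
      intro N
      refine avC_norm_le _ _ (fun n => ?_) N
      rw [norm_prod]
      exact Finset.prod_le_prod (fun k _ => norm_nonneg _) fun k _ => hBk' k _
    have t₄ : Tendsto (fun N : ℕ => avC (fun n => ∏ k, G k (γ (p k) n x)) N *
        ((∏ j, avC (fun n => g j (φ j (t j * (((Q j).eval n : ℤ) : ℝ)) x)) N) -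
          ∏ j, (μ[f j | ⨅ s : ℝ, MeasurableSpace.invariants (φ j s)]) x)) atTop (𝓝 0) := by
      have t₅ := t₃.norm.const_mul (∏ _k : Fin m, B)
      rw [norm_zero, mul_zero] at t₅
      refine squeeze_zero_norm (fun N => ?_) t₅
      rw [norm_mul]
      exact mul_le_mul_of_nonneg_right (hbd N) (norm_nonneg _)
    have t₆ := t₂.add t₄
    rw [zero_add] at t₆
    refine t₆.congr fun N => ?_
    ring

end Pool.AET
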