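import Pool.Agent.AET.Single

/-!
# From basic families of functions to all bounded functions
-/

set_option autoImplicit false

open MeasureTheory Set Filter Topology Finset

namespace Pool.AET

theorem av_add (v w : ℤ → ℝ) (N : ℕ) : av (fun n => v n + w n) N = av v N + av w N := by
  unfold av
  rw [Finset.sum_add_distrib, mul_add]

theorem av_sub (v w : ℤ → ℝ) (N : ℕ) : av (fun n => v n - w n) N = av v N - av w N := by
  unfold av
  rw [Finset.sum_sub_distrib, mul_sub]

theorem av_const_mul (r : ℝ) (w : ℤ → ℝ) (N : ℕ) : av (fun n => r * w n) N = r * av w N := by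
  unfold av
  rw [← Finset.mul_sum]
  ring

theorem av_sum {m : ℕ} (w : Fin m → ℤ → ℝ) (N : ℕ) :
    av (fun n => ∑ l, w l n) N = ∑ l, av (w l) N := by
  unfold av
  rw [Finset.sum_comm, Finset.mul_sum]

theorem card_Icc_neg (N : ℕ) : ((Finset.Icc (-(N : ℤ)) N).card : ℝ) = 2 * (N : ℝ) + 1 := by
  rw [Int.card_Icc]
  have : ((N : ℤ) + 1 - -(N : ℤ)).toNat = 2 * N + 1 := by omega
  rw [this]
  push_cast
  ring

theorem av_const (r : ℝ) (N : ℕ) : av (fun _ => r) N = r := by
  unfold av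
  rw [Finset.sum_const, nsmul_eq_mul, card_Icc_neg]
  have : (2 * (N : ℝ) + 1) ≠ 0 := by positivity
  field_simp

theorem av_mono {v w : ℤ → ℝ} (h : ∀ n, v n ≤ w n) (N : ℕ) : av v N ≤ av w N := by
  unfold av
  exact mul_le_mul_of_nonneg_left (Finset.sum_le_sum fun n _ => h n) (by positivity)

theorem abs_av_le {v w : ℤ → ℝ} (h : ∀ n, |v n| ≤ w n) (N : ℕ) : |av v N| ≤ av w N := by
  unfold av
  rw [abs_mul, abs_of_nonneg (by positivity : (0 : ℝ) ≤ (2 * (N : ℝ) + 1)⁻¹)]
  refine mul_le_mul_of_nonneg_left ?_ (by positivity)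
  exact (Finset.abs_sum_le_sum_abs _ _).trans (Finset.sum_le_sum fun n _ => h n)

theorem av_nonneg {v : ℤ → ℝ} (h : ∀ n, 0 ≤ v n) (N : ℕ) : 0 ≤ av v N := by
  unfold av
  exact mul_nonneg (by positivity) (Finset.sum_nonneg fun n _ => h n)

theorem abs_av_le_const {v : ℤ → ℝ} {B : ℝ} (h : ∀ n, |v n| ≤ B) (N : ℕ) : |av v N| ≤ B := by
  have := abs_av_le (w := fun _ => B) h N
  rwa [av_const] at this

variable {Ω : Type*}

/-- The functional `Δ` of families of functions is, as a function of each coordinate, a combination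
of weighted averages along the orbit `τ a`. -/
def Rep {ι : Type*} [Fintype ι] [DecidableEq ι] (τ : ι → ℤ → Ω → Ω)
    (Δ : (ι → Ω → ℝ) → ℕ → Ω → ℝ) : Prop :=
  ∀ (f : ι → Ω → ℝ) (a : ι) (N : ℕ) (x : Ω), ∃ (W₁ W₂ : ℤ → ℝ) (V : ℝ),
    (∀ v : Ω → ℝ, Δ (Function.update f a v) N x
      = av (fun n => v (τ a n x) * W₁ n) N - av (fun n => v (τ a n x) * W₂ n) N * V) ∧
    ∀ B : ℝ, 1 ≤ B → (∀ i x, |f i x| ≤ B) →
      (∀ n, |W₁ n| ≤ B ^ (Fintype.card ι)) ∧ ∀ n, |W₂ n * V| ≤ B ^ (Fintype.card ι)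

section

variable {ι : Type*} [Fintype ι] [DecidableEq ι] {τ : ι → ℤ → Ω → Ω}
  {Δ : (ι → Ω → ℝ) → ℕ → Ω → ℝ} (f : ι → Ω → ℝ) (a : ι)

theorem Rep.sum (hΔ : Rep τ Δ) {m : ℕ} (r : Fin m → ℝ) (k : Fin m → Ω → ℝ) (N : ℕ) (x : Ω) :
    Δ (Function.update f a (fun y => ∑ l, r l * k l y)) N x
      = ∑ l, r l * Δ (Function.update f a (k l)) N x := by
  obtain ⟨W₁, W₂, V, h1, -⟩ := hΔ f a N x
  rw [h1]
  simp_rw [h1, mul_sub, Finset.sum_sub_distrib]
  congr 1
  · simp_rw [Finset.sum_mul, mul_assoc]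
    rw [av_sum]
    refine Finset.sum_congr rfl fun l _ => ?_
    rw [av_const_mul]
  · simp_rw [Finset.sum_mul, mul_assoc]
    rw [av_sum, Finset.sum_mul]
    refine Finset.sum_congr rfl fun l _ => ?_
    rw [av_const_mul, mul_assoc]

theorem Rep.sub_le (hΔ : Rep τ Δ) {B : ℝ} (hB : 1 ≤ B) (hf : ∀ i x, |f i x| ≤ B) (v w : Ω → ℝ)
    (N : ℕ) (x : Ω) :
    |Δ (Function.update f a v) N x - Δ (Function.update f a w) N x|
      ≤ 2 * B ^ (Fintype.card ι) * av (fun n => |v (τ a n x) - w (τ a n x)|) N := by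
  obtain ⟨W₁, W₂, V, h1, h2⟩ := hΔ f a N x
  obtain ⟨h3, h4⟩ := h2 B hB hf
  rw [h1, h1]
  have e1 : av (fun n => v (τ a n x) * W₁ n) N - av (fun n => v (τ a n x) * W₂ n) N * V
        - (av (fun n => w (τ a n x) * W₁ n) N - av (fun n => w (τ a n x) * W₂ n) N * V)
      = av (fun n => (v (τ a n x) - w (τ a n x)) * W₁ n) N
        - av (fun n => (v (τ a n x) - w (τ a n x)) * (W₂ n * V)) N := by
    have e2 : av (fun n => (v (τ a n x) - w (τ a n x)) * (W₂ n * V)) N
        = av (fun n => (v (τ a n x) - w (τ a n x)) * W₂ n) N * V := by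
      rw [mul_comm _ V, ← av_const_mul]
      congr 1
      funext n
      ring
    rw [e2]
    simp_rw [sub_mul]
    rw [av_sub, av_sub]
    ring
  rw [e1]
  set A := av (fun n => |v (τ a n x) - w (τ a n x)|) N with hA
  have hgen : ∀ W : ℤ → ℝ, (∀ n, |W n| ≤ B ^ (Fintype.card ι)) →
      |av (fun n => (v (τ a n x) - w (τ a n x)) * W n) N| ≤ B ^ (Fintype.card ι) * A := by
    intro W hW
    rw [hA, ← av_const_mul]
    apply abs_av_le
    intro n
    rw [abs_mul, mul_comm]
    exact mul_le_mul_of_nonneg_right (hW n) (abs_nonneg _)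
  refine (abs_sub _ _).trans ?_
  have a1 := hgen W₁ h3
  have a2 := hgen (fun n => W₂ n * V) h4
  linarith

end

variable [MeasurableSpace Ω] {μ : Measure Ω}

/-- One step: from a dense class to all bounded functions in one coordinate. -/
theorem ext_step [IsProbabilityMeasure μ] {ι : Type*} [Fintype ι] [DecidableEq ι]
    {τ : ι → ℤ → Ω → Ω} {Δ : (ι → Ω → ℝ) → ℕ → Ω → ℝ} (hΔ : Rep τ Δ) (a : ι)
    (hmax : MaxSq μ (τ a)) (K : (Ω → ℝ) → Prop)
    (hK : ∀ k, K k → Measurable k ∧ ∀ x, |k x| ≤ 1)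
    (f : ι → Ω → ℝ) {B : ℝ} (hfm : Measurable (f a)) (hfB : ∀ i x, |f i x| ≤ B)
    (hdens : ∀ ε : ℝ, 0 < ε → ∃ (m : ℕ) (r : Fin m → ℝ) (k : Fin m → Ω → ℝ), (∀ l, K (k l)) ∧
      ∫ x, (f a x - ∑ l, r l * k l x) ^ 2 ∂μ ≤ ε)
    (hbase : ∀ k, K k → ∀ᵐ x ∂μ, Tendsto (fun N => Δ (Function.update f a k) N x)
      atTop (𝓝 0)) :
    ∀ᵐ x ∂μ, Tendsto (fun N => Δ f N x) atTop (𝓝 0) := by
  obtain ⟨C, hC0, hC⟩ := hmax
  set B₁ : ℝ := max B 1 with hB₁
  have hB1 : 1 ≤ B₁ := le_max_right _ _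
  have hfB₁ : ∀ i x, |f i x| ≤ B₁ := fun i x => (hfB i x).trans (le_max_left _ _)
  set W : ℝ := 2 * B₁ ^ (Fintype.card ι) with hW
  have hW0 : 0 ≤ W := by positivity
  have hself : Function.update f a (f a) = f := Function.update_eq_self a f
  -- the bad sets
  have key : ∀ lam : ℝ, 0 < lam →
      ∀ᵐ x ∂μ, ∀ᶠ N in atTop, |Δ f N x| ≤ (W + 1) * lam := by
    intro lam hlam
    rw [ae_iff]
    have hle : ∀ ε : ℝ, 0 < ε →
        μ {x | ¬ ∀ᶠ N in atTop, |Δ f N x| ≤ (W + 1) * lam} ≤ ENNReal.ofReal (C * ε / lam ^ 2) := by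
      intro ε hε
      obtain ⟨m, r, k, hk, hint⟩ := hdens ε hε
      set w : Ω → ℝ := fun y => ∑ l, r l * k l y with hw
      have hwm : Measurable w := by
        refine Finset.measurable_fun_sum _ fun l _ => ?_
        exact (hK _ (hk l)).1.const_mul _
      have hwb : ∀ x, |w x| ≤ ∑ l, |r l| := by
        intro x
        refine (Finset.abs_sum_le_sum_abs _ _).trans (Finset.sum_le_sum fun l _ => ?_)
        rw [abs_mul]
        have := (hK _ (hk l)).2 x
        have h2 := mul_le_mul_of_nonneg_left this (abs_nonneg (r l))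
        linarith
      set v : Ω → ℝ := fun x => |f a x - w x| with hv
      have hvm : Measurable v := (hfm.sub hwm).abs
      have hvb : ∀ x, |v x| ≤ B + ∑ l, |r l| := by
        intro x
        rw [hv]
        simp only [abs_abs]
        refine (abs_sub _ _).trans (add_le_add (hfB _ _) (hwb x))
      have hvL : MemLp v 2 μ :=
        MemLp.of_bound hvm.aestronglyMeasurable (B + ∑ l, |r l|)
          (Filter.Eventually.of_forall fun x => by simpa using hvb x)
      have h1 := hC v hvm hvL (fun x => abs_nonneg _) lam hlam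
      have h2 : ∫ x, v x ^ 2 ∂μ ≤ ε := by
        have : ∀ x, v x ^ 2 = (f a x - ∑ l, r l * k l x) ^ 2 := fun x => sq_abs _
        simp_rw [this]
        exact hint
      have h3 : ∀ᵐ x ∂μ, Tendsto (fun N => Δ (Function.update f a w) N x) atTop (𝓝 0) := by
        have h4 : ∀ l, ∀ᵐ x ∂μ, Tendsto (fun N => Δ (Function.update f a (k l)) N x)
            atTop (𝓝 0) := fun l => hbase _ (hk l)
        filter_upwards [ae_all_iff.2 h4] with x hx
        have h5 : (fun N => Δ (Function.update f a w) N x)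
            = fun N => ∑ l, r l * Δ (Function.update f a (k l)) N x := by
          funext N
          exact hΔ.sum f a r k N x
        rw [h5]
        have h6 : Tendsto (fun N => ∑ l, r l * Δ (Function.update f a (k l)) N x) atTop
            (𝓝 (∑ l : Fin m, r l * 0)) :=
          tendsto_finsetSum _ fun l _ => (hx l).const_mul _
        simpa using h6
      have hsub : {x | ¬ ∀ᶠ N in atTop, |Δ f N x| ≤ (W + 1) * lam}
          ⊆ {x | ∃ N : ℕ, lam < (2 * (N : ℝ) + 1)⁻¹ *
              ∑ n ∈ Finset.Icc (-(N : ℤ)) N, v (τ a n x)}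
            ∪ {x | ¬ Tendsto (fun N => Δ (Function.update f a w) N x) atTop (𝓝 0)} := by
        intro x hx
        by_contra hcon
        rw [Set.mem_union, not_or] at hcon
        obtain ⟨h7, h8⟩ := hcon
        simp only [Set.mem_ofPred_eq, not_exists, not_lt, not_not] at h7 h8
        apply hx
        have h9 : ∀ᶠ N in atTop, |Δ (Function.update f a w) N x| < lam := by
          have := h8.abs
          rw [abs_zero] at this
          exact this.eventually_lt_const hlam
        filter_upwards [h9] with N hN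
        have h10 := hΔ.sub_le f a hB1 hfB₁ (f a) w N x
        rw [hself] at h10
        have h11 : av (fun n => |f a (τ a n x) - w (τ a n x)|) N ≤ lam := h7 N
        have h12 : |Δ f N x| ≤ |Δ f N x - Δ (Function.update f a w) N x|
            + |Δ (Function.update f a w) N x| := by
          have := abs_add_le (Δ f N x - Δ (Function.update f a w) N x)
            (Δ (Function.update f a w) N x)
          simpa using this
        have h13 := mul_le_mul_of_nonneg_left h11 hW0
        linarith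
      refine (measure_mono hsub).trans ((measure_union_le _ _).trans ?_)
      have h14 : μ {x | ¬ Tendsto (fun N => Δ (Function.update f a w) N x) atTop (𝓝 0)} = 0 :=
        ae_iff.1 h3
      rw [h14, add_zero]
      refine h1.trans (ENNReal.ofReal_le_ofReal ?_)
      exact div_le_div_of_nonneg_right (mul_le_mul_of_nonneg_left h2 hC0) (by positivity)
    refine le_antisymm ?_ zero_le
    have hlim : Tendsto (fun n : ℕ => ENNReal.ofReal (C * (1 / ((n : ℝ) + 1)) / lam ^ 2)) atTop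
        (𝓝 0) := by
      have h1 : Tendsto (fun n : ℕ => C * (1 / ((n : ℝ) + 1)) / lam ^ 2) atTop
          (𝓝 (C * 0 / lam ^ 2)) :=
        ((tendsto_one_div_add_atTop_nhds_zero_nat (𝕜 := ℝ)).const_mul C).div_const _
      have h2 := (ENNReal.continuous_ofReal.tendsto _).comp h1
      simpa [Function.comp_def] using h2
    exact ge_of_tendsto' hlim fun n => hle _ (by positivity)
  have hall : ∀ᵐ x ∂μ, ∀ p : ℕ, ∀ᶠ N in atTop, |Δ f N x| ≤ (W + 1) * (1 / ((p : ℝ) + 1)) :=
    ae_all_iff.2 fun p => key _ (by positivity)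
  filter_upwards [hall] with x hx
  rw [Metric.tendsto_atTop]
  intro δ hδ
  obtain ⟨p, hp⟩ := exists_nat_one_div_lt (show 0 < δ / (W + 1) by positivity)
  have h1 := hx p
  rw [Filter.eventually_atTop] at h1
  obtain ⟨N₀, hN₀⟩ := h1
  refine ⟨N₀, fun N hN => ?_⟩
  rw [Real.dist_eq, sub_zero]
  refine (hN₀ N hN).trans_lt ?_
  have h2 : (W + 1) * (1 / ((p : ℝ) + 1)) < (W + 1) * (δ / (W + 1)) :=
    mul_lt_mul_of_pos_left hp (by positivity)
  have h3 : (W + 1) * (δ / (W + 1)) = δ := by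
    have : W + 1 ≠ 0 := by positivity
    field_simp
  linarith

/-- All coordinates. -/
theorem ext_all [IsProbabilityMeasure μ] {ι : Type*} [Fintype ι] [DecidableEq ι]
    {τ : ι → ℤ → Ω → Ω} {Δ : (ι → Ω → ℝ) → ℕ → Ω → ℝ} (hΔ : Rep τ Δ)
    (hmax : ∀ i, MaxSq μ (τ i)) (K : ι → (Ω → ℝ) → Prop)
    (hK : ∀ i k, K i k → Measurable k ∧ ∀ x, |k x| ≤ 1)
    (hdens : ∀ i (f : Ω → ℝ), Measurable f → (∃ B : ℝ, ∀ x, |f x| ≤ B) → ∀ ε : ℝ, 0 < ε →
      ∃ (m : ℕ) (r : Fin m → ℝ) (k : Fin m → Ω → ℝ), (∀ l, K i (k l)) ∧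
      ∫ x, (f x - ∑ l, r l * k l x) ^ 2 ∂μ ≤ ε)
    (hbase : ∀ f : ι → Ω → ℝ, (∀ i, K i (f i)) →
      ∀ᵐ x ∂μ, Tendsto (fun N => Δ f N x) atTop (𝓝 0))
    (f : ι → Ω → ℝ) {B : ℝ} (hfm : ∀ i, Measurable (f i)) (hfB : ∀ i x, |f i x| ≤ B) :
    ∀ᵐ x ∂μ, Tendsto (fun N => Δ f N x) atTop (𝓝 0) := by
  have main : ∀ s : Finset ι, ∀ f : ι → Ω → ℝ, (∀ i, Measurable (f i)) →
      (∃ B : ℝ, ∀ i x, |f i x| ≤ B) → (∀ i, i ∉ s → K i (f i)) →
      ∀ᵐ x ∂μ, Tendsto (fun N => Δ f N x) atTop (𝓝 0) := by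
    intro s
    induction s using Finset.induction_on with
    | empty =>
      intro f _ _ hf
      exact hbase f fun i => hf i (by simp)
    | insert a s has ih =>
      intro f hfm hfB hf
      obtain ⟨B, hB⟩ := hfB
      refine ext_step hΔ a (hmax a) (K a) (hK a) f (hfm a) hB
        (hdens a (f a) (hfm a) ⟨B, hB a⟩) ?_
      intro k hk
      apply ih
      · intro i
        by_cases hi : i = a
        · subst hi
          rw [Function.update_self]
          exact (hK _ k hk).1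
        · rw [Function.update_of_ne hi]
          exact hfm i
      · refine ⟨max B 1, fun i x => ?_⟩
        by_cases hi : i = a
        · subst hi
          rw [Function.update_self]
          exact ((hK _ k hk).2 x).trans (le_max_right _ _)
        · rw [Function.update_of_ne hi]
          exact (hB i x).trans (le_max_left _ _)
      · intro i his
        by_cases hi : i = a
        · subst hi
          rw [Function.update_self]
          exact hk
        · rw [Function.update_of_ne hi]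
          apply hf
          simp [hi, his]
  exact main Finset.univ f hfm ⟨B, hfB⟩ fun i hi => absurd (Finset.mem_univ i) hi

end Pool.AET
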