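import Pool.Agent.AET.Single
import Pool.Agent.Nil.Final

/-!
# The maximal inequality for polynomial orbits of nilpotent groups, in the form which we use
-/

set_option autoImplicit false

open MeasureTheory Set Filter Topology Finset

namespace Pool.AET

variable {Ω : Type*} [MeasurableSpace Ω] {μ : Measure Ω} {r : ℕ}

theorem orb_mp (T : Fin r → Equiv.Perm Ω) (hT : ∀ i, MeasurePreserving (T i) μ μ)
    (hT' : ∀ i, Measurable (T i).symm) (P : Fin r → Polynomial ℤ) (n : ℤ) :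
    MeasurePreserving (⇑(Pool.Nil.orb T P n)) μ μ :=
  (Pool.Nil.orb_mem T hT (fun i => mp_symm_aux (T i) (hT i) (hT' i)) P n).1

theorem maxSq_orb [IsProbabilityMeasure μ] (T : Fin r → Equiv.Perm Ω)
    (hT : ∀ i, MeasurePreserving (T i) μ μ) (hT' : ∀ i, Measurable (T i).symm)
    (hnil : Group.IsNilpotent (Subgroup.closure (Set.range T))) (P : Fin r → Polynomial ℤ) :
    MaxSq μ (fun n x => Pool.Nil.orb T P n x) := by
  have hs : ∀ i, MeasurePreserving (T i).symm μ μ := fun i => mp_symm_aux (T i) (hT i) (hT' i)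
  obtain ⟨C, hC⟩ := Pool.Nil.orb_max_two T hT hs hnil P
  refine ⟨C, C.2, fun v hv hv2 hv0 lam hlam => ?_⟩
  have h := hC (fun x => ENNReal.ofReal (v x)) hv.ennreal_ofReal
  set M : Ω → ENNReal := fun x => ⨆ N : ℕ, ((2 * N + 1 : ℕ) : ENNReal)⁻¹ *
    ∑ n ∈ Finset.Icc (-(N : ℤ)) (N : ℤ), ENNReal.ofReal (v (Pool.Nil.orb T P n x))
    with hM
  have hMm : Measurable M := by
    apply Measurable.iSup
    intro N
    apply Measurable.const_mul
    apply Finset.measurable_fun_sum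
    intro n _
    exact (hv.comp (orb_mp T hT hT' P n).measurable).ennreal_ofReal
  have hsub : {x | ∃ N : ℕ, lam < (2 * (N : ℝ) + 1)⁻¹ *
      ∑ n ∈ Finset.Icc (-(N : ℤ)) N, v (Pool.Nil.orb T P n x)} ⊆
      {x | ENNReal.ofReal (lam ^ 2) ≤ M x ^ 2} := by
    rintro x ⟨N, hN⟩
    have h1 : ENNReal.ofReal lam ≤ M x := by
      calc ENNReal.ofReal lam ≤ ENNReal.ofReal ((2 * (N : ℝ) + 1)⁻¹ *
          ∑ n ∈ Finset.Icc (-(N : ℤ)) N, v (Pool.Nil.orb T P n x)) :=
            ENNReal.ofReal_le_ofReal hN.le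
        _ = ((2 * N + 1 : ℕ) : ENNReal)⁻¹ * ∑ n ∈ Finset.Icc (-(N : ℤ)) (N : ℤ),
            ENNReal.ofReal (v (Pool.Nil.orb T P n x)) := by
            rw [ENNReal.ofReal_mul (by positivity), ENNReal.ofReal_inv_of_pos (by positivity),
              ENNReal.ofReal_sum_of_nonneg (fun n _ => hv0 _)]
            congr 2
            rw [← ENNReal.ofReal_natCast]
            push_cast
            rfl
        _ ≤ M x := le_iSup (fun N : ℕ => ((2 * N + 1 : ℕ) : ENNReal)⁻¹ *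
            ∑ n ∈ Finset.Icc (-(N : ℤ)) (N : ℤ),
              ENNReal.ofReal (v (Pool.Nil.orb T P n x))) N
    change ENNReal.ofReal (lam ^ 2) ≤ M x ^ 2
    rw [ENNReal.ofReal_pow hlam.le]
    exact pow_le_pow_left' h1 2
  have hint : ∫⁻ x, ENNReal.ofReal (v x) ^ 2 ∂μ = ENNReal.ofReal (∫ x, v x ^ 2 ∂μ) := by
    rw [ofReal_integral_eq_lintegral_ofReal hv2.integrable_sq
      (Filter.Eventually.of_forall fun x => sq_nonneg _)]
    refine lintegral_congr fun x => ?_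
    rw [ENNReal.ofReal_pow (hv0 x)]
  have h2 : ENNReal.ofReal (lam ^ 2) * μ {x | ENNReal.ofReal (lam ^ 2) ≤ M x ^ 2} ≤
      ENNReal.ofReal (C * ∫ x, v x ^ 2 ∂μ) := by
    calc ENNReal.ofReal (lam ^ 2) * μ {x | ENNReal.ofReal (lam ^ 2) ≤ M x ^ 2}
        ≤ ∫⁻ x, M x ^ 2 ∂μ := mul_meas_ge_le_lintegral (hMm.pow_const 2) _
      _ ≤ C * ∫⁻ x, ENNReal.ofReal (v x) ^ 2 ∂μ := h
      _ = ENNReal.ofReal (C * ∫ x, v x ^ 2 ∂μ) := by
          rw [hint, ENNReal.ofReal_mul (NNReal.coe_nonneg C), ENNReal.ofReal_coe_nnreal]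
  have hl2 : 0 < lam ^ 2 := by positivity
  refine (measure_mono hsub).trans ?_
  rw [ENNReal.ofReal_div_of_pos hl2, ENNReal.le_div_iff_mul_le (Or.inl (by
    simpa using hlam.ne')) (Or.inl ENNReal.ofReal_ne_top), mul_comm]
  exact h2

end Pool.AET
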