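import Mathlib

/-!
# Sets of small dimension are null sets
-/

set_option autoImplicit false

open MeasureTheory Set

namespace Pool.AET

theorem volume_zero_of_dimH {d : ℕ} {E : Set (Fin (d + 1) → ℝ)} (h : dimH E < (d : ENNReal) + 1) :
    volume E = 0 := by
  have h1 : dimH E < (((d : NNReal) + 1 : NNReal) : ENNReal) := by
    simpa using h
  have h2 := hausdorffMeasure_of_dimH_lt h1
  have h3 := hausdorffMeasure_pi_real (ι := Fin (d + 1))
  rw [← h3]
  simpa using h2

end Pool.AET
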