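import Mathlib

/-!
# Increments of an integer polynomial on the large natural numbers
-/

set_option autoImplicit false

open Finset

namespace Pool.AET

private theorem geom_bd (x y : ℝ) (hx : 0 ≤ x) (hxy : x ≤ y) (i : ℕ) :
    |∑ j ∈ range i, y ^ j * x ^ (i - 1 - j)| ≤ i * y ^ (i - 1) := by
  have hy : 0 ≤ y := hx.trans hxy
  rw [abs_of_nonneg (sum_nonneg fun j _ => by positivity)]
  calc ∑ j ∈ range i, y ^ j * x ^ (i - 1 - j) ≤ ∑ j ∈ range i, y ^ (i - 1) := by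
        apply sum_le_sum
        intro j hj
        have hj := mem_range.1 hj
        calc y ^ j * x ^ (i - 1 - j) ≤ y ^ j * y ^ (i - 1 - j) := by gcongr
          _ = y ^ (i - 1) := by rw [← pow_add]; congr 1; omega
    _ = i * y ^ (i - 1) := by simp

private theorem geom_low (x y : ℝ) (hx : 0 ≤ x) (hy : 0 ≤ y) (i : ℕ) (hi : 1 ≤ i) :
    y ^ (i - 1) ≤ ∑ j ∈ range i, y ^ j * x ^ (i - 1 - j) := by
  have h := single_le_sum (f := fun j => y ^ j * x ^ (i - 1 - j)) (s := range i)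
    (fun j _ => by positivity) (mem_range.2 (show i - 1 < i by omega))
  simpa using h

theorem poly_incr (p : Polynomial ℤ) (hp : 1 ≤ p.natDegree) :
    ∃ (n₁ : ℕ) (c C : ℝ), 0 < c ∧ 0 < C ∧ ∀ m n : ℕ, n₁ ≤ m → m < n →
      c * ((n : ℝ) - m) * (n : ℝ) ^ (p.natDegree - 1)
          ≤ |((p.eval (n : ℤ) : ℤ) : ℝ) - ((p.eval (m : ℤ) : ℤ) : ℝ)| ∧
      |((p.eval (n : ℤ) : ℤ) : ℝ) - ((p.eval (m : ℤ) : ℤ) : ℝ)|
          ≤ C * ((n : ℝ) - m) * (n : ℝ) ^ (p.natDegree - 1) := by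
  set d := p.natDegree with hd
  set A : ℝ := ∑ i ∈ range d, |(p.coeff i : ℝ)| * i with hA
  have hA0 : 0 ≤ A := sum_nonneg fun i _ => by positivity
  obtain ⟨n₁, hn₁⟩ := exists_nat_ge (2 * A)
  have hlead : (1 : ℝ) ≤ |(p.coeff d : ℝ)| := by
    have h : p.coeff d ≠ 0 := by
      rw [hd]
      have : p ≠ 0 := by
        rintro rfl
        simp at hd
        omega
      simpa using this
    have h2 : (1 : ℤ) ≤ |p.coeff d| := Int.one_le_abs h
    exact_mod_cast h2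
  refine ⟨n₁, 1 / 2, |(p.coeff d : ℝ)| * d + A, by norm_num, ?_, ?_⟩
  · have : (1 : ℝ) ≤ d := by exact_mod_cast hp
    nlinarith
  intro m n hm hmn
  have hn0 : (0 : ℝ) < n := by exact_mod_cast (by omega : 0 < n)
  have hn1 : (1 : ℝ) ≤ n := by exact_mod_cast (by omega : 1 ≤ n)
  have hmnR : (m : ℝ) ≤ n := by exact_mod_cast hmn.le
  have hm0 : (0 : ℝ) ≤ m := Nat.cast_nonneg m
  have hsub : (0 : ℝ) < (n : ℝ) - m := by
    have : (m : ℝ) < n := by exact_mod_cast hmn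
    linarith
  have hnA : 2 * A ≤ n := hn₁.trans (by exact_mod_cast (by omega : n₁ ≤ n))
  set g : ℕ → ℝ := fun i => ∑ j ∈ range i, (n : ℝ) ^ j * (m : ℝ) ^ (i - 1 - j) with hg
  have hev : ∀ k : ℕ, ((p.eval (k : ℤ) : ℤ) : ℝ)
      = ∑ i ∈ range (d + 1), (p.coeff i : ℝ) * (k : ℝ) ^ i := by
    intro k
    rw [Polynomial.eval_eq_sum_range]
    push_cast
    rfl
  have hfac : ∀ i : ℕ, (n : ℝ) ^ i - (m : ℝ) ^ i = ((n : ℝ) - m) * g i := by
    intro i
    rw [hg, mul_comm]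
    exact (Commute.geom_sum₂_mul (Commute.all (n : ℝ) (m : ℝ)) i).symm
  have hdiff : ((p.eval (n : ℤ) : ℤ) : ℝ) - ((p.eval (m : ℤ) : ℤ) : ℝ)
      = ((n : ℝ) - m) * ((p.coeff d : ℝ) * g d + ∑ i ∈ range d, (p.coeff i : ℝ) * g i) := by
    have e1 : (p.coeff d : ℝ) * (n : ℝ) ^ d - (p.coeff d : ℝ) * (m : ℝ) ^ d
        = ((n : ℝ) - m) * ((p.coeff d : ℝ) * g d) := by
      rw [← mul_sub, hfac]; ring
    have e2 : ∀ i ∈ range d, (p.coeff i : ℝ) * (n : ℝ) ^ i - (p.coeff i : ℝ) * (m : ℝ) ^ i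
        = ((n : ℝ) - m) * ((p.coeff i : ℝ) * g i) := by
      intro i _
      rw [← mul_sub, hfac]; ring
    rw [hev, hev, ← sum_sub_distrib, sum_range_succ, sum_congr rfl e2, e1, ← mul_sum,
      mul_add, add_comm]
  have hlow : |∑ i ∈ range d, (p.coeff i : ℝ) * g i| * n ≤ A * (n : ℝ) ^ (d - 1) := by
    calc |∑ i ∈ range d, (p.coeff i : ℝ) * g i| * n
        ≤ (∑ i ∈ range d, |(p.coeff i : ℝ)| * (i * (n : ℝ) ^ (i - 1))) * n := by
          gcongr
          refine (abs_sum_le_sum_abs _ _).trans (sum_le_sum fun i _ => ?_)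
          rw [abs_mul]
          gcongr
          exact geom_bd _ _ hm0 hmnR i
      _ = ∑ i ∈ range d, |(p.coeff i : ℝ)| * (i * (n : ℝ) ^ (i - 1)) * n := by rw [sum_mul]
      _ ≤ ∑ i ∈ range d, |(p.coeff i : ℝ)| * i * (n : ℝ) ^ (d - 1) := by
          apply sum_le_sum
          intro i hi
          have hi := mem_range.1 hi
          rcases Nat.eq_zero_or_pos i with h0 | h0
          · subst h0
            simp
          · have : (n : ℝ) ^ (i - 1) * n ≤ (n : ℝ) ^ (d - 1) := by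
              rw [← pow_succ]
              exact pow_le_pow_right₀ hn1 (by omega)
            calc |(p.coeff i : ℝ)| * (i * (n : ℝ) ^ (i - 1)) * n
                = |(p.coeff i : ℝ)| * i * ((n : ℝ) ^ (i - 1) * n) := by ring
              _ ≤ _ := by gcongr
      _ = A * (n : ℝ) ^ (d - 1) := by rw [hA, sum_mul]
  have hY : |∑ i ∈ range d, (p.coeff i : ℝ) * g i| ≤ (n : ℝ) ^ (d - 1) / 2 := by
    have h1 : |∑ i ∈ range d, (p.coeff i : ℝ) * g i| * n ≤ (n : ℝ) ^ (d - 1) / 2 * n := by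
      refine hlow.trans ?_
      have : 0 ≤ (n : ℝ) ^ (d - 1) := by positivity
      nlinarith
    exact le_of_mul_le_mul_right h1 hn0
  have hY2 : |∑ i ∈ range d, (p.coeff i : ℝ) * g i| ≤ A * (n : ℝ) ^ (d - 1) := by
    refine le_trans ?_ hlow
    have := abs_nonneg (∑ i ∈ range d, (p.coeff i : ℝ) * g i)
    nlinarith
  have hgd1 : (n : ℝ) ^ (d - 1) ≤ g d := geom_low _ _ hm0 hn0.le d hp
  have hgd2 : |g d| ≤ d * (n : ℝ) ^ (d - 1) := geom_bd _ _ hm0 hmnR d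
  have hgd0 : 0 ≤ g d := le_trans (by positivity) hgd1
  rw [hdiff, abs_mul, abs_of_pos hsub]
  constructor
  · have h3 : (n : ℝ) ^ (d - 1) / 2
        ≤ |(p.coeff d : ℝ) * g d + ∑ i ∈ range d, (p.coeff i : ℝ) * g i| := by
      have h4 : |(p.coeff d : ℝ) * g d| ≤ |(p.coeff d : ℝ) * g d
          + ∑ i ∈ range d, (p.coeff i : ℝ) * g i| + |∑ i ∈ range d, (p.coeff i : ℝ) * g i| := by
        have := abs_sub (a := (p.coeff d : ℝ) * g d
          + ∑ i ∈ range d, (p.coeff i : ℝ) * g i) (b := ∑ i ∈ range d, (p.coeff i : ℝ) * g i)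
        simpa using this
      have h5 : (n : ℝ) ^ (d - 1) ≤ |(p.coeff d : ℝ) * g d| := by
        rw [abs_mul, abs_of_nonneg hgd0]
        nlinarith [abs_nonneg (p.coeff d : ℝ)]
      linarith
    calc 1 / 2 * ((n : ℝ) - m) * (n : ℝ) ^ (d - 1) = ((n : ℝ) - m) * ((n : ℝ) ^ (d - 1) / 2) := by ring
      _ ≤ _ := by gcongr
  · calc ((n : ℝ) - m) * |(p.coeff d : ℝ) * g d + ∑ i ∈ range d, (p.coeff i : ℝ) * g i|
        ≤ ((n : ℝ) - m) * (|(p.coeff d : ℝ)| * (d * (n : ℝ) ^ (d - 1)) + A * (n : ℝ) ^ (d - 1)) := by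
          gcongr
          refine (abs_add_le _ _).trans (add_le_add ?_ hY2)
          rw [abs_mul]
          gcongr
      _ = _ := by ring

end Pool.AET
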