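import Pool.Agent.AET.Basic
import Pool.Agent.AET.InvLim

/-!
# Real bounded functions
-/

set_option autoImplicit false

open MeasureTheory Set Filter Topology Finset

namespace Pool.AET

variable {Ω : Type*} [MeasurableSpace Ω] {μ : Measure Ω} {d : ℕ}

theorem main_gen [MeasurableSpace.CountablyGenerated Ω] [IsProbabilityMeasure μ]
    {Γ : Type*} [Countable Γ] {γ : Γ → ℤ → Ω → Ω} (hγ : ∀ p n, Measurable (γ p n))
    (hmax : ∀ p, MaxSq μ (γ p))
    {φ : Fin (d + 1) → ℝ → Ω → Ω} (hφ : ∀ j, IsFlow μ (φ j)) (D : ℕ) :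
    ∃ E : Set (Fin (d + 1) → ℝ),
      dimH E ≤ ENNReal.ofReal ((d : ℝ) + 1 - 1 / (2 * ((96 * D : ℕ) : ℝ) + 4)) ∧
      ∀ t ∉ E, ∀ Q : Fin (d + 1) → Polynomial ℤ,
        (∀ j, 1 ≤ (Q j).natDegree ∧ (Q j).natDegree ≤ D) →
        (∀ (j : Fin (d + 1)) (f : Ω → ℝ), Measurable f → ∀ B : ℝ, (∀ x, |f x| ≤ B) →
          ∀ᵐ x ∂μ, Tendsto (fun N : ℕ => av (fun n => f (φ j (t j * (((Q j).eval n : ℤ) : ℝ)) x)) N)
            atTop (𝓝 ((μ[f | ⨅ s : ℝ, MeasurableSpace.invariants (φ j s)]) x))) ∧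
        ∀ (m : ℕ) (p : Fin m → Γ) (F : Fin m → Ω → ℝ) (f : Fin (d + 1) → Ω → ℝ),
          (∀ k, Measurable (F k)) → (∀ j, Measurable (f j)) →
          ∀ B : ℝ, (∀ k x, |F k x| ≤ B) → (∀ j x, |f j x| ≤ B) →
          ∀ᵐ x ∂μ, Tendsto (fun N : ℕ =>
            av (fun n => (∏ k, F k (γ (p k) n x)) *
              ∏ j, f j (φ j (t j * (((Q j).eval n : ℤ) : ℝ)) x)) N
            - av (fun n => ∏ k, F k (γ (p k) n x)) N *
              ∏ j, av (fun n => f j (φ j (t j * (((Q j).eval n : ℤ) : ℝ)) x)) N) atTop (𝓝 0) := by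
  classical
  have hctb : Countable (Polynomial ℤ) := countable_poly
  obtain ⟨H₀, hH₀c, hH₀p, hH₀d⟩ := dens0 μ
  choose H hHc hHp hHd using fun j => dens (hφ j)
  set CC : Set (Fin (d + 1) → Ω → ℝ) :=
    Set.univ.pi fun j => insert (fun _ => (1 : ℝ)) (H j) with hCC
  have hCCc : CC.Countable := Set.countable_univ_pi fun j => (hHc j).insert _
  set FF : (m : ℕ) → Set (Fin m → Ω → ℝ) := fun m => Set.univ.pi fun _ => H₀ with hFF
  have hFFc : ∀ m, (FF m).Countable := fun m => Set.countable_univ_pi fun _ => hH₀c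
  have hFFp : ∀ m, ∀ F ∈ FF m, ∀ k, Measurable (F k) ∧ ∀ x, |F k x| ≤ 1 := fun m F hF k =>
    hH₀p _ (hF k (Set.mem_univ k))
  set X : (Q : Fin (d + 1) → Polynomial ℤ) → (m : ℕ) → (Fin m → Γ) → (Fin m → Ω → ℝ) →
      (Fin (d + 1) → Ω → ℝ) → Set (Fin (d + 1) → ℝ) := fun Q m p F c =>
    {t | ((∀ j, 1 ≤ (Q j).natDegree ∧ (Q j).natDegree ≤ D) ∧ ∃ j₀, c j₀ ∈ H j₀) ∧
      ¬ ∀ᵐ x ∂μ, Tendsto (fun N : ℕ => av (fun n => (∏ k, F k (γ (p k) n x)) *
          ∏ j, c j (φ j (t j * (((Q j).eval n : ℤ) : ℝ)) x)) N) atTop (𝓝 0)} with hX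
  refine ⟨⋃ Q : Fin (d + 1) → Polynomial ℤ, ⋃ m : ℕ, ⋃ p : Fin m → Γ, ⋃ F ∈ FF m, ⋃ c ∈ CC,
    X Q m p F c, ?_, ?_⟩
  · rw [dimH_iUnion]
    refine iSup_le fun Q => ?_
    rw [dimH_iUnion]
    refine iSup_le fun m => ?_
    rw [dimH_iUnion]
    refine iSup_le fun p => ?_
    rw [dimH_bUnion (hFFc m)]
    refine iSup₂_le fun F hF => ?_
    rw [dimH_bUnion hCCc]
    refine iSup₂_le fun c hc => ?_
    by_cases hcond : (∀ j, 1 ≤ (Q j).natDegree ∧ (Q j).natDegree ≤ D) ∧ ∃ j₀, c j₀ ∈ H j₀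
    · obtain ⟨hQ, j₀, hj₀⟩ := hcond
      refine (dimH_mono ?_).trans (exc_gen hφ (w := fun n x => ∏ k, F k (γ (p k) n x)) ?_ ?_
        (c := c) ?_ j₀ (hHp j₀ _ hj₀) Q hQ)
      · intro t ht
        exact ht.2
      · intro n
        refine Finset.measurable_fun_prod _ fun k _ => ?_
        exact (hFFp m F hF k).1.comp (hγ _ _)
      · intro n x
        rw [Finset.abs_prod]
        exact Finset.prod_le_one (fun _ _ => abs_nonneg _) fun k _ => (hFFp m F hF k).2 _
      · intro j
        rcases Set.mem_insert_iff.1 (hc j (Set.mem_univ j)) with h | h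
        · right
          intro x
          rw [h]
        · left
          exact hHp j _ h
    · have : X Q m p F c = ∅ := by
        rw [Set.eq_empty_iff_forall_notMem]
        intro t ht
        exact hcond ht.1
      rw [this, dimH_empty]
      exact zero_le
  · intro t ht Q hQ
    have hgood : ∀ (m : ℕ) (p : Fin m → Γ), ∀ F ∈ FF m, ∀ c : Fin (d + 1) → Ω → ℝ,
      (∀ j, c j ∈ insert (fun _ => (1 : ℝ)) (H j)) → (∃ j₀, c j₀ ∈ H j₀) →
      ∀ᵐ x ∂μ, Tendsto (fun N : ℕ => av (fun n => (∏ k, F k (γ (p k) n x)) *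
          ∏ j, c j (φ j (t j * (((Q j).eval n : ℤ) : ℝ)) x)) N) atTop (𝓝 0) := by
      intro m p F hF c hc hex
      by_contra hcon
      apply ht
      simp only [Set.mem_iUnion]
      exact ⟨Q, m, p, F, hF, c, fun j _ => hc j, ⟨hQ, hex⟩, hcon⟩
    have hgood1 : ∀ j, ∀ c ∈ H j, ∀ᵐ x ∂μ, Tendsto (fun N : ℕ =>
        av (fun n => c (φ j (t j * (((Q j).eval n : ℤ) : ℝ)) x)) N) atTop (𝓝 0) := by
      intro j₀ c₀ hc₀
      have h1 := hgood 0 (fun k => k.elim0) (fun k => k.elim0) (fun k => k.elim0)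
        (Function.update (fun _ _ => 1) j₀ c₀) (by
          intro j
          by_cases hj : j = j₀
          · subst hj
            rw [Function.update_self]
            exact Set.mem_insert_of_mem _ hc₀
          · rw [Function.update_of_ne hj]
            exact Set.mem_insert _ _) ⟨j₀, by
            rw [Function.update_self]
            exact hc₀⟩
      filter_upwards [h1] with x hx
      have hprod : ∀ n : ℤ, ∏ j, (Function.update (fun _ _ => (1 : ℝ)) j₀ c₀
          : Fin (d + 1) → Ω → ℝ) j (φ j (t j * (((Q j).eval n : ℤ) : ℝ)) x)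
          = c₀ (φ j₀ (t j₀ * (((Q j₀).eval n : ℤ) : ℝ)) x) := by
        intro n
        rw [← Finset.mul_prod_erase Finset.univ _ (Finset.mem_univ j₀), Function.update_self]
        have : ∏ j ∈ Finset.univ.erase j₀, (Function.update (fun _ _ => (1 : ℝ)) j₀ c₀
          : Fin (d + 1) → Ω → ℝ) j (φ j (t j * (((Q j).eval n : ℤ) : ℝ)) x) = 1 := by
          refine Finset.prod_eq_one fun j hj => ?_
          rw [Function.update_of_ne (Finset.ne_of_mem_erase hj)]
        rw [this, mul_one]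
      simp_rw [hprod, Finset.univ_eq_empty, Finset.prod_empty, one_mul] at hx
      exact hx
    refine ⟨?_, ?_⟩
    · intro j f hf B hB
      exact inv_lim (hφ j) (hHp j) (hHd j) (fun n => t j * (((Q j).eval n : ℤ) : ℝ))
        (maxSq_flow (hφ j) (t j) (Q j)) (hgood1 j) hf hB
    · intro m p F f hFm hfm B hFB hfB
      set τ : Fin m ⊕ Fin (d + 1) → ℤ → Ω → Ω := fun i => match i with
        | Sum.inl k => fun n x => γ (p k) n x
        | Sum.inr j => fun n => φ j (t j * (((Q j).eval n : ℤ) : ℝ)) with hτ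
      set KK : Fin m ⊕ Fin (d + 1) → (Ω → ℝ) → Prop := fun i => match i with
        | Sum.inl _ => fun k => k ∈ H₀
        | Sum.inr j => fun k => Kf μ (φ j) (H j) k with hKK
      set G : Fin m ⊕ Fin (d + 1) → Ω → ℝ := fun i => match i with
        | Sum.inl k => F k
        | Sum.inr j => f j with hG
      have hmain := ext_all (μ := μ) (rep_Dl2 τ) ?_ KK ?_ ?_ ?_ G (B := B) ?_ ?_
      · filter_upwards [hmain] with x hx
        exact hx
      · intro i
        rcases i with k | j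
        · exact hmax (p k)
        · exact maxSq_flow (hφ j) (t j) (Q j)
      · intro i k hk
        rcases i with k' | j
        · exact hH₀p k hk
        · exact Kf_prop (hHp j) hk
      · intro i g hg hgB ε hε
        rcases i with k' | j
        · obtain ⟨B', hB'⟩ := hgB
          have hgL : MemLp g 2 μ := MemLp.of_bound hg.aestronglyMeasurable B'
            (Filter.Eventually.of_forall fun x => by simpa using hB' x)
          obtain ⟨n, r, h, hh, hint⟩ := hH₀d g hgL ε hε
          exact ⟨n, r, h, fun l => hh l, hint⟩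
        · exact Kf_dens (hHp j) (hHd j) g hg hgB ε hε
      · intro G' hG'
        have hF' : (fun k => G' (Sum.inl k)) ∈ FF m := fun k _ => hG' (Sum.inl k)
        have hb := basic_conv (μ := μ) (φ := φ)
          (fun j n => t j * (((Q j).eval n : ℤ) : ℝ)) H hHp
          (w := fun n x => ∏ k, G' (Sum.inl k) (γ (p k) n x)) (fun n x => by
            rw [Finset.abs_prod]
            exact Finset.prod_le_one (fun _ _ => abs_nonneg _) fun k _ =>
              (hFFp m _ hF' k).2 _) (hgood m p _ hF') hgood1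
          (f := fun j => G' (Sum.inr j)) (fun j => hG' (Sum.inr j))
        filter_upwards [hb] with x hx
        exact hx
      · intro i
        rcases i with k | j
        · exact hFm k
        · exact hfm j
      · intro i x
        rcases i with k | j
        · exact hFB k x
        · exact hfB j x

end Pool.AET
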