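import Pool.Agent.AET.Block

/-!
# Summation over the blocks
-/

set_option autoImplicit false

open MeasureTheory Set Finset

namespace Pool.AET

theorem sum_blocks (F : ℕ → ℝ) (J M : ℕ) :
    ∑ n ∈ range (J * M), F n = ∑ j ∈ range J, ∑ k ∈ range M, F (j * M + k) := by
  induction J with
  | zero => simp
  | succ J ih => rw [Nat.succ_mul, Finset.sum_range_add, ih, Finset.sum_range_succ]

theorem far_le {q : ℕ → ℝ} {c C : ℝ} {e : ℕ} (hc : 0 < c) (hq : GrowInc q c C e) {n m d : ℕ}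
    (hd : 1 ≤ d) (h : n + d ≤ m ∨ m + d ≤ n) :
    c * d * (m : ℝ) ^ e ≤ |q m - q n| := by
  have hm0 : (0 : ℝ) ≤ m := Nat.cast_nonneg m
  rcases h with h | h
  · have h1 := (hq n m (by omega)).1
    refine le_trans ?_ h1
    have h2 : (d : ℝ) ≤ (m : ℝ) - n := by
      have : ((n + d : ℕ) : ℝ) ≤ m := by exact_mod_cast h
      push_cast at this
      linarith
    have h3 : (m : ℝ) ^ e ≤ ((m : ℝ) + 1) ^ e := pow_le_pow_left₀ hm0 (by linarith) e
    have h4 : (0 : ℝ) ≤ d := Nat.cast_nonneg d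
    exact mul_le_mul (mul_le_mul_of_nonneg_left h2 hc.le) h3 (by positivity)
      (mul_nonneg hc.le (h4.trans h2))
  · have h1 := (hq m n (by omega)).1
    rw [abs_sub_comm]
    refine le_trans ?_ h1
    have h2 : (d : ℝ) ≤ (n : ℝ) - m := by
      have : ((m + d : ℕ) : ℝ) ≤ n := by exact_mod_cast h
      push_cast at this
      linarith
    have h5 : (m : ℝ) ≤ n := by exact_mod_cast (by omega : m ≤ n)
    have h3 : (m : ℝ) ^ e ≤ ((n : ℝ) + 1) ^ e := pow_le_pow_left₀ hm0 (by linarith) e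
    have h4 : (0 : ℝ) ≤ d := Nat.cast_nonneg d
    exact mul_le_mul (mul_le_mul_of_nonneg_left h2 hc.le) h3 (by positivity)
      (mul_nonneg hc.le (h4.trans h2))

theorem growInc_C {q : ℕ → ℝ} {c C : ℝ} {e : ℕ} (hc : 0 < c) (hq : GrowInc q c C e) : 0 < C := by
  have h := hq 0 1 (by norm_num)
  have h1 := h.1.trans h.2
  have h2 : (0 : ℝ) < (((0 : ℕ) : ℝ) + 1 + 1) ^ e := by positivity
  push_cast at h1
  have h3 : (0 : ℝ) < (1 + 1) ^ e := by positivity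
  nlinarith

variable {Ω : Type*} [MeasurableSpace Ω] {μ : Measure Ω} {φ : ℝ → Ω → Ω}

theorem pair_le [IsProbabilityMeasure μ] (h : IsFlow μ φ) {f : Ω → ℝ} (hf : Measurable f)
    (hf1 : ∀ x, |f x| ≤ 1) {S : ℝ} (hS : Dec μ φ f S) (α : ℝ) (q : ℕ → ℝ) {c C : ℝ} {e : ℕ}
    (hc : 0 < c) (hq : GrowInc q c C e) (Q : ℕ) (hQ : 1 ≤ Q) (n j : ℕ) (hj : 1 ≤ j)
    (hfar : n + (Q ^ 8) ^ 2 ≤ j * Q ^ 8 ∨ j * Q ^ 8 + (Q ^ 8) ^ 2 ≤ n) :
    ∑ k ∈ range (Q ^ 8), ∫ x, (corr φ f α (q n) (q (j * Q ^ 8 + k)) x) ^ 2 ∂μ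
      ≤ (Real.sqrt (4 + 8 * (S / c)) + 8 * (|α| + 2) * (C * 2 ^ e / c)) * (Q : ℝ) ^ 6 := by
  have hS0 : 0 ≤ S := by
    have := hS 1 one_ne_zero
    have h2 := (abs_nonneg _).trans this
    simpa using h2
  have hC := growInc_C hc hq
  set M : ℕ := Q ^ 8 with hM
  have hM1 : 1 ≤ M := Nat.one_le_pow _ _ hQ
  have hM1' : (1 : ℝ) ≤ M := by exact_mod_cast hM1
  have hM0 : (0 : ℝ) < M := by linarith
  have hQ1 : (1 : ℝ) ≤ Q := by exact_mod_cast hQ
  have hj1 : (1 : ℝ) ≤ j := by exact_mod_cast hj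
  have hfar' := far_le hc hq (n := n) (m := j * M) (d := M ^ 2) (Nat.one_le_pow _ _ hM1) hfar
  push_cast at hfar'
  have hpos : 0 < c * (M : ℝ) ^ 2 * ((j : ℝ) * M) ^ e := by positivity
  have hb := block_le h hf hf1 hS α (q n) (fun k => q (j * M + k)) M (c := c)
    (η := C * 2 ^ e / (c * M)) hc (by positivity) ?_ ?_ ?_
  · refine hb.trans ?_
    have hMc : (M : ℝ) = (Q : ℝ) ^ 8 := by rw [hM]; push_cast; rfl
    have hsq : Real.sqrt (M : ℝ) = (Q : ℝ) ^ 4 := by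
      rw [hMc, show (Q : ℝ) ^ 8 = ((Q : ℝ) ^ 4) ^ 2 by ring]
      exact Real.sqrt_sq (by positivity)
    have h1 : Real.sqrt (4 * M + 8 * (S / c) * M * Real.sqrt M)
        ≤ Real.sqrt (4 + 8 * (S / c)) * (Q : ℝ) ^ 6 := by
      rw [hsq, hMc]
      have h2 : Real.sqrt (4 + 8 * (S / c)) * (Q : ℝ) ^ 6
          = Real.sqrt ((4 + 8 * (S / c)) * ((Q : ℝ) ^ 6) ^ 2) := by
        rw [Real.sqrt_mul (by positivity), Real.sqrt_sq (by positivity)]
      rw [h2]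
      apply Real.sqrt_le_sqrt
      have h3 : (Q : ℝ) ^ 8 ≤ (Q : ℝ) ^ 12 := pow_le_pow_right₀ hQ1 (by norm_num)
      have h4 : ((Q : ℝ) ^ 6) ^ 2 = (Q : ℝ) ^ 12 := by ring
      have h5 : (Q : ℝ) ^ 8 * (Q : ℝ) ^ 4 = (Q : ℝ) ^ 12 := by ring
      rw [h4, mul_assoc (8 * (S / c)), h5]
      linarith
    have h2 : 8 * (|α| + 2) * (C * 2 ^ e / (c * M)) * M
        ≤ 8 * (|α| + 2) * (C * 2 ^ e / c) * (Q : ℝ) ^ 6 := by
      have h3 : C * 2 ^ e / (c * M) * M = C * 2 ^ e / c := by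
        field_simp
      rw [mul_assoc (8 * (|α| + 2)), h3]
      have h4 : (1 : ℝ) ≤ (Q : ℝ) ^ 6 := one_le_pow₀ hQ1
      have h5 : 0 ≤ 8 * (|α| + 2) * (C * 2 ^ e / c) := by positivity
      nlinarith
    rw [add_mul]
    exact add_le_add h1 h2
  · intro k _ l _
    have haux : ∀ k l : ℕ, k < l → c * |(k : ℝ) - l| ≤ |q (j * M + k) - q (j * M + l)| := by
      intro k l hkl
      have h1 := (hq (j * M + k) (j * M + l) (by omega)).1
      have hkl' : (k : ℝ) < l := by exact_mod_cast hkl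
      rw [abs_sub_comm (q (j * M + k)), abs_of_neg (by linarith : (k : ℝ) - l < 0)]
      refine le_trans ?_ h1
      push_cast
      have h2 : (1 : ℝ) ≤ ((j : ℝ) * M + l + 1) ^ e := by
        apply one_le_pow₀
        have : (0 : ℝ) ≤ (j : ℝ) * M + l := by positivity
        linarith
      have h3 : 0 ≤ c * (l - k) := mul_nonneg hc.le (by linarith)
      have h4 : (j : ℝ) * M + l - (j * M + k) = l - k := by ring
      rw [h4]
      nlinarith
    rcases lt_trichotomy k l with hkl | hkl | hkl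
    · exact haux k l hkl
    · subst hkl
      simp
    · rw [abs_sub_comm (k : ℝ), abs_sub_comm (q (j * M + k))]
      exact haux l k hkl
  · intro k hk
    simp only [add_zero]
    rcases Nat.eq_zero_or_pos k with hk0 | hk0
    · subst hk0
      simp only [add_zero, sub_self, abs_zero]
      positivity
    · have h1 := (hq (j * M) (j * M + k) (by omega)).2
      refine h1.trans ?_
      push_cast
      have h4 : (j : ℝ) * M + k - (j * M) = k := by ring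
      rw [h4]
      have hkM : (k : ℝ) + 1 ≤ M := by exact_mod_cast hk
      have h5 : ((j : ℝ) * M + k + 1) ^ e ≤ (2 * ((j : ℝ) * M)) ^ e := by
        apply pow_le_pow_left₀ (by positivity)
        nlinarith
      rw [mul_pow] at h5
      calc C * k * ((j : ℝ) * M + k + 1) ^ e ≤ C * M * (2 ^ e * ((j : ℝ) * M) ^ e) := by
            apply mul_le_mul _ h5 (by positivity) (by positivity)
            exact mul_le_mul_of_nonneg_left (by linarith) hC.le
        _ = C * 2 ^ e / (c * M) * (c * (M : ℝ) ^ 2 * ((j : ℝ) * M) ^ e) := by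
            field_simp
        _ ≤ C * 2 ^ e / (c * M) * |q (j * M) - q n| := by
            exact mul_le_mul_of_nonneg_left hfar' (by positivity)
  · simp only [add_zero]
    intro h0
    rw [h0, abs_zero] at hfar'
    linarith

omit [MeasurableSpace Ω] in
theorem corr_abs_one {f : Ω → ℝ} (hf1 : ∀ x, |f x| ≤ 1) (α p q : ℝ) (x : Ω) :
    |corr φ f α p q x| ≤ 1 := by
  unfold corr
  have : IsProbabilityMeasure (volume.restrict (Icc α (α + 1))) := ⟨by simp⟩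
  apply abs_integral_bd
  intro a
  rw [abs_mul]
  exact mul_le_one₀ (hf1 _) (abs_nonneg _) (hf1 _)

theorem corr_sq_le [IsProbabilityMeasure μ] {f : Ω → ℝ} (hf1 : ∀ x, |f x| ≤ 1) (α p q : ℝ) :
    ∫ x, (corr φ f α p q x) ^ 2 ∂μ ≤ 1 := by
  refine (le_abs_self _).trans (abs_integral_bd 1 fun x => ?_)
  rw [abs_pow]
  exact pow_le_one₀ (abs_nonneg _) (corr_abs_one hf1 _ _ _ _)

theorem corr_sq_nonneg {f : Ω → ℝ} (α p q : ℝ) : 0 ≤ ∫ x, (corr φ f α p q x) ^ 2 ∂μ :=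
  integral_nonneg fun _ => sq_nonneg _

theorem poly_sum [IsProbabilityMeasure μ] (h : IsFlow μ φ) {f : Ω → ℝ} (hf : Measurable f)
    (hf1 : ∀ x, |f x| ≤ 1) {S : ℝ} (hS : Dec μ φ f S) (α : ℝ) (q : ℕ → ℝ) {c C : ℝ} {e : ℕ}
    (hc : 0 < c) (hq : GrowInc q c C e) :
    ∃ B : ℝ, 0 ≤ B ∧ ∀ Q : ℕ, 1 ≤ Q →
      ∑ n ∈ range ((Q ^ 8) ^ 3), ∑ n' ∈ range ((Q ^ 8) ^ 3),
        ∫ x, (corr φ f α (q n) (q n') x) ^ 2 ∂μ ≤ B * ((Q : ℝ) ^ 8) ^ 6 / (Q : ℝ) ^ 2 := by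
  classical
  have hC := growInc_C hc hq
  set B₁ : ℝ := Real.sqrt (4 + 8 * (S / c)) + 8 * (|α| + 2) * (C * 2 ^ e / c) with hB₁
  have hB₁0 : 0 ≤ B₁ := by positivity
  refine ⟨B₁ + 3, by positivity, ?_⟩
  intro Q hQ
  have hQ1 : (1 : ℝ) ≤ Q := by exact_mod_cast hQ
  set M : ℕ := Q ^ 8 with hM
  have hM1 : 1 ≤ M := Nat.one_le_pow _ _ hQ
  have hMc : (M : ℝ) = (Q : ℝ) ^ 8 := by rw [hM]; push_cast; rfl
  have hM0 : (0 : ℝ) ≤ M := Nat.cast_nonneg _
  have h1 : ∀ n : ℕ, ∑ n' ∈ range (M ^ 3), ∫ x, (corr φ f α (q n) (q n') x) ^ 2 ∂μ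
      = ∑ j ∈ range (M ^ 2), ∑ k ∈ range M,
          ∫ x, (corr φ f α (q n) (q (j * M + k)) x) ^ 2 ∂μ := by
    intro n
    rw [pow_succ M 2, sum_blocks]
  have h2 : ∀ n j : ℕ, ∑ k ∈ range M, ∫ x, (corr φ f α (q n) (q (j * M + k)) x) ^ 2 ∂μ
      ≤ B₁ * (Q : ℝ) ^ 6 + (if j = 0 then (M : ℝ) else 0)
        + (if n < j * M + M ^ 2 ∧ j * M < n + M ^ 2 then (M : ℝ) else 0) := by
    intro n j
    have htriv : ∑ k ∈ range M, ∫ x, (corr φ f α (q n) (q (j * M + k)) x) ^ 2 ∂μ ≤ M := by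
      calc _ ≤ ∑ k ∈ range M, (1 : ℝ) := Finset.sum_le_sum fun k _ => corr_sq_le hf1 _ _ _
        _ = M := by simp
    have hB₁Q : 0 ≤ B₁ * (Q : ℝ) ^ 6 := by positivity
    by_cases hj : j = 0
    · rw [if_pos hj]
      have : (0 : ℝ) ≤ (if n < j * M + M ^ 2 ∧ j * M < n + M ^ 2 then (M : ℝ) else 0) := by
        split_ifs <;> positivity
      linarith
    · by_cases hn : n < j * M + M ^ 2 ∧ j * M < n + M ^ 2
      · rw [if_neg hj, if_pos hn]
        linarith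
      · rw [if_neg hj, if_neg hn]
        have := pair_le h hf hf1 hS α q hc hq Q hQ n j (by omega) (by
          rw [not_and_or] at hn
          rcases hn with hn | hn
          · right
            exact not_lt.1 hn
          · left
            exact not_lt.1 hn)
        linarith
  have h3 : ∀ j : ℕ, ∑ n ∈ range (M ^ 3),
      (if n < j * M + M ^ 2 ∧ j * M < n + M ^ 2 then (M : ℝ) else 0) ≤ 2 * (M : ℝ) ^ 2 * M := by
    intro j
    rw [← Finset.sum_filter, Finset.sum_const, nsmul_eq_mul]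
    apply mul_le_mul_of_nonneg_right _ hM0
    have h4 : ((range (M ^ 3)).filter (fun n => n < j * M + M ^ 2 ∧ j * M < n + M ^ 2)).card
        ≤ 2 * M ^ 2 := by
      calc _ ≤ (Finset.Ico (j * M - M ^ 2) (j * M + M ^ 2)).card := by
            apply Finset.card_le_card
            intro n hn
            simp only [Finset.mem_filter, Finset.mem_range, Finset.mem_Ico] at hn ⊢
            omega
        _ ≤ 2 * M ^ 2 := by
            rw [Nat.card_Ico]
            omega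
    exact_mod_cast h4
  calc ∑ n ∈ range (M ^ 3), ∑ n' ∈ range (M ^ 3), ∫ x, (corr φ f α (q n) (q n') x) ^ 2 ∂μ
      = ∑ n ∈ range (M ^ 3), ∑ j ∈ range (M ^ 2), ∑ k ∈ range M,
          ∫ x, (corr φ f α (q n) (q (j * M + k)) x) ^ 2 ∂μ :=
        Finset.sum_congr rfl fun n _ => h1 n
    _ ≤ ∑ n ∈ range (M ^ 3), ∑ j ∈ range (M ^ 2), (B₁ * (Q : ℝ) ^ 6
          + (if j = 0 then (M : ℝ) else 0)
          + (if n < j * M + M ^ 2 ∧ j * M < n + M ^ 2 then (M : ℝ) else 0)) :=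
        Finset.sum_le_sum fun n _ => Finset.sum_le_sum fun j _ => h2 n j
    _ = (M : ℝ) ^ 3 * (M : ℝ) ^ 2 * (B₁ * (Q : ℝ) ^ 6)
          + (M : ℝ) ^ 3 * M
          + ∑ j ∈ range (M ^ 2), ∑ n ∈ range (M ^ 3),
            (if n < j * M + M ^ 2 ∧ j * M < n + M ^ 2 then (M : ℝ) else 0) := by
        simp_rw [Finset.sum_add_distrib]
        congr 1
        · congr 1
          · simp only [Finset.sum_const, card_range, nsmul_eq_mul]
            push_cast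
            ring
          · have hpos : 0 < M ^ 2 := Nat.one_le_pow _ _ hM1
            have : ∑ j ∈ range (M ^ 2), (if j = 0 then (M : ℝ) else 0) = M := by
              rw [Finset.sum_ite_eq', if_pos (Finset.mem_range.2 hpos)]
            rw [this, Finset.sum_const, card_range, nsmul_eq_mul]
            push_cast
            ring
        · rw [Finset.sum_comm]
    _ ≤ (M : ℝ) ^ 3 * (M : ℝ) ^ 2 * (B₁ * (Q : ℝ) ^ 6) + (M : ℝ) ^ 3 * M
          + (M : ℝ) ^ 2 * (2 * (M : ℝ) ^ 2 * M) := by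
        have h5 : ∑ j ∈ range (M ^ 2), ∑ n ∈ range (M ^ 3),
            (if n < j * M + M ^ 2 ∧ j * M < n + M ^ 2 then (M : ℝ) else 0)
            ≤ ∑ j ∈ range (M ^ 2), 2 * (M : ℝ) ^ 2 * M := Finset.sum_le_sum fun j _ => h3 j
        rw [Finset.sum_const, card_range, nsmul_eq_mul] at h5
        push_cast at h5
        linarith
    _ ≤ (B₁ + 3) * ((Q : ℝ) ^ 8) ^ 6 / (Q : ℝ) ^ 2 := by
        rw [hMc, le_div_iff₀ (by positivity)]
        have a1 : (Q : ℝ) ^ 34 ≤ (Q : ℝ) ^ 48 := pow_le_pow_right₀ hQ1 (by norm_num)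
        have a2 : (Q : ℝ) ^ 42 ≤ (Q : ℝ) ^ 48 := pow_le_pow_right₀ hQ1 (by norm_num)
        have e1 : (((Q : ℝ) ^ 8) ^ 3 * ((Q : ℝ) ^ 8) ^ 2 * (B₁ * (Q : ℝ) ^ 6)
            + ((Q : ℝ) ^ 8) ^ 3 * (Q : ℝ) ^ 8
            + ((Q : ℝ) ^ 8) ^ 2 * (2 * ((Q : ℝ) ^ 8) ^ 2 * (Q : ℝ) ^ 8)) * (Q : ℝ) ^ 2
            = B₁ * (Q : ℝ) ^ 48 + (Q : ℝ) ^ 34 + 2 * (Q : ℝ) ^ 42 := by ring
        have e2 : (B₁ + 3) * ((Q : ℝ) ^ 8) ^ 6 = B₁ * (Q : ℝ) ^ 48 + 3 * (Q : ℝ) ^ 48 := by ring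
        rw [e1, e2]
        linarith

end Pool.AET
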