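import Pool.Agent.AET.Defs
import Pool.Agent.Nil.Final

/-!
# The averages of one function (from the files on nilpotent groups)
-/

set_option autoImplicit false

open MeasureTheory Set Filter Topology Finset

namespace Pool.AET

variable {Ω : Type*} [MeasurableSpace Ω] {μ : Measure Ω}

/-- The weak form of the maximal inequality in `L²` which we use. -/
def MaxSq (μ : Measure Ω) (τ : ℤ → Ω → Ω) : Prop :=
  ∃ C : ℝ, 0 ≤ C ∧ ∀ v : Ω → ℝ, Measurable v → MemLp v 2 μ → (∀ x, 0 ≤ v x) → ∀ lam : ℝ, 0 < lam →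
    μ {x | ∃ N : ℕ, lam < (2 * (N : ℝ) + 1)⁻¹ * ∑ n ∈ Finset.Icc (-(N : ℤ)) N, v (τ n x)}
      ≤ ENNReal.ofReal (C * (∫ x, v x ^ 2 ∂μ) / lam ^ 2)

theorem mp_symm_aux (T : Equiv.Perm Ω) (hT : MeasurePreserving T μ μ)
    (hT' : Measurable T.symm) : MeasurePreserving T.symm μ μ := by
  let e : Ω ≃ᵐ Ω :=
    { toEquiv := T, measurable_toFun := hT.measurable, measurable_invFun := hT' }
  have h : MeasurePreserving e μ μ := hT
  exact h.symm

theorem nil_single_aux (T : Equiv.Perm Ω) :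
    Group.IsNilpotent (Subgroup.closure (Set.range (fun _ : Fin 1 => T))) := by
  have hc : ∀ x ∈ Set.range (fun _ : Fin 1 => T), ∀ y ∈ Set.range (fun _ : Fin 1 => T),
      x * y = y * x := by
    rintro _ ⟨i, rfl⟩ _ ⟨j, rfl⟩
    rfl
  have hm := Subgroup.isMulCommutative_closure hc
  letI : CommGroup (Subgroup.closure (Set.range (fun _ : Fin 1 => T))) :=
    { (inferInstance : Group (Subgroup.closure (Set.range (fun _ : Fin 1 => T)))) with
      mul_comm := fun a b => hm.is_comm.comm a b }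
  exact CommGroup.isNilpotent

omit [MeasurableSpace Ω] in
theorem orb_single_aux (T : Equiv.Perm Ω) (P : Polynomial ℤ) (n : ℤ) :
    Pool.Nil.orb (fun _ : Fin 1 => T) (fun _ => P) n = T ^ (P.eval n) := by
  simp [Pool.Nil.orb, List.ofFn_succ]

theorem maxSq_perm [IsProbabilityMeasure μ] (T : Equiv.Perm Ω) (hT : MeasurePreserving T μ μ)
    (hT' : Measurable T.symm) (P : Polynomial ℤ) :
    MaxSq μ (fun n x => (T ^ (P.eval n) : Equiv.Perm Ω) x) := by
  have hs := mp_symm_aux T hT hT'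
  obtain ⟨C, hC⟩ := Pool.Nil.orb_max_two (fun _ : Fin 1 => T) (fun _ => hT) (fun _ => hs)
    (nil_single_aux T) (fun _ => P)
  refine ⟨C, C.2, fun v hv hv2 hv0 lam hlam => ?_⟩
  have h := hC (fun x => ENNReal.ofReal (v x)) hv.ennreal_ofReal
  simp only [orb_single_aux] at h
  have hmeas : ∀ n : ℤ, Measurable (fun x => (T ^ (P.eval n) : Equiv.Perm Ω) x) := by
    intro n
    have := (Pool.Nil.orb_mem (fun _ : Fin 1 => T) (fun _ => hT) (fun _ => hs)
      (fun _ => P) n).1.measurable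
    rwa [orb_single_aux] at this
  set M : Ω → ENNReal := fun x => ⨆ N : ℕ, ((2 * N + 1 : ℕ) : ENNReal)⁻¹ *
    ∑ n ∈ Finset.Icc (-(N : ℤ)) (N : ℤ), ENNReal.ofReal (v ((T ^ (P.eval n) : Equiv.Perm Ω) x))
    with hM
  have hMm : Measurable M := by
    apply Measurable.iSup
    intro N
    apply Measurable.const_mul
    apply Finset.measurable_fun_sum
    intro n _
    exact (hv.comp (hmeas n)).ennreal_ofReal
  have hsub : {x | ∃ N : ℕ, lam < (2 * (N : ℝ) + 1)⁻¹ *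
      ∑ n ∈ Finset.Icc (-(N : ℤ)) N, v ((T ^ (P.eval n) : Equiv.Perm Ω) x)} ⊆
      {x | ENNReal.ofReal (lam ^ 2) ≤ M x ^ 2} := by
    rintro x ⟨N, hN⟩
    have h1 : ENNReal.ofReal lam ≤ M x := by
      calc ENNReal.ofReal lam ≤ ENNReal.ofReal ((2 * (N : ℝ) + 1)⁻¹ *
          ∑ n ∈ Finset.Icc (-(N : ℤ)) N, v ((T ^ (P.eval n) : Equiv.Perm Ω) x)) :=
            ENNReal.ofReal_le_ofReal hN.le
        _ = ((2 * N + 1 : ℕ) : ENNReal)⁻¹ * ∑ n ∈ Finset.Icc (-(N : ℤ)) (N : ℤ),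
            ENNReal.ofReal (v ((T ^ (P.eval n) : Equiv.Perm Ω) x)) := by
            rw [ENNReal.ofReal_mul (by positivity), ENNReal.ofReal_inv_of_pos (by positivity),
              ENNReal.ofReal_sum_of_nonneg (fun n _ => hv0 _)]
            congr 2
            rw [← ENNReal.ofReal_natCast]
            push_cast
            rfl
        _ ≤ M x := le_iSup (fun N : ℕ => ((2 * N + 1 : ℕ) : ENNReal)⁻¹ *
            ∑ n ∈ Finset.Icc (-(N : ℤ)) (N : ℤ),
              ENNReal.ofReal (v ((T ^ (P.eval n) : Equiv.Perm Ω) x))) N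
    change ENNReal.ofReal (lam ^ 2) ≤ M x ^ 2
    rw [ENNReal.ofReal_pow hlam.le]
    exact pow_le_pow_left' h1 2
  have hint : ∫⁻ x, ENNReal.ofReal (v x) ^ 2 ∂μ = ENNReal.ofReal (∫ x, v x ^ 2 ∂μ) := by
    rw [ofReal_integral_eq_lintegral_ofReal hv2.integrable_sq
      (Filter.Eventually.of_forall fun x => sq_nonneg _)]
    refine lintegral_congr fun x => ?_
    rw [ENNReal.ofReal_pow (hv0 x)]
  have h2 : ENNReal.ofReal (lam ^ 2) * μ {x | ENNReal.ofReal (lam ^ 2) ≤ M x ^ 2} ≤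
      ENNReal.ofReal (C * ∫ x, v x ^ 2 ∂μ) := by
    calc ENNReal.ofReal (lam ^ 2) * μ {x | ENNReal.ofReal (lam ^ 2) ≤ M x ^ 2}
        ≤ ∫⁻ x, M x ^ 2 ∂μ := mul_meas_ge_le_lintegral (hMm.pow_const 2) _
      _ ≤ C * ∫⁻ x, ENNReal.ofReal (v x) ^ 2 ∂μ := h
      _ = ENNReal.ofReal (C * ∫ x, v x ^ 2 ∂μ) := by
          rw [hint, ENNReal.ofReal_mul (NNReal.coe_nonneg C), ENNReal.ofReal_coe_nnreal]
  have hl2 : 0 < lam ^ 2 := by positivity
  refine (measure_mono hsub).trans ?_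
  rw [ENNReal.ofReal_div_of_pos hl2, ENNReal.le_div_iff_mul_le (Or.inl (by
    simpa using hlam.ne')) (Or.inl ENNReal.ofReal_ne_top), mul_comm]
  exact h2

theorem conv_perm [IsProbabilityMeasure μ] (T : Equiv.Perm Ω) (hT : MeasurePreserving T μ μ)
    (hT' : Measurable T.symm) (P : Polynomial ℤ) (f : Ω → ℝ) (hf : Measurable f) (C : ℝ)
    (hC : ∀ x, |f x| ≤ C) :
    ∀ᵐ x ∂μ, ∃ l : ℝ, Tendsto (fun N : ℕ => (2 * (N : ℝ) + 1)⁻¹ *
      ∑ n ∈ Finset.Icc (-(N : ℤ)) N, f ((T ^ (P.eval n) : Equiv.Perm Ω) x)) atTop (𝓝 l) := by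
  have hs := mp_symm_aux T hT hT'
  have hmem : MemLp (fun x => (f x : ℂ)) 2 μ := by
    refine MemLp.of_bound (Complex.measurable_ofReal.comp hf).aestronglyMeasurable C
      (Filter.Eventually.of_forall fun x => ?_)
    rw [Complex.norm_real, Real.norm_eq_abs]
    exact hC x
  have h := Pool.Nil.orb_conv (fun _ : Fin 1 => T) (fun _ => hT) (fun _ => hs)
    (nil_single_aux T) (fun _ => P) (fun x => (f x : ℂ)) hmem
  simp only [orb_single_aux] at h
  filter_upwards [h] with x hx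
  obtain ⟨L, hL⟩ := hx
  refine ⟨L.re, ?_⟩
  have h1 := (Complex.continuous_re.tendsto L).comp hL
  refine h1.congr fun N => ?_
  have e : ((2 * (N : ℂ) + 1)⁻¹ * ∑ n ∈ Finset.Icc (-(N : ℤ)) N,
      ((f ((T ^ (P.eval n) : Equiv.Perm Ω) x) : ℝ) : ℂ)) =
      (((2 * (N : ℝ) + 1)⁻¹ * ∑ n ∈ Finset.Icc (-(N : ℤ)) N,
        f ((T ^ (P.eval n) : Equiv.Perm Ω) x) : ℝ) : ℂ) := by
    push_cast
    rfl
  simp only [Function.comp_apply]
  rw [e, Complex.ofReal_re]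

theorem perm_flow_aux {φ : ℝ → Ω → Ω} (h : IsFlow μ φ) (t : ℝ) (P : Polynomial ℤ) (n : ℤ)
    (x : Ω) : ((h.perm t) ^ (P.eval n) : Equiv.Perm Ω) x = φ (t * ((P.eval n : ℤ) : ℝ)) x := by
  rw [h.perm_zpow, mul_comm]

theorem maxSq_flow [IsProbabilityMeasure μ] {φ : ℝ → Ω → Ω} (h : IsFlow μ φ) (t : ℝ)
    (P : Polynomial ℤ) :
    MaxSq μ (fun n => φ (t * ((P.eval n : ℤ) : ℝ))) := by
  have h1 := maxSq_perm (h.perm t) (h.mp t) (h.mp (-t)).measurable P
  have e : (fun (n : ℤ) x => ((h.perm t) ^ (P.eval n) : Equiv.Perm Ω) x) =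
      fun n => φ (t * ((P.eval n : ℤ) : ℝ)) := by
    funext n x
    exact perm_flow_aux h t P n x
  rwa [e] at h1

theorem conv_flow [IsProbabilityMeasure μ] {φ : ℝ → Ω → Ω} (h : IsFlow μ φ) (t : ℝ)
    (P : Polynomial ℤ) (f : Ω → ℝ) (hf : Measurable f) (C : ℝ) (hC : ∀ x, |f x| ≤ C) :
    ∀ᵐ x ∂μ, ∃ l : ℝ, Tendsto (fun N : ℕ => (2 * (N : ℝ) + 1)⁻¹ *
      ∑ n ∈ Finset.Icc (-(N : ℤ)) N, f (φ (t * ((P.eval n : ℤ) : ℝ)) x)) atTop (𝓝 l) := by
  have h1 := conv_perm (h.perm t) (h.mp t) (h.mp (-t)).measurable P f hf C hC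
  simp only [perm_flow_aux] at h1
  exact h1

end Pool.AET
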